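import Mathlib
import Pool.Graph.R_pool_sql_team_seeded_64922ed1.X147.SsdE

set_option autoImplicit false

open Finset

namespace Pool.Agent.H954.SD

open Pool.Agent.X147.Ssd

variable {n : ℕ} [NeZero n]

/-- the `k`-element subsets of `ℤ/n \ {0}` with sum `x` -/
def blocks (n : ℕ) [NeZero n] (k : ℕ) (x : ZMod n) : Finset (Finset (ZMod n)) :=
  (((univ : Finset (ZMod n)).erase 0).powersetCard k).filter (fun T => ∑ t ∈ T, t = x)

def IsOneDesign (n : ℕ) [NeZero n] (k : ℕ) (x : ZMod n) : Prop :=
  (blocks n k x).Nonempty ∧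
    ∃ r : ℕ, ∀ y : ZMod n, y ≠ 0 → ((blocks n k x).filter (fun T => y ∈ T)).card = r

/-- number of blocks through `y` -/
def D (n : ℕ) [NeZero n] (k : ℕ) (x y : ZMod n) : ℕ :=
  ((blocks n k x).filter (fun T => y ∈ T)).card

noncomputable def al (v : ZMod n) (m : ℕ) : ℂ :=
  ∑ C ∈ ((univ : Finset (ZMod n)).erase 0).powersetCard m, ee n (v * ∑ c ∈ C, c)

noncomputable def be (v y : ZMod n) (k : ℕ) : ℂ :=
  ∑ C ∈ (((univ : Finset (ZMod n)).erase 0).powersetCard k).filter (fun T => y ∈ T),
    ee n (v * ∑ c ∈ C, c)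

lemma npos : 0 < n := Nat.pos_of_ne_zero (NeZero.ne n)

lemma ord_dvd (v : ZMod n) : addOrderOf v ∣ n := by
  have := addOrderOf_dvd_card (x := v)
  rwa [ZMod.card] at this

lemma ord_pos (v : ZMod n) : 0 < addOrderOf v := Nat.pos_of_dvd_of_pos (ord_dvd v) npos

lemma al_val (v : ZMod n) (m : ℕ) :
    (-1) ^ m * al v m
      = (-1) ^ (m / addOrderOf v) * ((n / addOrderOf v - 1).choose (m / addOrderOf v) : ℂ) := by
  have hd := ord_dvd v
  have h0 := ord_pos v
  have hN : 0 < n / addOrderOf v := Nat.div_pos (Nat.le_of_dvd npos hd) h0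
  have hn : n = addOrderOf v * (n / addOrderOf v) := (Nat.mul_div_cancel' hd).symm
  have h := alpha_coset hn h0 hN v 0 ((nat_mul_eq_zero_iff v _).2 dvd_rfl)
    (by rw [add_zero]) m
  unfold al
  rw [add_zero] at h
  rw [h]
  congr 1
  simp [Finset.card_powersetCard]

lemma be_zero (v y : ZMod n) : be v y 0 = 0 := by
  unfold be
  rw [Finset.powersetCard_zero, Finset.filter_singleton, if_neg (by simp), Finset.sum_empty]

lemma be_rec (v : ZMod n) {y : ZMod n} (hy : y ≠ 0) (k : ℕ) :
    be v y (k + 1) = ee n (v * y) * (al v k - be v y k) := by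
  have h1 : al v k - be v y k
      = ∑ C ∈ (((univ : Finset (ZMod n)).erase 0).powersetCard k).filter (fun T => ¬ y ∈ T),
        ee n (v * ∑ c ∈ C, c) := by
    unfold al be
    rw [← Finset.sum_filter_add_sum_filter_not _ (fun T => y ∈ T)]
    ring
  rw [h1, Finset.mul_sum]
  unfold be
  refine Finset.sum_nbij' (fun A => A.erase y) (fun C => insert y C) ?_ ?_ ?_ ?_ ?_
  · intro A hA
    simp only [Finset.mem_filter, Finset.mem_powersetCard] at hA ⊢
    obtain ⟨⟨hs, hc⟩, h0⟩ := hA
    refine ⟨⟨(Finset.erase_subset _ _).trans hs, ?_⟩, Finset.notMem_erase _ _⟩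
    rw [Finset.card_erase_of_mem h0, hc, Nat.add_sub_cancel]
  · intro C hC
    simp only [Finset.mem_filter, Finset.mem_powersetCard] at hC ⊢
    obtain ⟨⟨hs, hc⟩, h0⟩ := hC
    refine ⟨⟨?_, ?_⟩, Finset.mem_insert_self _ _⟩
    · refine Finset.insert_subset ?_ hs
      simpa using hy
    · rw [Finset.card_insert_of_notMem h0, hc]
  · intro A hA
    simp only [Finset.mem_filter] at hA
    exact Finset.insert_erase hA.2
  · intro C hC
    simp only [Finset.mem_filter] at hC
    exact Finset.erase_insert hC.2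
  · intro A hA
    simp only [Finset.mem_filter] at hA
    rw [← AddChar.map_add_eq_mul, ← mul_add, Finset.add_sum_erase A (fun a => a) hA.2]

lemma fourier (k : ℕ) (x y : ZMod n) :
    (n : ℂ) * (D n k x y : ℂ) = ∑ v : ZMod n, ee n (-(v * x)) * be v y k := by
  have h1 : ∀ v : ZMod n, ee n (-(v * x)) * be v y k
      = ∑ A ∈ (((univ : Finset (ZMod n)).erase 0).powersetCard k).filter (fun A => y ∈ A),
        ee n (v * (∑ a ∈ A, a - x)) := by
    intro v
    unfold be
    rw [Finset.mul_sum]
    refine Finset.sum_congr rfl fun A _ => ?_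
    rw [← AddChar.map_add_eq_mul]
    congr 1
    ring
  rw [Finset.sum_congr rfl (fun v _ => h1 v), Finset.sum_comm]
  have h2 : ∀ A : Finset (ZMod n), ∑ v : ZMod n, ee n (v * (∑ a ∈ A, a - x))
      = if ∑ a ∈ A, a = x then (n : ℂ) else 0 := by
    intro A
    rw [AddChar.sum_mulShift _ (ZMod.isPrimitive_stdAddChar n), ZMod.card]
    simp only [sub_eq_zero]
    split_ifs <;> simp
  rw [Finset.sum_congr rfl (fun A _ => h2 A), ← Finset.sum_filter, Finset.sum_const, nsmul_eq_mul,
    mul_comm]
  congr 2
  unfold D blocks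
  rw [Finset.filter_comm]

/-- the value of `α`, normalized -/
noncomputable def A (v : ZMod n) (m : ℕ) : ℂ :=
  (-1) ^ (m / addOrderOf v) * ((n / addOrderOf v - 1).choose (m / addOrderOf v) : ℂ)

noncomputable def B (v y : ZMod n) (k : ℕ) : ℂ := (-1) ^ k * be v y k

lemma B_zero (v y : ZMod n) : B v y 0 = 0 := by
  unfold B
  rw [be_zero, mul_zero]

lemma B_rec (v : ZMod n) {y : ZMod n} (hy : y ≠ 0) (k : ℕ) :
    B v y (k + 1) = ee n (v * y) * (B v y k - A v k) := by
  unfold B A
  rw [be_rec v hy, ← al_val]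
  ring

/-- value for `v y ≠ 0` -/
lemma B_ne (v : ZMod n) {y : ZMod n} (hy : y ≠ 0) (hvy : v * y ≠ 0) (k : ℕ) :
    B v y k = - (A v k * ∑ j ∈ Icc 1 (k % addOrderOf v), ee n (v * y) ^ j) := by
  set s := addOrderOf v with hs
  have hs0 : 0 < s := ord_pos v
  have hz1 : ee n (v * y) ≠ 1 := fun h => hvy ((ee_eq_one_iff _).1 h)
  have hzs : ee n (v * y) ^ s = 1 := by
    rw [← ee_nat, ee_eq_one_iff]
    have h1 : ((s : ℕ) : ZMod n) * v = 0 := (nat_mul_eq_zero_iff v _).2 (by rw [hs])
    linear_combination y * h1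
  induction k with
  | zero => simp [B_zero]
  | succ k ih =>
    rw [B_rec v hy, ih]
    have hlt := Nat.mod_lt k hs0
    by_cases hc : k % s + 1 = s
    · have h1 : (k + 1) % s = 0 := by
        have := Nat.add_mod k 1 s
        rw [Nat.add_mod]
        rcases Nat.lt_or_ge 1 s with h | h
        · rw [Nat.mod_eq_of_lt h, hc, Nat.mod_self]
        · have : s = 1 := by omega
          rw [this]; exact Nat.mod_one _
      rw [h1]
      have h2 : ∑ j ∈ Icc 1 (k % s), ee n (v * y) ^ j = -1 := by
        have hg := mul_neg_geom_sum (ee n (v * y)) s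
        rw [hzs, sub_self] at hg
        have h3 : ∑ i ∈ range s, ee n (v * y) ^ i = 0 := by
          rcases mul_eq_zero.1 hg with h | h
          · exact absurd (sub_eq_zero.1 h).symm hz1
          · exact h
        have h4 : range s = insert 0 (Icc 1 (k % s)) := by
          ext j
          rw [Finset.mem_range, Finset.mem_insert, Finset.mem_Icc]
          omega
        rw [h4, Finset.sum_insert (by simp), pow_zero] at h3
        linear_combination h3
      rw [h2]
      simp
    · have h1 : (k + 1) % s = k % s + 1 := by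
        rw [Nat.add_mod]
        have h3 : 1 < s := by omega
        rw [Nat.mod_eq_of_lt h3]
        exact Nat.mod_eq_of_lt (by omega)
      have h2 : (k + 1) / s = k / s := by
        have e1 := Nat.div_add_mod k s
        have e2 := Nat.div_add_mod (k + 1) s
        rw [h1] at e2
        have : s * ((k + 1) / s) = s * (k / s) := by omega
        exact Nat.eq_of_mul_eq_mul_left hs0 this
      rw [h1]
      have h3 : A v (k + 1) = A v k := by
        unfold A
        rw [← hs, h2]
      rw [h3, Finset.sum_Icc_succ_top (by omega)]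
      have h4 : ee n (v * y) * ∑ j ∈ Icc 1 (k % s), ee n (v * y) ^ j
          = ∑ j ∈ Icc 1 (k % s), ee n (v * y) ^ j + ee n (v * y) ^ (k % s + 1)
            - ee n (v * y) := by
        have : ∀ r : ℕ, ∀ z : ℂ, z * ∑ j ∈ Icc 1 r, z ^ j = ∑ j ∈ Icc 1 r, z ^ j + z ^ (r + 1) - z := by
          intro r z
          induction r with
          | zero => simp
          | succ r ih =>
            rw [Finset.sum_Icc_succ_top (by omega), mul_add, ih]
            ring
        exact this _ _
      linear_combination (- A v k) * h4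

/-- value for `v y = 0` -/
lemma B_eq (v : ZMod n) {y : ZMod n} (hy : y ≠ 0) (hvy : v * y = 0) (k : ℕ) :
    ((n / addOrderOf v - 1 : ℕ) : ℂ) * B v y k
      = - (A v k * (((n / addOrderOf v - 1 : ℕ) : ℂ) * ((k % addOrderOf v : ℕ) : ℂ)
          - (addOrderOf v : ℂ) * ((k / addOrderOf v : ℕ) : ℂ))) := by
  set s := addOrderOf v with hs
  set M := n / s - 1 with hM
  have hs0 : 0 < s := ord_pos v
  have hz1 : ee n (v * y) = 1 := (ee_eq_one_iff _).2 hvy
  induction k with
  | zero => simp [B_zero]
  | succ k ih =>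
    rw [B_rec v hy, hz1, one_mul, mul_sub, ih]
    have hlt := Nat.mod_lt k hs0
    by_cases hc : k % s + 1 = s
    · have h1 : (k + 1) % s = 0 := by
        rw [Nat.add_mod]
        rcases Nat.lt_or_ge 1 s with h | h
        · rw [Nat.mod_eq_of_lt h, hc, Nat.mod_self]
        · have : s = 1 := by omega
          rw [this]; exact Nat.mod_one _
      have h2 : (k + 1) / s = k / s + 1 := by
        have e1 := Nat.div_add_mod k s
        have e2 := Nat.div_add_mod (k + 1) s
        rw [h1] at e2
        have : s * ((k + 1) / s) = s * (k / s + 1) := by rw [mul_add, mul_one]; omega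
        exact Nat.eq_of_mul_eq_mul_left hs0 this
      rw [h1]
      unfold A
      rw [← hs, h2, ← hM]
      have h3 : (M.choose (k / s + 1) : ℂ) * ((k / s : ℕ) + 1 : ℂ)
          = (M.choose (k / s) : ℂ) * ((M : ℂ) - ((k / s : ℕ) : ℂ)) := by
        rcases Nat.lt_or_ge M (k / s) with h | h
        · rw [Nat.choose_eq_zero_of_lt h, Nat.choose_eq_zero_of_lt (by omega)]
          simp
        · have := Nat.choose_succ_right_eq M (k / s)
          rw [← Nat.cast_sub h]
          exact_mod_cast this
      have h5 : ((k % s : ℕ) : ℂ) + 1 = (s : ℂ) := by exact_mod_cast hc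
      rw [pow_succ]
      push_cast at h3 ⊢
      have h6 : ((k % s : ℕ) : ℂ) = (s : ℂ) - 1 := by linear_combination h5
      rw [h6]
      linear_combination ((-1 : ℂ) ^ (k / s) * (s : ℂ)) * h3
    · have h1 : (k + 1) % s = k % s + 1 := by
        rw [Nat.add_mod]
        have h3 : 1 < s := by omega
        rw [Nat.mod_eq_of_lt h3]
        exact Nat.mod_eq_of_lt (by omega)
      have h2 : (k + 1) / s = k / s := by
        have e1 := Nat.div_add_mod k s
        have e2 := Nat.div_add_mod (k + 1) s
        rw [h1] at e2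
        have : s * ((k + 1) / s) = s * (k / s) := by omega
        exact Nat.eq_of_mul_eq_mul_left hs0 this
      rw [h1, h2]
      have h3 : A v (k + 1) = A v k := by
        unfold A
        rw [← hs, h2]
      rw [h3]
      push_cast
      ring

end Pool.Agent.H954.SD
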