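import Mathlib
import Pool.Agent.H954.SD.A

set_option autoImplicit false

open Finset

namespace Pool.Agent.H954.SD

open Pool.Agent.X147.Ssd

variable {n : ℕ} [NeZero n]

/-- elements of order `s` -/
noncomputable def ord (n : ℕ) [NeZero n] (s : ℕ) : Finset (ZMod n) :=
  (univ : Finset (ZMod n)).filter (fun v => addOrderOf v = s)

lemma card_ord {s : ℕ} (hs : s ∣ n) : (ord n s).card = s.totient := by
  unfold ord
  have h := IsAddCyclic.card_addOrderOf_eq_totient (α := ZMod n) (d := s) (by rwa [ZMod.card])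
  exact h

/-- partition of the kernel of multiplication by `f` by the order -/
lemma ker_partition {f : ℕ} (hf : f ∣ n) (g : ZMod n → ℂ) :
    ∑ v ∈ (univ : Finset (ZMod n)).filter (fun v => (f : ZMod n) * v = 0), g v
      = ∑ e ∈ f.divisors, ∑ v ∈ ord n e, g v := by
  have hf0 : f ≠ 0 := by
    rintro rfl
    exact (NeZero.ne n) (zero_dvd_iff.1 hf)
  have hmap : ∀ v ∈ (univ : Finset (ZMod n)).filter (fun v => (f : ZMod n) * v = 0),
      addOrderOf v ∈ f.divisors := by
    intro v hv
    rw [Nat.mem_divisors]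
    exact ⟨(nat_mul_eq_zero_iff v f).1 (Finset.mem_filter.1 hv).2, hf0⟩
  rw [← Finset.sum_fiberwise_of_maps_to hmap]
  refine Finset.sum_congr rfl fun e he => ?_
  refine Finset.sum_congr ?_ fun _ _ => rfl
  ext v
  unfold ord
  simp only [Finset.mem_filter, Finset.mem_univ, true_and]
  constructor
  · exact fun h => h.2
  · intro h
    refine ⟨(nat_mul_eq_zero_iff v f).2 ?_, h⟩
    rw [h]
    exact (Nat.mem_divisors.1 he).1

lemma all_partition (g : ZMod n → ℂ) :
    ∑ v : ZMod n, g v = ∑ e ∈ n.divisors, ∑ v ∈ ord n e, g v := by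
  rw [← ker_partition dvd_rfl]
  refine Finset.sum_congr ?_ fun _ _ => rfl
  ext v
  simp

lemma card_ker {f : ℕ} (hf : f ∣ n) :
    (((univ : Finset (ZMod n)).filter (fun v => (f : ZMod n) * v = 0)).card : ℂ) = f := by
  have h := ker_partition hf (fun _ => (1 : ℂ))
  simp only [Finset.sum_const, nsmul_eq_mul, mul_one] at h
  rw [h]
  have h1 : ∑ e ∈ f.divisors, ((ord n e).card : ℂ) = ∑ e ∈ f.divisors, (e.totient : ℂ) := by
    refine Finset.sum_congr rfl fun e he => ?_
    rw [card_ord ((Nat.mem_divisors.1 he).1.trans hf)]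
  rw [h1, ← Nat.cast_sum, Nat.sum_totient]

/-- the sum of the characters `v` with `f v = 0` at the multiple `j` of `y` -/
lemma ker_val {f : ℕ} (hf : f ∣ n) (y : ZMod n) (j : ℕ) :
    ∑ v ∈ (univ : Finset (ZMod n)).filter (fun v => (f : ZMod n) * v = 0), ee n (v * y) ^ j
      = if f ∣ y.val * j then (f : ℂ) else 0 := by
  have h1 : ∀ v ∈ (univ : Finset (ZMod n)).filter (fun v => (f : ZMod n) * v = 0),
      ee n (v * y) ^ j = ee n (v * (y * (j : ZMod n))) := by
    intro v _
    rw [← ee_nat, mul_assoc]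
  rw [Finset.sum_congr rfl h1, ker_sum, card_ker hf]
  have hg : n.gcd f = f := Nat.gcd_eq_right hf
  rw [hg]
  have hf0 : 0 < f := Nat.pos_of_dvd_of_pos hf npos
  have h2 : ((n / f : ℕ) : ZMod n) * (y * (j : ZMod n)) = 0 ↔ f ∣ y.val * j := by
    have h3 : ((n / f : ℕ) : ZMod n) * (y * (j : ZMod n)) = ((n / f * (y.val * j) : ℕ) : ZMod n) := by
      push_cast
      rw [ZMod.natCast_zmod_val]
    rw [h3, ZMod.natCast_eq_zero_iff]
    have h4 : n = n / f * f := (Nat.div_mul_cancel hf).symm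
    have h5 : 0 < n / f := Nat.div_pos (Nat.le_of_dvd npos hf) hf0
    constructor
    · intro h
      have h' : n / f * f ∣ n / f * (y.val * j) := by rw [← h4]; exact h
      exact Nat.dvd_of_mul_dvd_mul_left h5 h'
    · intro h
      have h' : n / f * f ∣ n / f * (y.val * j) := Nat.mul_dvd_mul_left _ h
      rwa [← h4] at h'
  by_cases h : f ∣ y.val * j
  · rw [if_pos h, if_pos (h2.2 h)]
  · rw [if_neg h, if_neg (fun h' => h (h2.1 h'))]

/-- partial sums of the characters of order `f` -/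
noncomputable def W (f R : ℕ) (y : ZMod n) : ℂ :=
  ∑ v ∈ ord n f, ∑ j ∈ Icc 1 R, ee n (v * y) ^ j

lemma sum_W {f : ℕ} (hf : f ∣ n) (R : ℕ) (y : ZMod n) :
    ∑ e ∈ f.divisors, W e R y = (f : ℂ) * ((R / (f / f.gcd y.val) : ℕ) : ℂ) := by
  unfold W
  rw [← ker_partition hf (fun v => ∑ j ∈ Icc 1 R, ee n (v * y) ^ j), Finset.sum_comm]
  rw [Finset.sum_congr rfl (fun j _ => ker_val hf y j), ← Finset.sum_filter, Finset.sum_const,
    nsmul_eq_mul, mul_comm]
  congr 2
  have hf0 : 0 < f := Nat.pos_of_dvd_of_pos hf npos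
  have hg0 : 0 < f.gcd y.val := Nat.gcd_pos_of_pos_left _ hf0
  rw [← Nat.Ioc_filter_dvd_card_eq_div]
  congr 1
  ext j
  simp only [Finset.mem_filter, Finset.mem_Icc, Finset.mem_Ioc]
  have h1 : f ∣ y.val * j ↔ f / f.gcd y.val ∣ j := by
    obtain ⟨f', hf'⟩ := Nat.gcd_dvd_left f y.val
    obtain ⟨y', hy'⟩ := Nat.gcd_dvd_right f y.val
    have hff : f / f.gcd y.val = f' := by
      conv_lhs => rw [hf']
      rw [← hf']
      exact Nat.div_eq_of_eq_mul_right hg0 hf'
    rw [hff]
    have hcop : Nat.Coprime f' y' := by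
      have h2 := Nat.coprime_div_gcd_div_gcd hg0
      rw [hff, Nat.div_eq_of_eq_mul_right hg0 hy'] at h2
      exact h2
    constructor
    · intro h
      have h3 : f.gcd y.val * f' ∣ f.gcd y.val * (y' * j) := by
        rw [← hf', ← mul_assoc, ← hy']; exact h
      have h4 := Nat.dvd_of_mul_dvd_mul_left hg0 h3
      exact hcop.dvd_of_dvd_mul_left h4
    · intro h
      have h3 : f.gcd y.val * f' ∣ f.gcd y.val * (y' * j) :=
        Nat.mul_dvd_mul_left _ (h.mul_left _)
      rw [← hf', ← mul_assoc, ← hy'] at h3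
      exact h3
  rw [h1]
  constructor
  · rintro ⟨⟨a, b⟩, c⟩; exact ⟨⟨by omega, b⟩, c⟩
  · rintro ⟨⟨a, b⟩, c⟩; exact ⟨⟨by omega, b⟩, c⟩

/-- the arithmetic hypothesis on `k` -/
def Hyp (n k : ℕ) : Prop := ∀ s, s ∣ n → (n - 1) ∣ k * (s - 1)

lemma W_val {k : ℕ} (hn : 2 ≤ n) (hk : k ≤ n - 1) (H : Hyp n k) {s R : ℕ} (hs : s ∣ n)
    (hR : R * (n - 1) = k * (s - 1)) (y : ZMod n) :
    ∀ f, f ∣ s → ((n - 1 : ℕ) : ℂ) * W f R y
      = k * f.totient * ((s : ℂ) * (if f ∣ y.val then 1 else 0) - 1) := by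
  have hs0 : 0 < s := Nat.pos_of_dvd_of_pos hs npos
  intro f
  induction f using Nat.strong_induction_on with
  | _ f ih =>
    intro hf
    have hf0 : 0 < f := Nat.pos_of_dvd_of_pos hf hs0
    have hfn : f ∣ n := hf.trans hs
    -- the total
    have htot : ((n - 1 : ℕ) : ℂ) * ∑ e ∈ f.divisors, W e R y
        = k * ((s : ℂ) * (f.gcd y.val : ℕ) - f) := by
      rw [sum_W hfn]
      have hg0 : 0 < f.gcd y.val := Nat.gcd_pos_of_pos_left _ hf0
      obtain ⟨f', hf'⟩ := Nat.gcd_dvd_left f y.val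
      have hff : f / f.gcd y.val = f' := Nat.div_eq_of_eq_mul_right hg0 hf'
      rw [hff]
      have hf'0 : 0 < f' := by
        rcases Nat.eq_zero_or_pos f' with h | h
        · rw [h, mul_zero] at hf'; omega
        · exact h
      have hf'f : f' ∣ f := ⟨f.gcd y.val, by rw [mul_comm]; exact hf'⟩
      obtain ⟨t, ht⟩ := hf'f.trans hf
      have htn : t ∣ n := (Dvd.intro_left f' ht.symm).trans hs
      have ht0 : 0 < t := by
        rcases Nat.eq_zero_or_pos t with h | h
        · rw [h, mul_zero] at ht; omega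
        · exact h
      obtain ⟨R2, hR2⟩ := H t htn
      obtain ⟨R1, hR1⟩ := H f' (hf'f.trans hfn)
      have hR1lt : R1 < f' := by
        by_contra hcon
        have h1 : (n - 1) * f' ≤ (n - 1) * R1 := Nat.mul_le_mul_left _ (by omega)
        rw [← hR1] at h1
        have h2 : k * (f' - 1) ≤ (n - 1) * (f' - 1) := Nat.mul_le_mul_right _ hk
        have h3 : (n - 1) * (f' - 1) < (n - 1) * f' :=
          Nat.mul_lt_mul_of_pos_left (by omega) (by omega)
        omega
      have hRR : R = f' * R2 + R1 := by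
        have h1 : (n - 1) * R = (n - 1) * (f' * R2 + R1) := by
          have e1 : (n - 1) * R = k * (s - 1) := by rw [mul_comm]; exact hR
          rw [e1, mul_add, ← hR1]
          have e2 : (n - 1) * (f' * R2) = f' * (k * (t - 1)) := by rw [hR2]; ring
          rw [e2, ht]
          obtain ⟨a, rfl⟩ : ∃ a, f' = a + 1 := ⟨f' - 1, by omega⟩
          obtain ⟨b, rfl⟩ : ∃ b, t = b + 1 := ⟨t - 1, by omega⟩
          have e3 : (a + 1) * (b + 1) - 1 = a * b + a + b := by
            have : (a + 1) * (b + 1) = a * b + a + b + 1 := by ring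
            omega
          rw [e3, Nat.add_sub_cancel, Nat.add_sub_cancel]
          ring
        exact Nat.eq_of_mul_eq_mul_left (by omega) h1
      have hdiv : R / f' = R2 := by
        rw [hRR, Nat.mul_add_div hf'0, Nat.div_eq_of_lt hR1lt, add_zero]
      rw [hdiv]
      have e4 : ((n - 1 : ℕ) : ℂ) * (R2 : ℂ) = (k : ℂ) * ((t : ℂ) - 1) := by
        have : (((n - 1) * R2 : ℕ) : ℂ) = ((k * (t - 1) : ℕ) : ℂ) := by rw [hR2]
        push_cast [Nat.cast_sub ht0] at this
        rw [← this]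
      have e5 : (s : ℂ) = (f' : ℂ) * t := by rw [ht]; push_cast; ring
      have e6 : (f : ℂ) = ((f.gcd y.val : ℕ) : ℂ) * f' := by exact_mod_cast hf'
      rw [e5]
      linear_combination (f : ℂ) * e4 + (k : ℂ) * t * e6
    rw [← Nat.insert_self_properDivisors hf0.ne', Finset.sum_insert Nat.self_notMem_properDivisors,
      mul_add] at htot
    have hrest : ((n - 1 : ℕ) : ℂ) * ∑ e ∈ f.properDivisors, W e R y
        = ∑ e ∈ f.properDivisors, (k : ℂ) * e.totient *
          ((s : ℂ) * (if e ∣ y.val then 1 else 0) - 1) := by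
      rw [Finset.mul_sum]
      refine Finset.sum_congr rfl fun e he => ?_
      rw [Nat.mem_properDivisors] at he
      exact ih e he.2 (he.1.trans hf)
    rw [hrest] at htot
    have hall : ∑ e ∈ f.divisors, (k : ℂ) * e.totient *
          ((s : ℂ) * (if e ∣ y.val then 1 else 0) - 1)
        = k * ((s : ℂ) * (f.gcd y.val : ℕ) - f) := by
      have h1 : ∑ e ∈ f.divisors, (e.totient : ℂ) = f := by
        rw [← Nat.cast_sum, Nat.sum_totient]
      have h2 : ∑ e ∈ f.divisors, (e.totient : ℂ) * (if e ∣ y.val then 1 else 0)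
          = ((f.gcd y.val : ℕ) : ℂ) := by
        rw [← Nat.sum_totient (f.gcd y.val), Nat.cast_sum]
        simp only [mul_ite, mul_one, mul_zero]
        rw [← Finset.sum_filter]
        refine Finset.sum_congr ?_ fun _ _ => rfl
        ext e
        rw [Finset.mem_filter, Nat.mem_divisors, Nat.mem_divisors]
        constructor
        · rintro ⟨⟨a, b⟩, c⟩
          exact ⟨Nat.dvd_gcd a c, (Nat.gcd_pos_of_pos_left _ hf0).ne'⟩
        · rintro ⟨a, b⟩
          exact ⟨⟨a.trans (Nat.gcd_dvd_left _ _), hf0.ne'⟩, a.trans (Nat.gcd_dvd_right _ _)⟩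
      calc ∑ e ∈ f.divisors, (k : ℂ) * e.totient * ((s : ℂ) * (if e ∣ y.val then 1 else 0) - 1)
          = ∑ e ∈ f.divisors, ((k : ℂ) * s * ((e.totient : ℂ) * (if e ∣ y.val then 1 else 0))
            - (k : ℂ) * (e.totient : ℂ)) := by
            refine Finset.sum_congr rfl fun e _ => ?_
            ring
        _ = _ := by
            rw [Finset.sum_sub_distrib, ← Finset.mul_sum, ← Finset.mul_sum, h1, h2]
            ring
    rw [← Nat.insert_self_properDivisors hf0.ne',
      Finset.sum_insert Nat.self_notMem_properDivisors] at hall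
    linear_combination htot - hall

end Pool.Agent.H954.SD
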