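import Mathlib
import Pool.Agent.H954.SD.B

set_option autoImplicit false

open Finset

namespace Pool.Agent.H954.SD

open Pool.Agent.X147.Ssd

variable {n : ℕ} [NeZero n]

lemma divmod {k s : ℕ} (hn : 2 ≤ n) (hk : k ≤ n - 1) (H : Hyp n k) (hs : s ∣ n) :
    (k % s) * (n - 1) = k * (s - 1) ∧ (k / s) * (n - 1) = k * (n / s - 1) := by
  have hs0 : 0 < s := Nat.pos_of_dvd_of_pos hs npos
  obtain ⟨R, hR⟩ := H s hs
  obtain ⟨t, ht⟩ := hs
  have hts : n / s = t := Nat.div_eq_of_eq_mul_right hs0 ht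
  have htn : t ∣ n := Dvd.intro_left s ht.symm
  have ht0 : 0 < t := Nat.pos_of_dvd_of_pos htn npos
  obtain ⟨q, hq⟩ := H t htn
  have hRlt : R < s := by
    by_contra hcon
    have h1 : (n - 1) * s ≤ (n - 1) * R := Nat.mul_le_mul_left _ (by omega)
    rw [← hR] at h1
    have h2 : k * (s - 1) ≤ (n - 1) * (s - 1) := Nat.mul_le_mul_right _ hk
    have h3 : (n - 1) * (s - 1) < (n - 1) * s :=
      Nat.mul_lt_mul_of_pos_left (by omega) (by omega)
    omega
  have hkk : k = s * q + R := by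
    have h1 : (n - 1) * k = (n - 1) * (s * q + R) := by
      rw [mul_add, ← hR]
      have e2 : (n - 1) * (s * q) = s * (k * (t - 1)) := by rw [hq]; ring
      rw [e2]
      have e0 : n - 1 = s * t - 1 := by omega
      rw [e0]
      obtain ⟨a, rfl⟩ : ∃ a, s = a + 1 := ⟨s - 1, by omega⟩
      obtain ⟨b, rfl⟩ : ∃ b, t = b + 1 := ⟨t - 1, by omega⟩
      have e3 : (a + 1) * (b + 1) - 1 = a * b + a + b := by
        have : (a + 1) * (b + 1) = a * b + a + b + 1 := by ring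
        omega
      rw [e3, Nat.add_sub_cancel, Nat.add_sub_cancel]
      ring
    exact Nat.eq_of_mul_eq_mul_left (by omega) h1
  have hdiv : k / s = q := by
    rw [hkk, Nat.mul_add_div hs0, Nat.div_eq_of_lt hRlt, add_zero]
  have hmod : k % s = R := by
    rw [hkk, Nat.mul_add_mod, Nat.mod_eq_of_lt hRlt]
  rw [hdiv, hmod, hts]
  exact ⟨by rw [hR]; ring, by rw [hq]; ring⟩

lemma vy_zero_iff (v y : ZMod n) : v * y = 0 ↔ addOrderOf v ∣ y.val := by
  rw [← nat_mul_eq_zero_iff, ZMod.natCast_zmod_val, mul_comm]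

lemma val_lt_pos {y : ZMod n} (hy : y ≠ 0) : 0 < y.val ∧ y.val < n :=
  ⟨Nat.pos_of_ne_zero fun h => hy ((ZMod.val_eq_zero y).1 h), ZMod.val_lt y⟩

lemma M_pos {v y : ZMod n} (hy : y ≠ 0) (hvy : v * y = 0) : 1 ≤ n / addOrderOf v - 1 := by
  have h1 := (vy_zero_iff v y).1 hvy
  have h2 := val_lt_pos hy
  have h3 := Nat.le_of_dvd h2.1 h1
  have h4 := ord_dvd v
  obtain ⟨t, ht⟩ := h4
  have h5 : n / addOrderOf v = t := Nat.div_eq_of_eq_mul_right (ord_pos v) ht
  rw [h5]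
  rcases t with _ | _ | t
  · rw [mul_zero] at ht; omega
  · rw [zero_add, mul_one] at ht; omega
  · omega

/-- common value of `A v k` for `v` of order `s` -/
noncomputable def As (n k s : ℕ) : ℂ := (-1) ^ (k / s) * ((n / s - 1).choose (k / s) : ℂ)

lemma ord_sum {k s : ℕ} (hn : 2 ≤ n) (hk : k ≤ n - 1) (H : Hyp n k) (hs : s ∣ n) {y : ZMod n}
    (hy : y ≠ 0) :
    ((n - 1 : ℕ) : ℂ) * ∑ v ∈ ord n s, B v y k = k * s.totient * As n k s := by
  have hs0 : 0 < s := Nat.pos_of_dvd_of_pos hs npos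
  obtain ⟨h1, h2⟩ := divmod hn hk H hs
  have hAs : ∀ v ∈ ord n s, A v k = As n k s := by
    intro v hv
    unfold A As
    rw [(Finset.mem_filter.1 hv).2]
  by_cases hsy : s ∣ y.val
  · have h3 : ∀ v ∈ ord n s, ((n - 1 : ℕ) : ℂ) * B v y k = k * As n k s := by
      intro v hv
      have hvs : addOrderOf v = s := (Finset.mem_filter.1 hv).2
      have hvy : v * y = 0 := (vy_zero_iff v y).2 (by rw [hvs]; exact hsy)
      have h4 := B_eq v hy hvy k
      have h5 := M_pos hy hvy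
      rw [hAs v hv, hvs] at h4
      rw [hvs] at h5
      have h6 : ((n / s - 1 : ℕ) : ℂ) ≠ 0 := Nat.cast_ne_zero.2 (by omega)
      have e1 : ((k % s : ℕ) : ℂ) * ((n - 1 : ℕ) : ℂ) = (k : ℂ) * ((s : ℂ) - 1) := by
        have : (((k % s) * (n - 1) : ℕ) : ℂ) = ((k * (s - 1) : ℕ) : ℂ) := by rw [h1]
        rw [Nat.cast_mul, Nat.cast_mul, Nat.cast_sub (by omega : 1 ≤ s), Nat.cast_one] at this
        exact this
      have e2 : ((k / s : ℕ) : ℂ) * ((n - 1 : ℕ) : ℂ) = (k : ℂ) * ((n / s - 1 : ℕ) : ℂ) := by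
        have : (((k / s) * (n - 1) : ℕ) : ℂ) = ((k * (n / s - 1) : ℕ) : ℂ) := by rw [h2]
        rw [Nat.cast_mul, Nat.cast_mul] at this
        exact this
      apply mul_left_cancel₀ h6
      linear_combination ((n - 1 : ℕ) : ℂ) * h4 - As n k s * ((n / s - 1 : ℕ) : ℂ) * e1
        + As n k s * (s : ℂ) * e2
    rw [Finset.mul_sum, Finset.sum_congr rfl h3, Finset.sum_const, card_ord hs, nsmul_eq_mul]
    ring
  · have h3 : ∀ v ∈ ord n s, B v y k = - (As n k s * ∑ j ∈ Icc 1 (k % s), ee n (v * y) ^ j) := by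
      intro v hv
      have hvs : addOrderOf v = s := (Finset.mem_filter.1 hv).2
      have hvy : v * y ≠ 0 := fun h => hsy (by rw [← hvs]; exact (vy_zero_iff v y).1 h)
      rw [B_ne v hy hvy, hAs v hv, hvs]
    rw [Finset.sum_congr rfl h3]
    have h4 := W_val hn hk H hs h1 y s dvd_rfl
    rw [if_neg hsy] at h4
    unfold W at h4
    rw [Finset.sum_neg_distrib, ← Finset.mul_sum]
    linear_combination (- As n k s) * h4

lemma D_const {k : ℕ} (hn : 2 ≤ n) (hk : k ≤ n - 1) (H : Hyp n k) {y y' : ZMod n}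
    (hy : y ≠ 0) (hy' : y' ≠ 0) : D n k 0 y = D n k 0 y' := by
  have h1 : ∀ z : ZMod n, z ≠ 0 → ((n - 1 : ℕ) : ℂ) * ((-1) ^ k * ((n : ℂ) * (D n k 0 z : ℂ)))
      = ∑ s ∈ n.divisors, k * s.totient * As n k s := by
    intro z hz
    rw [fourier, Finset.mul_sum]
    have h2 : ∀ v ∈ (univ : Finset (ZMod n)), (-1) ^ k * (ee n (-(v * 0)) * be v z k) = B v z k := by
      intro v _
      rw [mul_zero, neg_zero, AddChar.map_zero_eq_one, one_mul]
      rfl
    rw [Finset.sum_congr rfl h2, all_partition, Finset.mul_sum]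
    refine Finset.sum_congr rfl fun s hs => ?_
    exact ord_sum hn hk H (Nat.mem_divisors.1 hs).1 hz
  have h3 := (h1 y hy).trans (h1 y' hy').symm
  have h4 : ((n - 1 : ℕ) : ℂ) ≠ 0 := Nat.cast_ne_zero.2 (by omega)
  have h5 : ((-1 : ℂ)) ^ k ≠ 0 := pow_ne_zero _ (by norm_num)
  have h6 : (n : ℂ) ≠ 0 := Nat.cast_ne_zero.2 (NeZero.ne n)
  have h7 := mul_left_cancel₀ h6 (mul_left_cancel₀ h5 (mul_left_cancel₀ h4 h3))
  exact_mod_cast h7

/-- small `k` -/
lemma small_B {k : ℕ} (hsm : ∀ s, s ∣ n → s ≠ 1 → k < s) {v y : ZMod n} (hv : v ≠ 0)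
    (hy : y ≠ 0) : B v y k = - ∑ j ∈ Icc 1 k, ee n (v * y) ^ j := by
  have hs1 : addOrderOf v ≠ 1 := by
    rw [Ne, AddMonoid.addOrderOf_eq_one_iff]; exact hv
  have hks := hsm _ (ord_dvd v) hs1
  have hA : A v k = 1 := by
    unfold A
    rw [Nat.div_eq_of_lt hks]
    simp
  by_cases hvy : v * y = 0
  · have h4 := B_eq v hy hvy k
    have h5 := M_pos hy hvy
    have h6 : ((n / addOrderOf v - 1 : ℕ) : ℂ) ≠ 0 := Nat.cast_ne_zero.2 (by omega)
    rw [hA, Nat.div_eq_of_lt hks, Nat.mod_eq_of_lt hks] at h4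
    apply mul_left_cancel₀ h6
    rw [h4, hvy, AddChar.map_zero_eq_one]
    simp
  · rw [B_ne v hy hvy, hA, Nat.mod_eq_of_lt hks, one_mul]

/-- number of `1 ≤ j ≤ k` with `j y = x` -/
def cnt (k : ℕ) (x y : ZMod n) : ℕ := ((Icc 1 k).filter (fun j : ℕ => (j : ZMod n) * y = x)).card

lemma small_D {k : ℕ} (hsm : ∀ s, s ∣ n → s ≠ 1 → k < s) (x : ZMod n) {y y' : ZMod n}
    (hy : y ≠ 0) (hy' : y' ≠ 0) : D n k x y = D n k x y' ↔ cnt k x y = cnt k x y' := by
  have hB0 : B (0 : ZMod n) y k = B (0 : ZMod n) y' k := by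
    have h1 := B_eq (0 : ZMod n) hy (zero_mul _) k
    have h2 := B_eq (0 : ZMod n) hy' (zero_mul _) k
    have h5 := M_pos (v := (0 : ZMod n)) hy (zero_mul _)
    have h6 : ((n / addOrderOf (0 : ZMod n) - 1 : ℕ) : ℂ) ≠ 0 := Nat.cast_ne_zero.2 (by omega)
    exact mul_left_cancel₀ h6 (h1.trans h2.symm)
  have h1 : ∀ z : ZMod n, z ≠ 0 → (-1) ^ k * ((n : ℂ) * (D n k x z : ℂ))
      = B 0 z k + k - n * (cnt k x z : ℂ) := by
    intro z hz
    rw [fourier, Finset.mul_sum]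
    have h2 : ∀ v ∈ (univ : Finset (ZMod n)), (-1) ^ k * (ee n (-(v * x)) * be v z k)
        = ee n (-(v * x)) * B v z k := by
      intro v _
      unfold B
      ring
    rw [Finset.sum_congr rfl h2, ← Finset.add_sum_erase univ _ (Finset.mem_univ (0 : ZMod n)),
      zero_mul, neg_zero, AddChar.map_zero_eq_one, one_mul]
    have h3 : ∀ v ∈ (univ : Finset (ZMod n)).erase 0, ee n (-(v * x)) * B v z k
        = - ∑ j ∈ Icc 1 k, ee n (v * ((j : ZMod n) * z - x)) := by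
      intro v hv
      rw [small_B hsm (Finset.ne_of_mem_erase hv) hz, mul_neg, Finset.mul_sum]
      congr 1
      refine Finset.sum_congr rfl fun j _ => ?_
      rw [← ee_nat, ← AddChar.map_add_eq_mul]
      congr 1
      ring
    rw [Finset.sum_congr rfl h3, Finset.sum_neg_distrib, Finset.sum_comm]
    have h4 : ∀ j ∈ Icc 1 k, ∑ v ∈ (univ : Finset (ZMod n)).erase 0,
        ee n (v * ((j : ZMod n) * z - x)) = (if (j : ZMod n) * z = x then (n : ℂ) else 0) - 1 := by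
      intro j _
      have h5 := AddChar.sum_mulShift ((j : ZMod n) * z - x) (ZMod.isPrimitive_stdAddChar n)
      rw [← Finset.add_sum_erase univ _ (Finset.mem_univ (0 : ZMod n)), zero_mul,
        AddChar.map_zero_eq_one, ZMod.card] at h5
      have h6 : ∑ v ∈ (univ : Finset (ZMod n)).erase 0, ee n (v * ((j : ZMod n) * z - x))
          = (if (j : ZMod n) * z - x = 0 then (n : ℂ) else 0) - 1 := by
        rw [← (show (((if (j : ZMod n) * z - x = 0 then n else 0 : ℕ) : ℕ) : ℂ)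
          = (if (j : ZMod n) * z - x = 0 then (n : ℂ) else 0) by split_ifs <;> simp)]
        linear_combination h5
      rw [h6]
      simp only [sub_eq_zero]
    rw [Finset.sum_congr rfl h4, Finset.sum_sub_distrib, ← Finset.sum_filter, Finset.sum_const,
      Finset.sum_const, Nat.card_Icc, nsmul_eq_mul, nsmul_eq_mul]
    unfold cnt
    push_cast [Nat.add_sub_cancel]
    ring
  have h5 : ((-1 : ℂ)) ^ k ≠ 0 := pow_ne_zero _ (by norm_num)
  have h6 : (n : ℂ) ≠ 0 := Nat.cast_ne_zero.2 (NeZero.ne n)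
  have e1 := h1 y hy
  have e2 := h1 y' hy'
  constructor
  · intro h
    rw [h] at e1
    have h7 : (n : ℂ) * (cnt k x y : ℂ) = n * (cnt k x y' : ℂ) := by
      linear_combination e1 - e2 + hB0
    exact_mod_cast mul_left_cancel₀ h6 h7
  · intro h
    rw [h] at e1
    have h7 : (-1 : ℂ) ^ k * ((n : ℂ) * (D n k x y : ℂ)) = (-1) ^ k * ((n : ℂ) * (D n k x y' : ℂ)) := by
      linear_combination e1 - e2 + hB0
    exact_mod_cast mul_left_cancel₀ h6 (mul_left_cancel₀ h5 h7)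

end Pool.Agent.H954.SD
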