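import Mathlib
import Pool.Agent.H954.SD.C

set_option autoImplicit false

open Finset

namespace Pool.Agent.H954.SD

open Pool.Agent.X147.Ssd

variable {n : ℕ} [NeZero n]

lemma mem_blocks {k : ℕ} {x : ZMod n} {T : Finset (ZMod n)} :
    T ∈ blocks n k x ↔ (T ⊆ (univ : Finset (ZMod n)).erase 0 ∧ T.card = k) ∧ ∑ t ∈ T, t = x := by
  unfold blocks
  rw [Finset.mem_filter, Finset.mem_powersetCard]

lemma card_star : ((univ : Finset (ZMod n)).erase 0).card = n - 1 := by
  rw [Finset.card_erase_of_mem (Finset.mem_univ _), Finset.card_univ, ZMod.card]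

lemma sum_star_eq : ∑ a ∈ (univ : Finset (ZMod n)).erase 0, a = ∑ a : ZMod n, a := by
  rw [← Finset.add_sum_erase univ _ (Finset.mem_univ (0 : ZMod n)), zero_add]

lemma nonempty_star {k : ℕ} (hk : 2 ≤ k) (hkn : k + 3 ≤ n) (x : ZMod n) :
    (blocks n k x).Nonempty := by
  have hn0 : 0 < n := by omega
  have hlarge : n ≤ k * (n - 1 - k) + 1 := by
    obtain ⟨a, rfl⟩ : ∃ a, k = a + 2 := ⟨k - 2, by omega⟩
    obtain ⟨b, rfl⟩ : ∃ b, n = a + b + 5 := ⟨n - a - 5, by omega⟩
    have : a + b + 5 - 1 - (a + 2) = b + 2 := by omega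
    rw [this]
    nlinarith [Nat.zero_le (a * b)]
  obtain ⟨t, hts, htc, ht⟩ := exists_residue (by omega : k ≤ n - 1) hn0 hlarge x.val
  have hinj : Set.InjOn (fun j : ℕ => (j : ZMod n)) (t : Set ℕ) := by
    intro i hi j hj hij
    have hi' := Finset.mem_Icc.1 (hts hi)
    have hj' := Finset.mem_Icc.1 (hts hj)
    have hij' : (i : ZMod n) = (j : ZMod n) := hij
    rw [ZMod.natCast_eq_natCast_iff] at hij'
    rcases Nat.lt_trichotomy i j with h | h | h
    · have h1 := (Nat.modEq_iff_dvd' h.le).1 hij'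
      have h2 := Nat.le_of_dvd (by omega) h1
      omega
    · exact h
    · have h1 := (Nat.modEq_iff_dvd' h.le).1 hij'.symm
      have h2 := Nat.le_of_dvd (by omega) h1
      omega
  refine ⟨t.image (fun j : ℕ => (j : ZMod n)), ?_⟩
  rw [mem_blocks]
  refine ⟨⟨?_, ?_⟩, ?_⟩
  · intro z hz
    obtain ⟨j, hj, rfl⟩ := Finset.mem_image.1 hz
    have hj' := Finset.mem_Icc.1 (hts hj)
    simp only [Finset.mem_erase, Finset.mem_univ, and_true]
    intro h0
    rw [ZMod.natCast_eq_zero_iff] at h0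
    have := Nat.le_of_dvd (by omega) h0
    omega
  · rw [Finset.card_image_of_injOn hinj, htc]
  · rw [Finset.sum_image hinj, ← Nat.cast_sum]
    have h1 := (ZMod.natCast_eq_natCast_iff _ _ n).2 ht
    rw [h1, ZMod.natCast_zmod_val]

lemma compl_mem {k : ℕ} (hk : k ≤ n - 1) {x : ZMod n} {T : Finset (ZMod n)}
    (hT : T ∈ blocks n k x) :
    ((univ : Finset (ZMod n)).erase 0) \ T ∈ blocks n (n - 1 - k) (∑ a : ZMod n, a - x) := by
  rw [mem_blocks] at hT ⊢
  obtain ⟨⟨h1, h2⟩, h3⟩ := hT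
  refine ⟨⟨Finset.sdiff_subset, ?_⟩, ?_⟩
  · rw [Finset.card_sdiff_of_subset h1, card_star, h2]
  · have h4 := Finset.sum_sdiff (f := fun a : ZMod n => a) h1
    rw [sum_star_eq, h3] at h4
    rw [← h4]
    ring

lemma compl_one {k : ℕ} (hk : k ≤ n - 1) {x : ZMod n} (h : IsOneDesign n k x) :
    IsOneDesign n (n - 1 - k) (∑ a : ZMod n, a - x) := by
  obtain ⟨⟨T, hT⟩, r, hr⟩ := h
  refine ⟨⟨_, compl_mem hk hT⟩, (blocks n k x).card - r, fun y hy => ?_⟩
  have h1 : ((blocks n (n - 1 - k) (∑ a : ZMod n, a - x)).filter (fun T => y ∈ T)).card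
      = ((blocks n k x).filter (fun T => ¬ y ∈ T)).card := by
    refine Finset.card_nbij' (fun T => ((univ : Finset (ZMod n)).erase 0) \ T)
      (fun T => ((univ : Finset (ZMod n)).erase 0) \ T) ?_ ?_ ?_ ?_
    · intro S hS
      rw [Finset.mem_coe, Finset.mem_filter] at hS ⊢
      have h2 := compl_mem (by omega) hS.1
      have h3 : n - 1 - (n - 1 - k) = k := by omega
      rw [h3, sub_sub_cancel] at h2
      refine ⟨h2, ?_⟩
      rw [Finset.mem_sdiff]
      exact fun h => h.2 hS.2
    · intro S hS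
      rw [Finset.mem_coe, Finset.mem_filter] at hS ⊢
      refine ⟨compl_mem hk hS.1, ?_⟩
      rw [Finset.mem_sdiff]
      exact ⟨by simpa using hy, hS.2⟩
    · intro S hS
      rw [Finset.mem_coe, Finset.mem_filter, mem_blocks] at hS
      exact Finset.sdiff_sdiff_eq_self hS.1.1.1
    · intro S hS
      rw [Finset.mem_coe, Finset.mem_filter, mem_blocks] at hS
      exact Finset.sdiff_sdiff_eq_self hS.1.1.1
  have h2 := Finset.card_filter_add_card_filter_not (s := blocks n k x) (fun T => y ∈ T)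
  rw [hr y hy] at h2
  rw [h1]
  omega

lemma compl_iff {k : ℕ} (hk : k ≤ n - 1) {x : ZMod n} :
    IsOneDesign n k x ↔ IsOneDesign n (n - 1 - k) (∑ a : ZMod n, a - x) := by
  refine ⟨compl_one hk, fun h => ?_⟩
  have h1 := compl_one (by omega) h
  have h3 : n - 1 - (n - 1 - k) = k := by omega
  rwa [h3, sub_sub_cancel] at h1

lemma one_not {x : ZMod n} (hn : 3 ≤ n) : ¬ IsOneDesign n 1 x := by
  rintro ⟨⟨T, hT⟩, r, hr⟩
  have hb : ∀ S, S ∈ blocks n 1 x ↔ x ≠ 0 ∧ S = {x} := by
    intro S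
    rw [mem_blocks]
    constructor
    · rintro ⟨⟨h1, h2⟩, h3⟩
      obtain ⟨a, rfl⟩ := Finset.card_eq_one.1 h2
      rw [Finset.sum_singleton] at h3
      subst h3
      have := h1 (Finset.mem_singleton_self a)
      exact ⟨by simpa using this, rfl⟩
    · rintro ⟨h1, rfl⟩
      refine ⟨⟨?_, Finset.card_singleton _⟩, Finset.sum_singleton _ _⟩
      rw [Finset.singleton_subset_iff]
      simpa using h1
  have hx := ((hb T).1 hT).1
  have h1 := hr x hx
  have h2 : (blocks n 1 x).filter (fun T => x ∈ T) = {{x}} := by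
    ext S
    rw [Finset.mem_filter, hb, Finset.mem_singleton]
    constructor
    · exact fun h => h.1.2
    · rintro rfl
      exact ⟨⟨hx, rfl⟩, Finset.mem_singleton_self _⟩
  rw [h2, Finset.card_singleton] at h1
  -- another point
  have hex : ∃ z : ZMod n, z ≠ 0 ∧ z ≠ x := by
    by_contra hcon
    push Not at hcon
    have h3 : (univ : Finset (ZMod n)) ⊆ {0, x} := by
      intro z _
      rw [Finset.mem_insert, Finset.mem_singleton]
      by_cases hz : z = 0
      · exact Or.inl hz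
      · exact Or.inr (hcon z hz)
    have h4 := Finset.card_le_card h3
    rw [Finset.card_univ, ZMod.card] at h4
    have h5 := Finset.card_le_two (a := (0 : ZMod n)) (b := x)
    omega
  obtain ⟨z, hz0, hzx⟩ := hex
  have h3 := hr z hz0
  have h4 : (blocks n 1 x).filter (fun T => z ∈ T) = ∅ := by
    ext S
    rw [Finset.mem_filter, hb]
    constructor
    · rintro ⟨⟨_, rfl⟩, h⟩
      exact absurd (Finset.mem_singleton.1 h) hzx
    · intro h
      exact absurd h (Finset.notMem_empty _)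
  rw [h4, Finset.card_empty] at h3
  omega

lemma top_iff (hn : 2 ≤ n) {x : ZMod n} : IsOneDesign n (n - 1) x ↔ x = ∑ a : ZMod n, a := by
  have hb : ∀ S, S ∈ blocks n (n - 1) x ↔ x = ∑ a : ZMod n, a ∧
      S = (univ : Finset (ZMod n)).erase 0 := by
    intro S
    rw [mem_blocks]
    constructor
    · rintro ⟨⟨h1, h2⟩, h3⟩
      have h4 : S = (univ : Finset (ZMod n)).erase 0 :=
        Finset.eq_of_subset_of_card_le h1 (by rw [card_star, h2])
      rw [h4, sum_star_eq] at h3
      exact ⟨h3.symm, h4⟩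
    · rintro ⟨h1, rfl⟩
      exact ⟨⟨subset_rfl, card_star⟩, by rw [sum_star_eq, h1]⟩
  constructor
  · rintro ⟨⟨T, hT⟩, _⟩
    exact ((hb T).1 hT).1
  · intro h
    refine ⟨⟨_, (hb _).2 ⟨h, rfl⟩⟩, 1, fun y hy => ?_⟩
    rw [Finset.card_eq_one]
    refine ⟨(univ : Finset (ZMod n)).erase 0, ?_⟩
    ext S
    rw [Finset.mem_filter, hb, Finset.mem_singleton]
    constructor
    · exact fun h => h.1.2
    · rintro rfl
      exact ⟨⟨h, rfl⟩, by simpa using hy⟩

lemma small_not {k : ℕ} (hsm : ∀ s, s ∣ n → s ≠ 1 → k < s) (hk1 : 1 ≤ k) (hk : k + 2 ≤ n)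
    {x : ZMod n} (hx : x ≠ 0) : ¬ IsOneDesign n k x := by
  rintro ⟨_, r, hr⟩
  have h1 : ∀ y : ZMod n, y ≠ 0 → 1 ≤ cnt k x y := by
    intro y hy
    have h2 : D n k x y = D n k x x := (hr y hy).trans (hr x hx).symm
    rw [small_D hsm x hy hx] at h2
    rw [h2]
    unfold cnt
    rw [Nat.one_le_iff_ne_zero, ← Nat.pos_iff_ne_zero, Finset.card_pos]
    exact ⟨1, by simp [hk1]⟩
  have h2 : n - 1 ≤ ∑ y ∈ (univ : Finset (ZMod n)).erase 0, cnt k x y := by
    calc n - 1 = ∑ y ∈ (univ : Finset (ZMod n)).erase 0, 1 := by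
          rw [Finset.sum_const, card_star, smul_eq_mul, mul_one]
      _ ≤ _ := Finset.sum_le_sum fun y hy => h1 y (Finset.ne_of_mem_erase hy)
  have h3 : ∑ y ∈ (univ : Finset (ZMod n)).erase 0, cnt k x y ≤ k := by
    have h4 : ∀ y : ZMod n, cnt k x y = ∑ j ∈ Icc 1 k, if (j : ZMod n) * y = x then 1 else 0 := by
      intro y
      unfold cnt
      rw [Finset.card_filter]
    rw [Finset.sum_congr rfl (fun y _ => h4 y), Finset.sum_comm]
    calc ∑ j ∈ Icc 1 k, ∑ y ∈ (univ : Finset (ZMod n)).erase 0, (if (j : ZMod n) * y = x then 1 else 0)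
        ≤ ∑ j ∈ Icc 1 k, 1 := by
          refine Finset.sum_le_sum fun j hj => ?_
          rw [← Finset.card_filter, Finset.card_le_one]
          intro a ha b hb
          have ha' := (Finset.mem_filter.1 ha).2
          have hb' := (Finset.mem_filter.1 hb).2
          have hj' := Finset.mem_Icc.1 hj
          have hcop : Nat.Coprime j n := by
            by_contra hcon
            have h5 := hsm (j.gcd n) (Nat.gcd_dvd_right _ _) hcon
            have h6 := Nat.le_of_dvd (by omega) (Nat.gcd_dvd_left j n)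
            omega
          have hu : IsUnit (j : ZMod n) := (ZMod.isUnit_iff_coprime j n).2 hcop
          exact hu.mul_left_cancel (ha'.trans hb'.symm)
      _ = k := by rw [Finset.sum_const, Nat.card_Icc, smul_eq_mul, mul_one, Nat.add_sub_cancel]
  omega

lemma small_iff {k : ℕ} (hsm : ∀ s, s ∣ n → s ≠ 1 → k < s) (hk1 : 1 ≤ k) (hk : k + 2 ≤ n)
    {x : ZMod n} : IsOneDesign n k x ↔ x = 0 ∧ 2 ≤ k ∧ k + 3 ≤ n := by
  constructor
  · intro h
    have hx : x = 0 := by
      by_contra hx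
      exact small_not hsm hk1 hk hx h
    refine ⟨hx, ?_, ?_⟩
    · by_contra hcon
      have : k = 1 := by omega
      subst this
      exact one_not (by omega) h
    · by_contra hcon
      have h2 : k = n - 2 := by omega
      have h3 := (compl_iff (by omega)).1 h
      have h4 : n - 1 - k = 1 := by omega
      rw [h4] at h3
      exact one_not (by omega) h3
  · rintro ⟨rfl, h2, h3⟩
    refine ⟨nonempty_star h2 h3 0, D n k 0 1, fun y hy => ?_⟩
    have h1 : (1 : ZMod n) ≠ 0 := by
      intro h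
      have h4 : ((1 : ℕ) : ZMod n) = 0 := by exact_mod_cast h
      rw [ZMod.natCast_eq_zero_iff] at h4
      have := Nat.le_of_dvd (by omega) h4
      omega
    have h5 : ∀ z : ZMod n, z ≠ 0 → cnt k 0 z = 0 := by
      intro z hz
      unfold cnt
      rw [Finset.card_eq_zero, Finset.filter_eq_empty_iff]
      intro j hj h6
      have hj' := Finset.mem_Icc.1 hj
      have h7 := (nat_mul_eq_zero_iff z j).1 h6
      have h8 : addOrderOf z ≠ 1 := by
        rw [Ne, AddMonoid.addOrderOf_eq_one_iff]; exact hz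
      have h9 := hsm _ (ord_dvd z) h8
      have h10 := Nat.le_of_dvd (by omega) h7
      omega
    exact (small_D hsm 0 hy h1).2 (by rw [h5 y hy, h5 1 h1])

/-- sufficiency -/
lemma suff {k : ℕ} (hk2 : 2 ≤ k) (hk : k + 3 ≤ n)
    (H : ∀ r : ℕ, r.Prime → r ∣ n → (n - 1) ∣ (r - 1) * k) : IsOneDesign n k 0 := by
  have hH : Hyp n k := by
    intro s
    induction s using Nat.recOnMul with
    | zero => intro h; simp
    | one => intro _; simp
    | prime p hp => intro h; rw [mul_comm]; exact H p hp h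
    | mul a b iha ihb =>
      intro h
      have ha := iha (dvd_trans (Dvd.intro b rfl) h)
      have hb := ihb (dvd_trans (Dvd.intro_left a rfl) h)
      rcases Nat.eq_zero_or_pos a with h0 | h0
      · simp [h0]
      rcases Nat.eq_zero_or_pos b with h0' | h0'
      · simp [h0']
      have h1 : k * (a * b - 1) = a * (k * (b - 1)) + k * (a - 1) := by
        obtain ⟨a', rfl⟩ : ∃ a', a = a' + 1 := ⟨a - 1, by omega⟩
        obtain ⟨b', rfl⟩ : ∃ b', b = b' + 1 := ⟨b - 1, by omega⟩
        have e3 : (a' + 1) * (b' + 1) - 1 = a' * b' + a' + b' := by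
          have : (a' + 1) * (b' + 1) = a' * b' + a' + b' + 1 := by ring
          omega
        rw [e3, Nat.add_sub_cancel, Nat.add_sub_cancel]
        ring
      rw [h1]
      exact dvd_add (hb.mul_left _) ha
  have h1 : (1 : ZMod n) ≠ 0 := by
    intro h
    have h4 : ((1 : ℕ) : ZMod n) = 0 := by exact_mod_cast h
    rw [ZMod.natCast_eq_zero_iff] at h4
    have := Nat.le_of_dvd (by omega) h4
    omega
  exact ⟨nonempty_star hk2 hk 0, D n k 0 1, fun y hy => D_const (by omega) (by omega) hH hy h1⟩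

/-- `k` small or large -/
lemma edge_iff {k : ℕ} (hk1 : 1 ≤ k) (hk : k + 2 ≤ n)
    (hp : k < n.minFac ∨ n - 1 - k < n.minFac) {x : ZMod n} :
    IsOneDesign n k x ↔ x = 0 ∧ 2 ≤ k ∧ k + 3 ≤ n := by
  have hsm : ∀ l : ℕ, l < n.minFac → ∀ s, s ∣ n → s ≠ 1 → l < s := by
    intro l hl s hs hs1
    have hs0 : 0 < s := Nat.pos_of_dvd_of_pos hs (by omega)
    exact lt_of_lt_of_le hl (Nat.minFac_le_of_dvd (by omega) hs)
  rcases hp with h | h
  · exact small_iff (hsm k h) hk1 hk
  · rw [compl_iff (by omega), small_iff (hsm _ h) (by omega) (by omega)]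
    rcases Nat.even_or_odd n with he | ho
    · have h2 : n.minFac = 2 := (Nat.minFac_eq_two_iff n).2 he.two_dvd
      rw [h2] at h
      constructor
      · rintro ⟨_, h3, _⟩; omega
      · rintro ⟨_, _, h3⟩; omega
    · have h3 : ∑ a : ZMod n, a = 0 := by
        rw [Pool.Agent.X147.Ssd.sum_univ, ZMod.natCast_eq_zero_iff]
        obtain ⟨m, hm⟩ := ho
        rw [hm]
        have : (2 * m + 1) * (2 * m + 1 - 1) / 2 = (2 * m + 1) * m := by
          rw [Nat.add_sub_cancel]
          rw [show (2 * m + 1) * (2 * m) = 2 * ((2 * m + 1) * m) by ring]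
          exact Nat.mul_div_cancel_left _ (by norm_num)
        rw [this]
        exact Dvd.intro m rfl
      rw [h3, zero_sub, neg_eq_zero]
      constructor
      · rintro ⟨a, b, c⟩; exact ⟨a, by omega, by omega⟩
      · rintro ⟨a, b, c⟩; exact ⟨a, by omega, by omega⟩

end Pool.Agent.H954.SD
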