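import Mathlib
import Pool.Agent.H954.SD.D

set_option autoImplicit false

open Finset

namespace Pool.Agent.H954.SD

open Pool.Agent.X147.Ssd

variable {n : ℕ} [NeZero n]

lemma B_sum (v : ZMod n) {y : ZMod n} (hy : y ≠ 0) (k : ℕ) :
    B v y k = - ∑ i ∈ range k, ee n (v * y) ^ (i + 1) * A v (k - 1 - i) := by
  induction k with
  | zero => simp [B_zero]
  | succ k ih =>
    rw [B_rec v hy, ih, Finset.sum_range_succ']
    have h1 : ∀ i ∈ range k, ee n (v * y) ^ (i + 1 + 1) * A v (k + 1 - 1 - (i + 1))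
        = ee n (v * y) * (ee n (v * y) ^ (i + 1) * A v (k - 1 - i)) := by
      intro i hi
      have : k + 1 - 1 - (i + 1) = k - 1 - i := by omega
      rw [this]
      ring
    rw [Finset.sum_congr rfl h1, ← Finset.mul_sum]
    simp only [Nat.add_sub_cancel, Nat.sub_zero, zero_add, pow_one]
    ring

/-- the Fourier coefficients of the number of blocks through a point, up to an affine map -/
noncomputable def F (k : ℕ) (x u : ZMod n) : ℂ :=
  ∑ i ∈ range k, ∑ v ∈ (univ : Finset (ZMod n)).filter (fun v => ((i + 1 : ℕ) : ZMod n) * v = u),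
    ee n (-(v * x)) * A v (k - 1 - i)

lemma F_const {k : ℕ} {x : ZMod n} (h : IsOneDesign n k x) {u u' : ZMod n} (hu : u ≠ 0)
    (hu' : u' ≠ 0) : F k x u = F k x u' := by
  obtain ⟨_, r, hr⟩ := h
  have hr' : ∀ y : ZMod n, y ≠ 0 → D n k x y = r := hr
  have hn0 : (n : ℂ) ≠ 0 := Nat.cast_ne_zero.2 (NeZero.ne n)
  have key : ∀ w : ZMod n, w ≠ 0 → (n : ℂ) * F k x w
      = (-1) ^ k * ((n : ℂ) * r) + ∑ v : ZMod n, ee n (-(v * x)) *
        ∑ i ∈ range k, A v (k - 1 - i) := by
    intro w hw
    -- the full sum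
    have h1 : ∑ y : ZMod n, (∑ v : ZMod n, ee n (-(v * x)) *
        ∑ i ∈ range k, ee n (v * y) ^ (i + 1) * A v (k - 1 - i)) * ee n (-(w * y))
        = (n : ℂ) * F k x w := by
      have h2 : ∀ y : ZMod n, (∑ v : ZMod n, ee n (-(v * x)) *
          ∑ i ∈ range k, ee n (v * y) ^ (i + 1) * A v (k - 1 - i)) * ee n (-(w * y))
          = ∑ i ∈ range k, ∑ v : ZMod n, ee n (-(v * x)) * A v (k - 1 - i) *
            ee n (y * (((i + 1 : ℕ) : ZMod n) * v - w)) := by
        intro y
        rw [Finset.sum_mul, Finset.sum_comm]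
        refine Finset.sum_congr rfl fun v _ => ?_
        rw [Finset.mul_sum, Finset.sum_mul]
        refine Finset.sum_congr rfl fun i _ => ?_
        have h3 : ee n (y * (((i + 1 : ℕ) : ZMod n) * v - w))
            = ee n (v * y) ^ (i + 1) * ee n (-(w * y)) := by
          rw [← ee_nat, ← AddChar.map_add_eq_mul]
          congr 1
          ring
        rw [h3]
        ring
      rw [Finset.sum_congr rfl (fun y _ => h2 y), Finset.sum_comm]
      unfold F
      rw [Finset.mul_sum]
      refine Finset.sum_congr rfl fun i _ => ?_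
      rw [Finset.sum_comm, Finset.mul_sum, Finset.sum_filter]
      refine Finset.sum_congr rfl fun v _ => ?_
      rw [← Finset.mul_sum, AddChar.sum_mulShift _ (ZMod.isPrimitive_stdAddChar n), ZMod.card]
      simp only [sub_eq_zero]
      split_ifs <;> push_cast <;> ring
    rw [← h1, ← Finset.add_sum_erase univ _ (Finset.mem_univ (0 : ZMod n))]
    have h4 : ∀ y ∈ (univ : Finset (ZMod n)).erase 0, (∑ v : ZMod n, ee n (-(v * x)) *
        ∑ i ∈ range k, ee n (v * y) ^ (i + 1) * A v (k - 1 - i)) * ee n (-(w * y))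
        = - ((-1) ^ k * ((n : ℂ) * r)) * ee n (y * (-w)) := by
      intro y hy
      have hy0 := Finset.ne_of_mem_erase hy
      have h5 := fourier k x y
      rw [hr' y hy0] at h5
      rw [h5, Finset.mul_sum, ← Finset.sum_neg_distrib]
      congr 1
      · refine Finset.sum_congr rfl fun v _ => ?_
        have h6 := B_sum v hy0 k
        unfold B at h6
        linear_combination (ee n (-(v * x))) * h6
      · congr 1
        ring
    rw [Finset.sum_congr rfl h4, ← Finset.mul_sum]
    have h7 : ∑ y ∈ (univ : Finset (ZMod n)).erase 0, ee n (y * (-w)) = -1 := by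
      have h8 := AddChar.sum_mulShift (-w) (ZMod.isPrimitive_stdAddChar n)
      rw [← Finset.add_sum_erase univ _ (Finset.mem_univ (0 : ZMod n)), zero_mul,
        AddChar.map_zero_eq_one, if_neg (neg_ne_zero.2 hw)] at h8
      push_cast at h8
      linear_combination h8
    rw [h7]
    simp only [mul_zero, neg_zero, AddChar.map_zero_eq_one, mul_one, one_pow, one_mul, mul_neg,
      neg_neg]
    rw [add_comm]
  exact mul_left_cancel₀ hn0 ((key u hu).trans (key u' hu').symm)

/-- the sum of the characters of order `s` -/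
noncomputable def cs (x : ZMod n) (s : ℕ) : ℂ := ∑ v ∈ ord n s, ee n (-(v * x))

/-- the value of `A` at order `s`, an integer -/
def a (n s m : ℕ) : ℤ := (-1) ^ (m / s) * ((n / s - 1).choose (m / s) : ℤ)

lemma A_a {s m : ℕ} {v : ZMod n} (hv : v ∈ ord n s) : A v m = (a n s m : ℂ) := by
  unfold A a
  rw [(Finset.mem_filter.1 hv).2]
  push_cast
  ring

def S (n k s d : ℕ) : ℤ :=
  ∑ i ∈ (range k).filter (fun i => s / s.gcd (i + 1) = d), a n s (k - 1 - i)

lemma avg {k : ℕ} {x : ZMod n} (h : IsOneDesign n k x) {u : ZMod n} (hu : u ≠ 0) {d : ℕ}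
    (hd : d ∣ n) (hd1 : d ≠ 1) :
    (d.totient : ℂ) * F k x u = ∑ s ∈ n.divisors, cs x s * (S n k s d : ℂ) := by
  have h1 : ∑ w ∈ ord n d, F k x w = (d.totient : ℂ) * F k x u := by
    rw [← card_ord hd, ← nsmul_eq_mul, ← Finset.sum_const]
    refine Finset.sum_congr rfl fun w hw => ?_
    refine F_const h ?_ hu
    intro h0
    have := (Finset.mem_filter.1 hw).2
    rw [h0, addOrderOf_zero] at this
    exact hd1 this.symm
  rw [← h1]
  unfold F
  rw [Finset.sum_comm]
  have h2 : ∀ i ∈ range k, ∑ w ∈ ord n d,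
      ∑ v ∈ (univ : Finset (ZMod n)).filter (fun v => ((i + 1 : ℕ) : ZMod n) * v = w),
        ee n (-(v * x)) * A v (k - 1 - i)
      = ∑ s ∈ n.divisors, if s / s.gcd (i + 1) = d then cs x s * (a n s (k - 1 - i) : ℂ) else 0 := by
    intro i _
    have h3 : ∑ w ∈ ord n d,
        ∑ v ∈ (univ : Finset (ZMod n)).filter (fun v => ((i + 1 : ℕ) : ZMod n) * v = w),
          ee n (-(v * x)) * A v (k - 1 - i)
        = ∑ v : ZMod n, if addOrderOf (((i + 1 : ℕ) : ZMod n) * v) = d then
            ee n (-(v * x)) * A v (k - 1 - i) else 0 := by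
      have h4 : ∀ w ∈ ord n d,
          ∑ v ∈ (univ : Finset (ZMod n)).filter (fun v => ((i + 1 : ℕ) : ZMod n) * v = w),
            ee n (-(v * x)) * A v (k - 1 - i)
          = ∑ v : ZMod n, if ((i + 1 : ℕ) : ZMod n) * v = w then
            ee n (-(v * x)) * A v (k - 1 - i) else 0 := by
        intro w _
        rw [Finset.sum_filter]
      rw [Finset.sum_congr rfl h4, Finset.sum_comm]
      refine Finset.sum_congr rfl fun v _ => ?_
      rw [Finset.sum_ite_eq]
      unfold ord
      simp only [Finset.mem_filter, Finset.mem_univ, true_and]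
    rw [h3, all_partition]
    refine Finset.sum_congr rfl fun s hs => ?_
    have h5 : ∀ v ∈ ord n s, (if addOrderOf (((i + 1 : ℕ) : ZMod n) * v) = d then
            ee n (-(v * x)) * A v (k - 1 - i) else 0)
          = if s / s.gcd (i + 1) = d then ee n (-(v * x)) * (a n s (k - 1 - i) : ℂ) else 0 := by
      intro v hv
      have hvs := (Finset.mem_filter.1 hv).2
      have h6 : addOrderOf (((i + 1 : ℕ) : ZMod n) * v) = s / s.gcd (i + 1) := by
        rw [← nsmul_eq_mul, addOrderOf_nsmul, hvs]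
      rw [h6, A_a hv]
    rw [Finset.sum_congr rfl h5]
    by_cases hc : s / s.gcd (i + 1) = d
    · simp only [if_pos hc]
      unfold cs
      rw [Finset.sum_mul]
    · simp only [if_neg hc, Finset.sum_const_zero]
  rw [Finset.sum_congr rfl h2, Finset.sum_comm]
  refine Finset.sum_congr rfl fun s _ => ?_
  rw [← Finset.sum_filter]
  unfold S
  push_cast
  rw [Finset.mul_sum]

lemma cs_zero {s : ℕ} (hs : s ∣ n) : cs (0 : ZMod n) s = s.totient := by
  unfold cs
  simp only [mul_zero, neg_zero, AddChar.map_zero_eq_one, Finset.sum_const, nsmul_eq_mul, mul_one]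
  rw [card_ord hs]

omit [NeZero n] in
lemma S_eq_zero {k s d : ℕ} (h : ¬ d ∣ s) : S n k s d = 0 := by
  unfold S
  rw [Finset.filter_false_of_mem, Finset.sum_empty]
  intro i _ hi
  apply h
  rw [← hi]
  exact Nat.div_dvd_of_dvd (Nat.gcd_dvd_left _ _)

/-- all the conditions for `x = 0`: `K` is the common value -/
lemma cond_zero {k : ℕ} (hn : 2 ≤ n) (h : IsOneDesign n k 0) :
    ∃ K : ℤ, ∀ d, d ∣ n → d ≠ 1 →
      (d.totient : ℤ) * K = ∑ s ∈ n.divisors, (s.totient : ℤ) * S n k s d := by
  have h1 : (1 : ZMod n) ≠ 0 := by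
    intro h
    have h4 : ((1 : ℕ) : ZMod n) = 0 := by exact_mod_cast h
    rw [ZMod.natCast_eq_zero_iff] at h4
    have := Nat.le_of_dvd (by omega) h4
    omega
  have h2 : ∀ d, d ∣ n → d ≠ 1 → (d.totient : ℂ) * F k (0 : ZMod n) 1
      = ((∑ s ∈ n.divisors, (s.totient : ℤ) * S n k s d : ℤ) : ℂ) := by
    intro d hd hd1
    rw [avg h h1 hd hd1]
    push_cast
    refine Finset.sum_congr rfl fun s hs => ?_
    rw [cs_zero (Nat.mem_divisors.1 hs).1]
  have h3 : F k (0 : ZMod n) 1 = ((S n k n n : ℤ) : ℂ) := by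
    have h4 := h2 n dvd_rfl (by omega)
    have h5 : ∑ s ∈ n.divisors, (s.totient : ℤ) * S n k s n = (n.totient : ℤ) * S n k n n := by
      refine Finset.sum_eq_single_of_mem n (Nat.mem_divisors.2 ⟨dvd_rfl, by omega⟩) ?_
      intro s hs hsn
      rw [S_eq_zero, mul_zero]
      intro h6
      exact hsn (Nat.dvd_antisymm (Nat.mem_divisors.1 hs).1 h6)
    rw [h5] at h4
    push_cast at h4
    have h7 : (n.totient : ℂ) ≠ 0 := Nat.cast_ne_zero.2 (Nat.totient_pos.2 npos).ne'
    exact mul_left_cancel₀ h7 h4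
  refine ⟨S n k n n, fun d hd hd1 => ?_⟩
  have h4 := h2 d hd hd1
  rw [h3] at h4
  exact_mod_cast h4

end Pool.Agent.H954.SD
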