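import Mathlib
import Pool.Agent.H954.SD.E

set_option autoImplicit false

open Finset

namespace Pool.Agent.H954.SD

lemma blk0 (p a0 : ℕ) (h : a0 < p) (g : ℕ → ℤ) (q : ℕ) :
    ∑ t ∈ range (p * q), (if t % p ≠ a0 then g (t / p) else 0)
      = ((p : ℤ) - 1) * ∑ b ∈ range q, g b := by
  induction q with
  | zero => simp
  | succ q ih =>
    rw [Nat.mul_succ, Finset.sum_range_add, ih, Finset.sum_range_succ, mul_add]
    congr 1
    have h1 : ∀ c ∈ range p, (if (p * q + c) % p ≠ a0 then g ((p * q + c) / p) else 0)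
        = g q - (if c = a0 then g q else 0) := by
      intro c hc
      have hc' := Finset.mem_range.1 hc
      rw [Nat.mul_add_mod, Nat.mod_eq_of_lt hc', Nat.mul_add_div (by omega),
        Nat.div_eq_of_lt hc', add_zero]
      by_cases h2 : c = a0
      · rw [if_neg (by simpa using h2), if_pos h2, sub_self]
      · rw [if_pos h2, if_neg h2, sub_zero]
    rw [Finset.sum_congr rfl h1, Finset.sum_sub_distrib, Finset.sum_const, Finset.card_range,
      Finset.sum_ite_eq' (range p) a0, if_pos (Finset.mem_range.2 h), nsmul_eq_mul]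
    ring

lemma blk (p a0 : ℕ) (h : a0 < p) (g : ℕ → ℤ) (q : ℕ) :
    ∑ t ∈ range (p * q + a0), (if t % p ≠ a0 then g (t / p) else 0)
      = ((p : ℤ) - 1) * ∑ b ∈ range q, g b + a0 * g q := by
  rw [Finset.sum_range_add, blk0 p a0 h]
  congr 1
  have h1 : ∀ c ∈ range a0, (if (p * q + c) % p ≠ a0 then g ((p * q + c) / p) else 0) = g q := by
    intro c hc
    have hc' := Finset.mem_range.1 hc
    rw [Nat.mul_add_mod, Nat.mod_eq_of_lt (by omega), Nat.mul_add_div (by omega),
      Nat.div_eq_of_lt (by omega), add_zero, if_pos (by omega)]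
  rw [Finset.sum_congr rfl h1, Finset.sum_const, Finset.card_range, nsmul_eq_mul]

lemma alt (M q : ℕ) : (M : ℤ) * ∑ b ∈ range q, (-1) ^ b * (M.choose b : ℤ)
    = - ((-1) ^ q * q * (M.choose q : ℤ)) := by
  induction q with
  | zero => simp
  | succ q ih =>
    rw [Finset.sum_range_succ, mul_add, ih]
    have h3 : (M.choose (q + 1) : ℤ) * ((q : ℤ) + 1) = (M.choose q : ℤ) * ((M : ℤ) - q) := by
      rcases Nat.lt_or_ge M q with h | h
      · rw [Nat.choose_eq_zero_of_lt h, Nat.choose_eq_zero_of_lt (by omega)]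
        simp
      · have := Nat.choose_succ_right_eq M q
        rw [← Nat.cast_sub h]
        exact_mod_cast this
    rw [pow_succ]
    push_cast
    linear_combination (-(-1 : ℤ) ^ q) * h3

/-- the sum `S` at `s = p m`, `d = p` -/
lemma S_block {n k p m N : ℕ} (hp : p.Prime) (hn : n = p * N) (hm : m ∣ N) (hN : 0 < N) :
    S n k (p * m) p
      = ((p : ℤ) - 1) * ∑ b ∈ range (k / m / p), (-1) ^ b * ((N / m - 1).choose b : ℤ)
        + ((k / m % p : ℕ) : ℤ) * ((-1) ^ (k / m / p) * ((N / m - 1).choose (k / m / p) : ℤ)) := by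
  have hm0 : 0 < m := Nat.pos_of_dvd_of_pos hm hN
  have hp0 : 0 < p := hp.pos
  have hns : n / (p * m) = N / m := by
    rw [hn, Nat.mul_div_mul_left _ _ hp0]
  rw [← blk p (k / m % p) (Nat.mod_lt _ hp0) (fun b => (-1) ^ b * ((N / m - 1).choose b : ℤ)),
    Nat.div_add_mod, ← Finset.sum_filter]
  unfold S
  have hgcd : ∀ j : ℕ, 0 < j → (p * m / (p * m).gcd j = p ↔ m ∣ j ∧ ¬ p ∣ j / m) := by
    intro j hj
    have hg0 : 0 < (p * m).gcd j := Nat.gcd_pos_of_pos_right _ hj
    have hgd := Nat.gcd_dvd_left (p * m) j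
    constructor
    · intro h
      have h1 : (p * m).gcd j = m := by
        have h2 : (p * m).gcd j * p = p * m := by
          have h9 := Nat.mul_div_cancel' hgd
          rw [h] at h9
          exact h9
        have h3 : p * (p * m).gcd j = p * m := by rw [mul_comm]; exact h2
        exact Nat.eq_of_mul_eq_mul_left hp0 h3
      have h4 : m ∣ j := by rw [← h1]; exact Nat.gcd_dvd_right _ _
      refine ⟨h4, fun h5 => ?_⟩
      obtain ⟨t, rfl⟩ := h4
      rw [Nat.mul_div_cancel_left _ hm0] at h5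
      have h6 : p * m ∣ (p * m).gcd (m * t) := by
        refine Nat.dvd_gcd dvd_rfl ?_
        rw [mul_comm p m]
        exact Nat.mul_dvd_mul_left _ h5
      rw [h1] at h6
      have h7 := Nat.le_of_dvd hm0 h6
      have h8 := hp.two_le
      nlinarith
    · rintro ⟨⟨t, rfl⟩, h2⟩
      rw [Nat.mul_div_cancel_left _ hm0] at h2
      have h3 : (p * m).gcd (m * t) = m := by
        rw [mul_comm p m, Nat.gcd_mul_left, (Nat.Prime.coprime_iff_not_dvd hp).2 h2, mul_one]
      rw [h3, Nat.mul_div_cancel _ hm0]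
  refine Finset.sum_nbij' (fun i => k / m - (i + 1) / m) (fun t => m * (k / m - t) - 1) ?_ ?_ ?_ ?_ ?_
  · intro i hi
    rw [Finset.mem_filter, Finset.mem_range] at hi ⊢
    obtain ⟨h1, h2⟩ := (hgcd (i + 1) (by omega)).1 hi.2
    obtain ⟨t, ht⟩ := h1
    rw [ht, Nat.mul_div_cancel_left _ hm0] at h2 ⊢
    have ht0 : 0 < t := by
      rcases Nat.eq_zero_or_pos t with h | h
      · rw [h, mul_zero] at ht; omega
      · exact h
    have htk : t ≤ k / m := by
      rw [Nat.le_div_iff_mul_le hm0, mul_comm, ← ht]; omega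
    refine ⟨by omega, fun h3 => h2 ?_⟩
    have h4 : (k / m - t) ≡ k / m [MOD p] := h3
    have h5 := (Nat.modEq_iff_dvd' (by omega)).1 h4
    have h6 : k / m - (k / m - t) = t := by omega
    rwa [h6] at h5
  · intro t ht
    rw [Finset.mem_filter, Finset.mem_range] at ht ⊢
    obtain ⟨h1, h2⟩ := ht
    have h3 : 0 < k / m - t := by omega
    have h4 : 0 < m * (k / m - t) := Nat.mul_pos hm0 h3
    have h5 : m * (k / m - t) ≤ k := by
      calc m * (k / m - t) ≤ m * (k / m) := Nat.mul_le_mul_left _ (by omega)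
        _ ≤ k := Nat.mul_div_le k m
    refine ⟨by omega, ?_⟩
    have h6 : m * (k / m - t) - 1 + 1 = m * (k / m - t) := by omega
    rw [h6]
    refine (hgcd _ h4).2 ⟨Dvd.intro _ rfl, ?_⟩
    rw [Nat.mul_div_cancel_left _ hm0]
    intro h7
    apply h2
    have h8 : t ≡ k / m [MOD p] := (Nat.modEq_iff_dvd' (by omega)).2 h7
    exact h8
  · intro i hi
    rw [Finset.mem_filter, Finset.mem_range] at hi
    obtain ⟨h1, h2⟩ := (hgcd (i + 1) (by omega)).1 hi.2
    obtain ⟨t, ht⟩ := h1
    have htk : t ≤ k / m := by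
      rw [Nat.le_div_iff_mul_le hm0, mul_comm, ← ht]; omega
    rw [ht, Nat.mul_div_cancel_left _ hm0]
    have h6 : k / m - (k / m - t) = t := by omega
    rw [h6, ← ht]
    omega
  · intro t ht
    rw [Finset.mem_filter, Finset.mem_range] at ht
    have h3 : 0 < k / m - t := by omega
    have h4 : 0 < m * (k / m - t) := Nat.mul_pos hm0 h3
    have h6 : m * (k / m - t) - 1 + 1 = m * (k / m - t) := by omega
    rw [h6, Nat.mul_div_cancel_left _ hm0]
    omega
  · intro i hi
    rw [Finset.mem_filter, Finset.mem_range] at hi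
    obtain ⟨h1, h2⟩ := (hgcd (i + 1) (by omega)).1 hi.2
    obtain ⟨t, ht⟩ := h1
    unfold a
    rw [hns]
    have h7 : (k - 1 - i) / (p * m) = (k / m - (i + 1) / m) / p := by
      have h8 : k - 1 - i = k - m * t := by omega
      rw [h8, mul_comm p m, ← Nat.div_div_eq_div_mul, Nat.sub_mul_div, ht,
        Nat.mul_div_cancel_left _ hm0]
    rw [h7]

lemma S_formula {n k p m N : ℕ} (hp : p.Prime) (hn : n = p * N) (hm : m ∣ N) (hN : 0 < N) :
    ((N / m - 1 : ℕ) : ℤ) * S n k (p * m) p
      = (-1) ^ (k / m / p) * ((N / m - 1).choose (k / m / p) : ℤ) *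
        (((N / m - 1 : ℕ) : ℤ) * ((k / m % p : ℕ) : ℤ) - ((p : ℤ) - 1) * ((k / m / p : ℕ) : ℤ)) := by
  rw [S_block hp hn hm hN]
  have h := alt (N / m - 1) (k / m / p)
  linear_combination ((p : ℤ) - 1) * h

lemma S_bound {n k p m N : ℕ} (hp : p.Prime) (hn : n = p * N) (hm : m ∣ N) (hN : 0 < N)
    (hk : k < n) : |S n k (p * m) p| ≤ ((p : ℤ) - 1) * ((N / m - 1).choose (k / m / p) : ℤ) := by
  have hm0 : 0 < m := Nat.pos_of_dvd_of_pos hm hN
  have hp0 : 0 < p := hp.pos
  have hp1 : (1 : ℤ) ≤ p := by exact_mod_cast hp0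
  have ha : ((k / m % p : ℕ) : ℤ) ≤ (p : ℤ) - 1 := by
    have := Nat.mod_lt (k / m) hp0
    have h2 : ((k / m % p : ℕ) : ℤ) < (p : ℤ) := by exact_mod_cast this
    omega
  have ha0 : (0 : ℤ) ≤ ((k / m % p : ℕ) : ℤ) := Int.natCast_nonneg _
  rcases Nat.eq_zero_or_pos (N / m - 1) with hM | hM
  · -- `m = N`
    have hmN : N / m = 1 := by
      have : 0 < N / m := Nat.div_pos (Nat.le_of_dvd hN hm) hm0
      omega
    have hmN' : m = N := by
      obtain ⟨c, hc⟩ := hm
      rw [hc, Nat.mul_div_cancel_left _ hm0] at hmN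
      rw [hc, hmN, mul_one]
    have hq : k / m / p = 0 := by
      rw [Nat.div_div_eq_div_mul, hmN', mul_comm, ← hn]
      exact Nat.div_eq_of_lt hk
    rw [S_block hp hn hm hN, hM, hq]
    simp only [Finset.range_zero, Finset.sum_empty, mul_zero, zero_add, pow_zero,
      Nat.choose_self, Nat.cast_one, mul_one]
    rw [abs_of_nonneg ha0]
    exact ha
  · have h := S_formula (k := k) hp hn hm hN
    set M := N / m - 1 with hMdef
    set q := k / m / p with hq
    rcases Nat.lt_or_ge M q with h1 | h1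
    · rw [Nat.choose_eq_zero_of_lt h1] at h ⊢
      have hM' : (M : ℤ) ≠ 0 := by exact_mod_cast hM.ne'
      have h2 : S n k (p * m) p = 0 := by
        have : (M : ℤ) * S n k (p * m) p = (M : ℤ) * 0 := by rw [h]; push_cast; ring
        exact mul_left_cancel₀ hM' this
      rw [h2]; simp
    · have hM' : (0 : ℤ) < M := by exact_mod_cast hM
      have h2 : |(M : ℤ) * ((k / m % p : ℕ) : ℤ) - ((p : ℤ) - 1) * (q : ℤ)|
          ≤ (M : ℤ) * ((p : ℤ) - 1) := by
        have h3 : (q : ℤ) ≤ M := by exact_mod_cast h1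
        have h4 : (0 : ℤ) ≤ q := Int.natCast_nonneg _
        rw [abs_le]
        constructor
        · nlinarith
        · nlinarith
      have h5 : (M : ℤ) * |S n k (p * m) p|
          ≤ (M : ℤ) * (((p : ℤ) - 1) * (M.choose q : ℤ)) := by
        have h6 : (M : ℤ) * |S n k (p * m) p| = |(M : ℤ) * S n k (p * m) p| := by
          rw [abs_mul, abs_of_pos hM']
        rw [h6, h, abs_mul, abs_mul, abs_pow, abs_neg, abs_one, one_pow, one_mul,
          abs_of_nonneg (Int.natCast_nonneg (M.choose q))]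
        have h7 : (0 : ℤ) ≤ (M.choose q : ℤ) := Int.natCast_nonneg _
        nlinarith
      exact le_of_mul_le_mul_left h5 hM'

/-- `S n k n n` -/
lemma S_top {n k : ℕ} (hk : k ≤ n) : 0 ≤ S n k n n ∧ S n k n n ≤ k := by
  have h1 : S n k n n = (((range k).filter (fun i => n / n.gcd (i + 1) = n)).card : ℤ) := by
    unfold S
    rw [Finset.card_eq_sum_ones]
    push_cast
    refine Finset.sum_congr rfl fun i hi => ?_
    have hi' := Finset.mem_range.1 (Finset.mem_filter.1 hi).1
    unfold a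
    rw [Nat.div_self (by omega), Nat.div_eq_of_lt (by omega)]
    simp
  rw [h1]
  refine ⟨Int.natCast_nonneg _, ?_⟩
  have := Finset.card_filter_le (range k) (fun i => n / n.gcd (i + 1) = n)
  rw [Finset.card_range] at this
  exact_mod_cast this

end Pool.Agent.H954.SD
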