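import Mathlib
import Pool.Agent.H954.SD.G

set_option autoImplicit false

open Finset

namespace Pool.Agent.H954.SD

variable {n : ℕ} [NeZero n]

lemma cond {k : ℕ} (hn : 2 ≤ n) (h : IsOneDesign n k 0) {d : ℕ} (hd : d ∣ n) (hd1 : d ≠ 1) :
    (d.totient : ℤ) * S n k n n = ∑ s ∈ n.divisors, (s.totient : ℤ) * S n k s d := by
  obtain ⟨K, hK⟩ := cond_zero hn h
  have h4 := hK n dvd_rfl (by omega)
  have h5 : ∑ s ∈ n.divisors, (s.totient : ℤ) * S n k s n = (n.totient : ℤ) * S n k n n := by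
    refine Finset.sum_eq_single_of_mem n (Nat.mem_divisors.2 ⟨dvd_rfl, by omega⟩) ?_
    intro s hs hsn
    rw [S_eq_zero, mul_zero]
    intro h6
    exact hsn (Nat.dvd_antisymm (Nat.mem_divisors.1 hs).1 h6)
  rw [h5] at h4
  have h7 : (n.totient : ℤ) ≠ 0 := by exact_mod_cast (Nat.totient_pos.2 npos).ne'
  rw [← mul_left_cancel₀ h7 h4]
  exact hK d hd hd1

lemma regionA {k p N : ℕ} (h : IsOneDesign n k 0) (hp : p.Prime) (hn : n = p * N)
    (hpk : p ≤ k) (hkN : k < N) : False := by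
  have hp2 := hp.two_le
  have hN0 : 0 < N := by omega
  have hNn : N ≠ n := by rw [hn]; nlinarith
  have hn2 : 2 ≤ n := by rw [hn]; nlinarith
  have hNd : N ∣ n := Dvd.intro_left p hn.symm
  have hc := cond hn2 h hNd (by omega)
  have h1 : ∑ s ∈ n.divisors, (s.totient : ℤ) * S n k s N
      = (N.totient : ℤ) * S n k N N + (n.totient : ℤ) * S n k n N := by
    have hsub : ({N, n} : Finset ℕ) ⊆ n.divisors := by
      intro s hs
      rw [Finset.mem_insert, Finset.mem_singleton] at hs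
      rw [Nat.mem_divisors]
      rcases hs with rfl | rfl
      · exact ⟨hNd, by omega⟩
      · exact ⟨dvd_rfl, by omega⟩
    rw [← Finset.sum_subset hsub, Finset.sum_pair hNn]
    intro s hs hs'
    rw [S_eq_zero, mul_zero]
    rintro ⟨t, rfl⟩
    apply hs'
    rw [Finset.mem_insert, Finset.mem_singleton]
    have h2 := (Nat.mem_divisors.1 hs).1
    have h3 : N * t ∣ N * p := by rw [mul_comm N p, ← hn]; exact h2
    have h4 := Nat.dvd_of_mul_dvd_mul_left hN0 h3
    rcases (Nat.dvd_prime hp).1 h4 with rfl | rfl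
    · left; rw [mul_one]
    · right; rw [hn, mul_comm]
  rw [h1] at hc
  -- values
  have hNN : S n k N N = (((range k).filter (fun i => N / N.gcd (i + 1) = N)).card : ℤ) := by
    unfold S
    rw [Finset.card_eq_sum_ones]
    push_cast
    refine Finset.sum_congr rfl fun i hi => ?_
    have hi' := Finset.mem_range.1 (Finset.mem_filter.1 hi).1
    unfold a
    rw [Nat.div_eq_of_lt (by omega : k - 1 - i < N)]
    simp
  have hkn : k < n := lt_trans hkN (by rw [hn]; nlinarith)
  have hnall : ∀ d, S n k n d = (((range k).filter (fun i => n / n.gcd (i + 1) = d)).card : ℤ) := by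
    intro d
    unfold S
    rw [Finset.card_eq_sum_ones]
    push_cast
    refine Finset.sum_congr rfl fun i hi => ?_
    have hi' := Finset.mem_range.1 (Finset.mem_filter.1 hi).1
    unfold a
    rw [Nat.div_eq_of_lt (by omega : k - 1 - i < n)]
    simp
  have hle : S n k n n ≤ S n k N N := by
    rw [hnall, hNN]
    have : (range k).filter (fun i => n / n.gcd (i + 1) = n) ⊆
        (range k).filter (fun i => N / N.gcd (i + 1) = N) := by
      intro i hi
      rw [Finset.mem_filter] at hi ⊢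
      refine ⟨hi.1, ?_⟩
      have h2 : n.gcd (i + 1) = 1 := by
        have h3 := Nat.div_mul_cancel (Nat.gcd_dvd_left n (i + 1))
        rw [hi.2] at h3
        have h4 : n * n.gcd (i + 1) = n * 1 := by rw [h3, mul_one]
        exact Nat.eq_of_mul_eq_mul_left (by omega) h4
      have h5 : N.gcd (i + 1) = 1 := by
        have h6 : N.gcd (i + 1) ∣ n.gcd (i + 1) := Nat.gcd_dvd_gcd_of_dvd_left _ hNd
        rw [h2] at h6
        exact Nat.dvd_one.1 h6
      rw [h5, Nat.div_one]
    exact_mod_cast Finset.card_le_card this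
  have hpos : 1 ≤ S n k n N := by
    rw [hnall]
    have : p - 1 ∈ (range k).filter (fun i => n / n.gcd (i + 1) = N) := by
      rw [Finset.mem_filter, Finset.mem_range]
      refine ⟨by omega, ?_⟩
      have h2 : p - 1 + 1 = p := by omega
      rw [h2, hn, Nat.gcd_comm, Nat.gcd_mul_right_right, Nat.mul_div_cancel_left _ hp.pos]
    have h3 : 0 < ((range k).filter (fun i => n / n.gcd (i + 1) = N)).card :=
      Finset.card_pos.2 ⟨_, this⟩
    exact_mod_cast h3
  have hφN : (0 : ℤ) < N.totient := by exact_mod_cast Nat.totient_pos.2 hN0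
  have hφn : (0 : ℤ) < n.totient := by exact_mod_cast Nat.totient_pos.2 npos
  nlinarith

/-- the condition at the prime `p` -/
lemma condp {k p N : ℕ} (h : IsOneDesign n k 0) (hp : p.Prime) (hn : n = p * N) (hN : 0 < N) :
    ((p : ℤ) - 1) * S n k n n
      = ∑ m ∈ N.divisors, ((p * m).totient : ℤ) * S n k (p * m) p := by
  have hp2 := hp.two_le
  have hn2 : 2 ≤ n := by rw [hn]; nlinarith
  have hc := cond hn2 h (Dvd.intro N hn.symm) (by omega : p ≠ 1)
  rw [Nat.totient_prime hp] at hc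
  push_cast [Nat.cast_sub (by omega : 1 ≤ p)] at hc
  rw [hc]
  symm
  have hinj : Set.InjOn (fun m => p * m) (N.divisors : Set ℕ) := by
    intro x _ y _ hxy
    exact Nat.eq_of_mul_eq_mul_left hp.pos hxy
  rw [← Finset.sum_image (f := fun s => (s.totient : ℤ) * S n k s p) hinj]
  refine Finset.sum_subset ?_ ?_
  · intro s hs
    obtain ⟨m, hm, rfl⟩ := Finset.mem_image.1 hs
    rw [Nat.mem_divisors] at hm ⊢
    refine ⟨?_, by omega⟩
    rw [hn]
    exact Nat.mul_dvd_mul_left _ hm.1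
  · intro s hs hs'
    rw [S_eq_zero, mul_zero]
    rintro ⟨m, rfl⟩
    apply hs'
    rw [Finset.mem_image]
    refine ⟨m, ?_, rfl⟩
    rw [Nat.mem_divisors] at hs ⊢
    refine ⟨?_, by omega⟩
    have h2 := hs.1
    rw [hn] at h2
    exact Nat.dvd_of_mul_dvd_mul_left hp.pos h2

omit [NeZero n] in
lemma dvd_of_X {k p N : ℕ} (hp : p.Prime) (hn : n = p * N) (hN : 0 < N)
    (hX : ((N - 1 : ℕ) : ℤ) * ((k % p : ℕ) : ℤ) - ((p : ℤ) - 1) * ((k / p : ℕ) : ℤ) = 0) :
    n - 1 ∣ (p - 1) * k := by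
  have hp2 := hp.two_le
  refine ⟨k % p, ?_⟩
  have h1 := Nat.div_add_mod k p
  zify [show 1 ≤ p by omega, show 1 ≤ n by rw [hn]; nlinarith]
  have h2 : (k : ℤ) = p * ((k / p : ℕ) : ℤ) + ((k % p : ℕ) : ℤ) := by exact_mod_cast h1.symm
  have h3 : (n : ℤ) = p * N := by exact_mod_cast hn
  push_cast [Nat.cast_sub (show 1 ≤ N by omega)] at hX h2 ⊢
  rw [h3]
  linear_combination ((p : ℤ) - 1) * h2 - (p : ℤ) * hX

/-- the main inequality gives the divisibility -/
lemma main_dvd {k p N : ℕ} (h : IsOneDesign n k 0) (hp : p.Prime) (hn : n = p * N) (hN : 2 ≤ N)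
    (hk : k < n)
    (hI : (N - 1) * p * (k / p + 1 + ∑ m ∈ N.divisors.erase 1, m * (N / m - 1).choose (k / p / m))
      ≤ (N - 1).choose (k / p)) :
    n - 1 ∣ (p - 1) * k := by
  have hp2 := hp.two_le
  by_contra hcon
  have hX : ((N - 1 : ℕ) : ℤ) * ((k % p : ℕ) : ℤ) - ((p : ℤ) - 1) * ((k / p : ℕ) : ℤ) ≠ 0 :=
    fun h0 => hcon (dvd_of_X hp hn (by omega) h0)
  have h1 := condp h hp hn (by omega)
  have h1mem : (1 : ℕ) ∈ N.divisors := Nat.mem_divisors.2 ⟨one_dvd _, by omega⟩
  rw [← Finset.add_sum_erase _ _ h1mem, mul_one, Nat.totient_prime hp] at h1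
  set Sg := ∑ m ∈ N.divisors.erase 1, m * (N / m - 1).choose (k / p / m) with hSg
  set G1 := S n k p p with hG1
  set K := S n k n n with hK
  obtain ⟨hK0, hKk⟩ := S_top (n := n) hk.le
  have hp1 : (0 : ℤ) < (p : ℤ) - 1 := by
    have : (2 : ℤ) ≤ p := by exact_mod_cast hp2
    omega
  have hrest : |∑ m ∈ N.divisors.erase 1, ((p * m).totient : ℤ) * S n k (p * m) p|
      ≤ ((p : ℤ) - 1) * ((p : ℤ) * (Sg : ℤ)) := by
    refine (Finset.abs_sum_le_sum_abs _ _).trans ?_
    rw [hSg]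
    push_cast
    rw [Finset.mul_sum, Finset.mul_sum]
    refine Finset.sum_le_sum fun m hm => ?_
    have hmN := (Nat.mem_divisors.1 (Finset.mem_of_mem_erase hm)).1
    have hb := S_bound (k := k) hp hn hmN (by omega) hk
    have e1 : k / m / p = k / p / m := by
      rw [Nat.div_div_eq_div_mul, Nat.div_div_eq_div_mul, mul_comm]
    rw [e1] at hb
    rw [abs_mul, abs_of_nonneg (Int.natCast_nonneg _)]
    have hφ : ((p * m).totient : ℤ) ≤ (p : ℤ) * m := by
      have := Nat.totient_le (p * m)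
      exact_mod_cast this
    have hc0 : (0 : ℤ) ≤ ((N / m - 1).choose (k / p / m) : ℤ) := Int.natCast_nonneg _
    calc ((p * m).totient : ℤ) * |S n k (p * m) p|
        ≤ ((p : ℤ) * m) * (((p : ℤ) - 1) * ((N / m - 1).choose (k / p / m) : ℤ)) := by
          refine mul_le_mul hφ hb (abs_nonneg _) (by positivity)
      _ = _ := by ring
  have h2 : ((p : ℤ) - 1) * (K - G1) = ∑ m ∈ N.divisors.erase 1,
      ((p * m).totient : ℤ) * S n k (p * m) p := by
    push_cast [Nat.cast_sub (by omega : 1 ≤ p)] at h1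
    linear_combination h1
  have h3 : |K - G1| ≤ (p : ℤ) * (Sg : ℤ) := by
    rw [← h2, abs_mul, abs_of_pos hp1] at hrest
    exact le_of_mul_le_mul_left hrest hp1
  have h4 : |G1| ≤ (k : ℤ) + (p : ℤ) * (Sg : ℤ) := by
    have h5 : |G1| ≤ |K| + |K - G1| := by
      have : G1 = K - (K - G1) := by ring
      calc |G1| = |K - (K - G1)| := by rw [← this]
        _ ≤ |K| + |K - G1| := abs_sub _ _
    rw [abs_of_nonneg hK0] at h5
    linarith
  have h6 := S_formula (k := k) hp hn (one_dvd N) (by omega)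
  rw [mul_one, Nat.div_one, Nat.div_one, ← hG1] at h6
  have hM : (0 : ℤ) < ((N - 1 : ℕ) : ℤ) := by
    have : 0 < N - 1 := by omega
    exact_mod_cast this
  have h7 : (((N - 1).choose (k / p) : ℕ) : ℤ) ≤ ((N - 1 : ℕ) : ℤ) * |G1| := by
    have h8 : ((N - 1 : ℕ) : ℤ) * |G1| = |((N - 1 : ℕ) : ℤ) * G1| := by
      rw [abs_mul, abs_of_pos hM]
    rw [h8, h6, abs_mul, abs_mul, abs_pow, abs_neg, abs_one, one_pow, one_mul,
      abs_of_nonneg (Int.natCast_nonneg ((N - 1).choose (k / p)))]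
    have h9 := Int.one_le_abs hX
    have h10 : (0 : ℤ) ≤ (((N - 1).choose (k / p) : ℕ) : ℤ) := Int.natCast_nonneg _
    nlinarith
  have h8 : (k : ℤ) < (p : ℤ) * (((k / p : ℕ) : ℤ) + 1) := by
    have := Nat.lt_mul_div_succ k hp.pos
    exact_mod_cast this
  have h9 : ((N - 1 : ℕ) : ℤ) * (p : ℤ) * (((k / p : ℕ) : ℤ) + 1 + (Sg : ℤ))
      ≤ (((N - 1).choose (k / p) : ℕ) : ℤ) := by exact_mod_cast hI
  nlinarith

end Pool.Agent.H954.SD
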