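import Mathlib

set_option autoImplicit false

open Finset

namespace Pool.Agent.H954.SD

def chF (n : ℕ) : ℕ → ℕ
  | 0 => 1
  | k + 1 => chF n k * (n - k) / (k + 1)

lemma chF_eq (n k : ℕ) : chF n k = n.choose k := by
  induction k with
  | zero => rw [chF, Nat.choose_zero_right]
  | succ k ih =>
    rw [chF, ih, ← Nat.choose_succ_right_eq, Nat.mul_div_cancel _ (Nat.succ_pos k)]

def sF (N q : ℕ) : ℕ → ℕ
  | 0 => 0
  | m + 1 => sF N q m + (if N % (m + 1) = 0 ∧ 1 ≤ m then (m + 1) * chF (N / (m + 1) - 1) (q / (m + 1)) else 0)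

lemma sF_eq (N q l : ℕ) : sF N q l = ∑ m ∈ (Icc 2 l).filter (fun m => m ∣ N),
    m * (N / m - 1).choose (q / m) := by
  induction l with
  | zero => rfl
  | succ l ih =>
    rw [sF, ih, Finset.sum_filter, Finset.sum_filter]
    rcases Nat.eq_zero_or_pos l with h | h
    · subst h
      simp
    · rw [Finset.sum_Icc_succ_top (by omega : 2 ≤ l + 1)]
      congr 1
      rw [chF_eq]
      by_cases h2 : l + 1 ∣ N
      · rw [if_pos h2, if_pos ⟨Nat.mod_eq_zero_of_dvd h2, h⟩]
      · rw [if_neg h2, if_neg]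
        rintro ⟨h3, _⟩
        exact h2 (Nat.dvd_of_mod_eq_zero h3)

lemma sum_div_eq {N : ℕ} (hN : 0 < N) (q : ℕ) :
    ∑ m ∈ N.divisors.erase 1, m * (N / m - 1).choose (q / m) = sF N q N := by
  rw [sF_eq]
  refine Finset.sum_congr ?_ fun _ _ => rfl
  ext m
  rw [Finset.mem_erase, Nat.mem_divisors, Finset.mem_filter, Finset.mem_Icc]
  constructor
  · rintro ⟨h1, h2, h3⟩
    have h4 := Nat.le_of_dvd hN h2
    have h5 := Nat.pos_of_dvd_of_pos h2 hN
    exact ⟨⟨by omega, h4⟩, h2⟩
  · rintro ⟨⟨h1, h2⟩, h3⟩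
    exact ⟨by omega, h3, by omega⟩

/-- large binomial coefficients -/
lemma big {A B N : ℕ} (hB : 10 ≤ B) (hAB : B ≤ A) (ht : N + 3 ≤ 6 * (A - B)) (hN : 225 ≤ N) :
    N ^ 4 ≤ 15 * A.choose B := by
  obtain ⟨t, rfl⟩ : ∃ t, A = B + t := ⟨A - B, by omega⟩
  rw [Nat.add_sub_cancel_left] at ht
  have h1 : (t + 10).choose 10 ≤ (B + t).choose B := by
    have e1 : (t + 10).choose 10 = (t + 10).choose t := by
      rw [← Nat.choose_symm_add]
    have e2 : (B + t).choose B = (B + t).choose t := Nat.choose_symm_add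
    rw [e1, e2]
    exact Nat.choose_le_choose t (by omega)
  have h2 : (t + 1) ^ 10 ≤ 3628800 * (t + 10).choose 10 := by
    have h3 := Nat.pow_le_choose (α := ℚ) 10 (t + 10)
    have h4 : t + 10 + 1 - 10 = t + 1 := by omega
    rw [h4] at h3
    have h5 : (Nat.factorial 10 : ℚ) = 3628800 := by norm_num [Nat.factorial]
    rw [h5, div_le_iff₀ (by norm_num), mul_comm] at h3
    exact_mod_cast h3
  have ht2 : 38 ≤ t := by omega
  have h3 : N ≤ 6 * (t + 1) := by omega
  have h4 : N ^ 4 ≤ (6 * (t + 1)) ^ 4 := Nat.pow_le_pow_left h3 4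
  have h5 : 27 ^ 6 ≤ (t + 1) ^ 6 := Nat.pow_le_pow_left (by omega) 6
  have h6 : (t + 1) ^ 10 = (t + 1) ^ 6 * (t + 1) ^ 4 := by ring
  have h7 : (6 * (t + 1)) ^ 4 = 1296 * (t + 1) ^ 4 := by ring
  have h8 : 387420489 * (t + 1) ^ 4 ≤ (t + 1) ^ 10 := by
    rw [h6]
    have : (387420489 : ℕ) = 27 ^ 6 := by norm_num
    rw [this]
    exact Nat.mul_le_mul_right _ h5
  omega

lemma vander (a b c d : ℕ) : a.choose c * b.choose d ≤ (a + b).choose (c + d) := by
  rw [Nat.add_choose_eq]
  exact Finset.single_le_sum (f := fun ij : ℕ × ℕ => a.choose ij.1 * b.choose ij.2)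
    (fun _ _ => Nat.zero_le _)
    (Finset.HasAntidiagonal.mem_antidiagonal.2 rfl :
      (c, d) ∈ Finset.HasAntidiagonal.antidiagonal (c + d))

lemma ineq_large {N f q : ℕ} (hN : 225 ≤ N) (hodd : N % 2 = 1) (hf : f ∣ N) (hff : f * f ≤ N)
    (hf0 : 0 < f) (hq : N / f ≤ q) (hq2 : 2 * q < N) :
    (N - 1) * f * (q + 1 + ∑ m ∈ N.divisors.erase 1, m * (N / m - 1).choose (q / m))
      ≤ (N - 1).choose q := by
  obtain ⟨g, hg⟩ := hf
  have hNf : N / f = g := by rw [hg]; exact Nat.mul_div_cancel_left _ hf0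
  rw [hNf] at hq
  have hfg : f ≤ g := by
    by_contra hcon
    have : f * g < f * f := Nat.mul_lt_mul_of_pos_left (by omega) hf0
    omega
  have hg15 : 15 ≤ g := by
    by_contra hcon
    have h1 : f * g ≤ 14 * 14 := Nat.mul_le_mul (by omega) (by omega)
    omega
  have hf15 : 15 * f ≤ N := by
    rw [hg, mul_comm]
    exact Nat.mul_le_mul_left _ hg15
  have hN0 : 0 < N := by omega
  set C := (N - 1).choose q with hC
  -- each term
  have hterm : ∀ m ∈ N.divisors.erase 1,
      N * ((N - 1) * f * (m * (N / m - 1).choose (q / m))) ≤ C := by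
    intro m hm
    have hm1 : m ≠ 1 := Finset.ne_of_mem_erase hm
    have hmN := (Nat.mem_divisors.1 (Finset.mem_of_mem_erase hm)).1
    obtain ⟨c, hc⟩ := hmN
    have hm0 : 0 < m := by
      rcases Nat.eq_zero_or_pos m with h | h
      · rw [h, zero_mul] at hc; omega
      · exact h
    have hc0 : 0 < c := by
      rcases Nat.eq_zero_or_pos c with h | h
      · rw [h, mul_zero] at hc; omega
      · exact h
    have hm3 : 3 ≤ m := by
      have h2 : m ≠ 2 := by
        rintro rfl
        omega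
      omega
    have hNm : N / m = c := by rw [hc]; exact Nat.mul_div_cancel_left _ hm0
    rw [hNm]
    have h3c : 3 * c ≤ N := by
      rw [hc]
      exact Nat.mul_le_mul_right _ hm3
    have hb : q / m ≤ q / 3 := Nat.div_le_div_left hm3 (by norm_num)
    generalize q / m = b at hb ⊢
    have hv := vander (c - 1) (N - c) b (q - b)
    have e1 : c - 1 + (N - c) = N - 1 := by omega
    have e2 : b + (q - b) = q := by omega
    rw [e1, e2] at hv
    have hbig := big (A := N - c) (B := q - b) (N := N) (by omega) (by omega) (by omega) hN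
    have hmle : m ≤ N := Nat.le_of_dvd hN0 ⟨c, hc⟩
    have h4 : 15 * (N * ((N - 1) * f * m)) ≤ N ^ 4 := by
      calc 15 * (N * ((N - 1) * f * m)) = N * (N - 1) * m * (15 * f) := by ring
        _ ≤ N * N * N * N := by
          refine Nat.mul_le_mul (Nat.mul_le_mul (Nat.mul_le_mul le_rfl (by omega)) hmle) hf15
        _ = N ^ 4 := by ring
    have h5 : N * ((N - 1) * f * m) ≤ (N - c).choose (q - b) := by omega
    calc N * ((N - 1) * f * (m * (c - 1).choose b))
        = (c - 1).choose b * (N * ((N - 1) * f * m)) := by ring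
      _ ≤ (c - 1).choose b * (N - c).choose (q - b) := Nat.mul_le_mul_left _ h5
      _ ≤ C := hv
  have hfirst : N * ((N - 1) * f * (q + 1)) ≤ C := by
    have hbig := big (A := N - 1) (B := q) (N := N) (by omega) (by omega) (by omega) hN
    have h4 : 15 * (N * ((N - 1) * f * (q + 1))) ≤ N ^ 4 := by
      calc 15 * (N * ((N - 1) * f * (q + 1))) = N * (N - 1) * (q + 1) * (15 * f) := by ring
        _ ≤ N * N * N * N := by
          refine Nat.mul_le_mul (Nat.mul_le_mul (Nat.mul_le_mul le_rfl (by omega)) (by omega)) hf15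
        _ = N ^ 4 := by ring
    omega
  have hsum : ∑ m ∈ N.divisors.erase 1, N * ((N - 1) * f * (m * (N / m - 1).choose (q / m)))
      ≤ (N - 1) * C := by
    refine (Finset.sum_le_card_nsmul _ _ C hterm).trans ?_
    rw [smul_eq_mul]
    refine Nat.mul_le_mul_right _ ?_
    have h1 : (1 : ℕ) ∈ N.divisors := Nat.mem_divisors.2 ⟨one_dvd _, by omega⟩
    rw [Finset.card_erase_of_mem h1]
    have := Nat.card_divisors_le_self N
    omega
  have htot : N * ((N - 1) * f * (q + 1 + ∑ m ∈ N.divisors.erase 1,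
      m * (N / m - 1).choose (q / m))) ≤ N * C := by
    calc N * ((N - 1) * f * (q + 1 + ∑ m ∈ N.divisors.erase 1, m * (N / m - 1).choose (q / m)))
        = N * ((N - 1) * f * (q + 1)) + ∑ m ∈ N.divisors.erase 1,
          N * ((N - 1) * f * (m * (N / m - 1).choose (q / m))) := by
          rw [← Finset.mul_sum, ← Finset.mul_sum]
          ring
      _ ≤ C + (N - 1) * C := Nat.add_le_add hfirst hsum
      _ = N * C := by
          obtain ⟨N', hN'⟩ : ∃ N', N = N' + 1 := ⟨N - 1, by omega⟩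
          rw [hN', Nat.add_sub_cancel]
          ring
  exact Nat.le_of_mul_le_mul_left htot hN0

end Pool.Agent.H954.SD
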