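import Mathlib
import Pool.Agent.H954.SD.I

set_option autoImplicit false

open Finset

namespace Pool.Agent.H954.SD

/-- one check -/
def chk (N f q : ℕ) : Bool :=
  decide ((N - 1) * f * (q + 1 + sF N q N) ≤ chF (N - 1) q)

/-- all `q < 2 q < N` with `N / f ≤ q` -/
def chkq (N f : ℕ) : ℕ → Bool
  | 0 => true
  | q + 1 => chkq N f q && (decide (q < N / f) || decide (N ≤ 2 * q) || chk N f q)

lemma chkq_spec {N f : ℕ} : ∀ {l : ℕ}, chkq N f l = true → ∀ q, q < l → N / f ≤ q → 2 * q < N →
    chk N f q = true := by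
  intro l
  induction l with
  | zero => intro _ q hq; omega
  | succ l ih =>
    intro h q hq h1 h2
    rw [chkq, Bool.and_eq_true] at h
    rcases Nat.lt_or_ge q l with h3 | h3
    · exact ih h.1 q h3 h1 h2
    · have h4 : q = l := by omega
      subst h4
      have h5 := h.2
      rw [Bool.or_eq_true, Bool.or_eq_true, decide_eq_true_eq, decide_eq_true_eq] at h5
      rcases h5 with (h5 | h5) | h5
      · omega
      · omega
      · exact h5

def chkf (N : ℕ) : ℕ → Bool
  | 0 => true
  | f + 1 => chkf N f && (decide (f < 3) || decide (N % f ≠ 0) || decide (N < f * f) ||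
      chkq N f (N / 2 + 1))

lemma chkf_spec {N : ℕ} : ∀ {l : ℕ}, chkf N l = true → ∀ f, f < l → 3 ≤ f → N % f = 0 →
    f * f ≤ N → chkq N f (N / 2 + 1) = true := by
  intro l
  induction l with
  | zero => intro _ q hq; omega
  | succ l ih =>
    intro h f hf h1 h2 h3
    rw [chkf, Bool.and_eq_true] at h
    rcases Nat.lt_or_ge f l with h4 | h4
    · exact ih h.1 f h4 h1 h2 h3
    · have h5 : f = l := by omega
      subst h5
      have h6 := h.2
      rw [Bool.or_eq_true, Bool.or_eq_true, Bool.or_eq_true, decide_eq_true_eq,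
        decide_eq_true_eq, decide_eq_true_eq] at h6
      rcases h6 with ((h6 | h6) | h6) | h6
      · omega
      · exact absurd h2 h6
      · omega
      · exact h6

/-- all odd `N = 2 l + 1` with `15 ≤ N` -/
def chkN : ℕ → Bool
  | 0 => true
  | l + 1 => chkN l && (decide (l < 7) || chkf (2 * l + 1) 15)

lemma chkN_spec : ∀ {l : ℕ}, chkN l = true → ∀ j, j < l → 7 ≤ j → chkf (2 * j + 1) 15 = true := by
  intro l
  induction l with
  | zero => intro _ q hq; omega
  | succ l ih =>
    intro h j hj h1
    rw [chkN, Bool.and_eq_true] at h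
    rcases Nat.lt_or_ge j l with h4 | h4
    · exact ih h.1 j h4 h1
    · have h5 : j = l := by omega
      subst h5
      have h6 := h.2
      rw [Bool.or_eq_true, decide_eq_true_eq] at h6
      rcases h6 with h6 | h6
      · omega
      · exact h6

lemma chk_all : chkN 112 = true := by decide +kernel

lemma ineq {N f q : ℕ} (hN : 15 ≤ N) (hodd : N % 2 = 1) (hf : f ∣ N) (hff : f * f ≤ N)
    (hf3 : 3 ≤ f) (hq : N / f ≤ q) (hq2 : 2 * q < N) :
    (N - 1) * f * (q + 1 + ∑ m ∈ N.divisors.erase 1, m * (N / m - 1).choose (q / m))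
      ≤ (N - 1).choose q := by
  rcases Nat.lt_or_ge N 225 with h | h
  · obtain ⟨j, hj⟩ : ∃ j, N = 2 * j + 1 := ⟨N / 2, by omega⟩
    have hf15 : f < 15 := by
      by_contra hcon
      have : 15 * 15 ≤ f * f := Nat.mul_le_mul (by omega) (by omega)
      omega
    have h1 := chkN_spec chk_all j (by omega) (by omega)
    rw [← hj] at h1
    have h2 := chkf_spec h1 f hf15 hf3 (Nat.mod_eq_zero_of_dvd hf) hff
    have h3 := chkq_spec h2 q (by omega) hq hq2
    unfold chk at h3
    rw [decide_eq_true_eq, chF_eq] at h3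
    rw [sum_div_eq (by omega)]
    exact h3
  · exact ineq_large h hodd hf hff (by omega) hq hq2

end Pool.Agent.H954.SD
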