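import Mathlib
import Pool.Agent.H954.SD.H
import Pool.Agent.H954.SD.J

set_option autoImplicit false

open Finset

namespace Pool.Agent.H954.SD

lemma K_card {n k : ℕ} (hk : k ≤ n) :
    S n k n n = (((Ioc 0 k).filter (fun j => n.gcd j = 1)).card : ℤ) := by
  have h1 : S n k n n = (((range k).filter (fun i => n / n.gcd (i + 1) = n)).card : ℤ) := by
    unfold S
    rw [Finset.card_eq_sum_ones]
    push_cast
    refine Finset.sum_congr rfl fun i hi => ?_
    have hi' := Finset.mem_range.1 (Finset.mem_filter.1 hi).1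
    unfold a
    rw [Nat.div_self (by omega), Nat.div_eq_of_lt (by omega)]
    simp
  rw [h1]
  congr 1
  refine Finset.card_nbij' (fun i => i + 1) (fun j => j - 1) ?_ ?_ ?_ ?_
  · intro i hi
    rw [Finset.mem_coe, Finset.mem_filter, Finset.mem_range] at hi
    rw [Finset.mem_coe, Finset.mem_filter, Finset.mem_Ioc]
    beta_reduce
    refine ⟨⟨by omega, by omega⟩, ?_⟩
    have h3 := Nat.div_mul_cancel (Nat.gcd_dvd_left n (i + 1))
    rw [hi.2] at h3
    have h4 : n * n.gcd (i + 1) = n * 1 := by rw [h3, mul_one]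
    exact Nat.eq_of_mul_eq_mul_left (by omega) h4
  · intro j hj
    rw [Finset.mem_coe, Finset.mem_filter, Finset.mem_Ioc] at hj
    rw [Finset.mem_coe, Finset.mem_filter, Finset.mem_range]
    beta_reduce
    refine ⟨by omega, ?_⟩
    have : j - 1 + 1 = j := by omega
    rw [this, hj.2, Nat.div_one]
  · intro i _
    rfl
  · intro j hj
    rw [Finset.mem_coe, Finset.mem_filter, Finset.mem_Ioc] at hj
    show j - 1 + 1 = j
    omega

lemma K_pp {p k : ℕ} (hp : p.Prime) (hk : k < p * p) :
    S (p * p) k (p * p) (p * p) = (k : ℤ) - ((k / p : ℕ) : ℤ) := by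
  rw [K_card hk.le]
  have h1 := Finset.card_filter_add_card_filter_not (s := Ioc 0 k) (fun j => p ∣ j)
  rw [Nat.Ioc_filter_dvd_card_eq_div, Nat.card_Ioc] at h1
  have h2 : (Ioc 0 k).filter (fun j => (p * p).gcd j = 1) = (Ioc 0 k).filter (fun j => ¬ p ∣ j) := by
    refine Finset.filter_congr fun j _ => ?_
    constructor
    · intro h h3
      have : p ∣ (p * p).gcd j := Nat.dvd_gcd (Dvd.intro _ rfl) h3
      rw [h] at this
      exact hp.one_lt.ne' (Nat.dvd_one.1 this)
    · intro h
      have := (Nat.Prime.coprime_iff_not_dvd hp).2 h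
      exact Nat.Coprime.mul_left this this
  rw [h2]
  have h3 : ((k / p : ℕ) : ℤ) + (((Ioc 0 k).filter (fun j => ¬ p ∣ j)).card : ℤ) = k := by
    have : k / p + ((Ioc 0 k).filter (fun j => ¬ p ∣ j)).card = k := by omega
    exact_mod_cast this
  linarith

lemma K_pq {p r k : ℕ} (hp : p.Prime) (hr : r.Prime) (hpr : p ≠ r) (hk : k < p * r) :
    S (p * r) k (p * r) (p * r) = (k : ℤ) - ((k / p : ℕ) : ℤ) - ((k / r : ℕ) : ℤ) := by
  rw [K_card hk.le]
  have hcop : Nat.Coprime p r := (Nat.coprime_primes hp hr).2 hpr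
  have h1 := Finset.card_filter_add_card_filter_not (s := Ioc 0 k) (fun j => p ∣ j ∨ r ∣ j)
  rw [Nat.card_Ioc, Finset.filter_or] at h1
  have hdis : Disjoint ((Ioc 0 k).filter (fun j => p ∣ j)) ((Ioc 0 k).filter (fun j => r ∣ j)) := by
    rw [Finset.disjoint_left]
    intro j hj hj'
    rw [Finset.mem_filter, Finset.mem_Ioc] at hj hj'
    have h3 := hcop.mul_dvd_of_dvd_of_dvd hj.2 hj'.2
    have h4 := Nat.le_of_dvd (by omega) h3
    omega
  rw [Finset.card_union_of_disjoint hdis, Nat.Ioc_filter_dvd_card_eq_div,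
    Nat.Ioc_filter_dvd_card_eq_div] at h1
  have h2 : (Ioc 0 k).filter (fun j => (p * r).gcd j = 1)
      = (Ioc 0 k).filter (fun j => ¬ (p ∣ j ∨ r ∣ j)) := by
    refine Finset.filter_congr fun j _ => ?_
    constructor
    · rintro h (h3 | h3)
      · have : p ∣ (p * r).gcd j := Nat.dvd_gcd (Dvd.intro _ rfl) h3
        rw [h] at this
        exact hp.one_lt.ne' (Nat.dvd_one.1 this)
      · have : r ∣ (p * r).gcd j := Nat.dvd_gcd (Dvd.intro_left _ rfl) h3
        rw [h] at this
        exact hr.one_lt.ne' (Nat.dvd_one.1 this)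
    · intro h
      push Not at h
      exact Nat.Coprime.mul_left ((Nat.Prime.coprime_iff_not_dvd hp).2 h.1)
        ((Nat.Prime.coprime_iff_not_dvd hr).2 h.2)
  rw [h2]
  have h3 : ((k / p : ℕ) : ℤ) + ((k / r : ℕ) : ℤ) +
      (((Ioc 0 k).filter (fun j => ¬ (p ∣ j ∨ r ∣ j))).card : ℤ) = k := by
    have : k / p + k / r + ((Ioc 0 k).filter (fun j => ¬ (p ∣ j ∨ r ∣ j))).card = k := by omega
    exact_mod_cast this
  linarith

/-- `N` prime: the value of `S n k p p` -/
lemma G_prime {n k p r : ℕ} [NeZero n] (h : IsOneDesign n k 0) (hp : p.Prime) (hr : r.Prime)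
    (hn : n = p * r) (hk : k < n) :
    S n k p p = ((k % r : ℕ) : ℤ) - ((k / p : ℕ) : ℤ) := by
  have h1 := condp h hp hn hr.pos
  have hdiv : r.divisors = {1, r} := hr.divisors
  rw [hdiv, Finset.sum_pair hr.one_lt.ne, mul_one, Nat.totient_prime hp] at h1
  have h2 := S_block (k := k) hp hn (dvd_refl r) hr.pos
  have hq : k / r / p = 0 := by
    rw [Nat.div_div_eq_div_mul, mul_comm, ← hn]
    exact Nat.div_eq_of_lt hk
  have hm : k / r % p = k / r := by
    apply Nat.mod_eq_of_lt
    rw [Nat.div_lt_iff_lt_mul hr.pos, ← hn]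
    exact hk
  rw [hq, hm, Nat.div_self hr.pos] at h2
  simp only [Finset.range_zero, Finset.sum_empty, mul_zero, zero_add, pow_zero, Nat.sub_self,
    Nat.choose_self, Nat.cast_one, mul_one] at h2
  rw [h2] at h1
  have hp1 : (p : ℤ) - 1 ≠ 0 := by
    have : (2 : ℤ) ≤ p := by exact_mod_cast hp.two_le
    omega
  have hmod := Nat.div_add_mod k r
  have hmod' : (k : ℤ) = r * ((k / r : ℕ) : ℤ) + ((k % r : ℕ) : ℤ) := by exact_mod_cast hmod.symm
  push_cast [Nat.cast_sub (by have := hp.two_le; omega : 1 ≤ p)] at h1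
  by_cases hpr : p = r
  · subst hpr
    have h3 : S n k n n = (k : ℤ) - ((k / p : ℕ) : ℤ) := by rw [hn]; exact K_pp hp (by rw [← hn]; exact hk)
    have h4 : ((p * p).totient : ℤ) = p * ((p : ℤ) - 1) := by
      rw [Nat.totient_mul_of_prime_of_dvd hp dvd_rfl, Nat.totient_prime hp]
      push_cast [Nat.cast_sub (by have := hp.two_le; omega : 1 ≤ p)]
      ring
    rw [h3, h4] at h1
    push_cast at hmod' h1 ⊢
    apply mul_left_cancel₀ hp1
    linear_combination (-1 : ℤ) * h1 + ((p : ℤ) - 1) * hmod'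
  · have h3 : S n k n n = (k : ℤ) - ((k / p : ℕ) : ℤ) - ((k / r : ℕ) : ℤ) := by
      rw [hn]; exact K_pq hp hr hpr (by rw [← hn]; exact hk)
    have h4 : ((p * r).totient : ℤ) = ((p : ℤ) - 1) * ((r : ℤ) - 1) := by
      rw [Nat.totient_mul ((Nat.coprime_primes hp hr).2 hpr), Nat.totient_prime hp,
        Nat.totient_prime hr]
      push_cast [Nat.cast_sub (by have := hp.two_le; omega : 1 ≤ p),
        Nat.cast_sub (by have := hr.two_le; omega : 1 ≤ r)]
      ring
    rw [h3, h4] at h1
    push_cast at hmod' h1 ⊢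
    apply mul_left_cancel₀ hp1
    linear_combination (-1 : ℤ) * h1 + ((p : ℤ) - 1) * hmod'

lemma choose_three_le {M q : ℕ} (h3 : 3 ≤ q) (hq : 2 * q ≤ M) : M.choose 3 ≤ M.choose q := by
  induction q, h3 using Nat.le_induction with
  | base => exact le_rfl
  | succ q h3 ih =>
    exact (ih (by omega)).trans (Nat.choose_le_succ_of_lt_half_left (by omega))

/-- `n = p r` with `p ≤ r` primes: the residue of `k` modulo `r` is the quotient by `p` -/
lemma prime_case {n k p r : ℕ} [NeZero n] (h : IsOneDesign n k 0) (hp : p.Prime) (hr : r.Prime)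
    (hn : n = p * r) (hodd : n % 2 = 1) (hpr : p ≤ r) (hrk : r ≤ k) (h2k : 2 * k < n) :
    k % r = k / p := by
  have hk : k < n := by omega
  have hG := G_prime h hp hr hn hk
  have hF := S_formula (k := k) hp hn (one_dvd r) hr.pos
  rw [mul_one, Nat.div_one, Nat.div_one, hG] at hF
  have hp2 := hp.two_le
  have hr2 := hr.two_le
  have hpo : p % 2 = 1 := by
    rcases Nat.mod_two_eq_zero_or_one p with h0 | h0
    · rw [hn, Nat.mul_mod, h0] at hodd; simp at hodd
    · exact h0
  have hro : r % 2 = 1 := by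
    rcases Nat.mod_two_eq_zero_or_one r with h0 | h0
    · rw [hn, Nat.mul_mod, h0] at hodd; simp at hodd
    · exact h0
  set q := k / p with hq
  set Rr := k % r with hRr
  have hRlt : Rr < r := Nat.mod_lt _ hr.pos
  have hq1 : 1 ≤ q := by
    rw [hq, Nat.one_le_div_iff hp.pos]; omega
  have hq2 : 2 * q < r := by
    by_contra hcon
    have h3 : p * r ≤ p * (2 * q) := Nat.mul_le_mul_left _ (by omega)
    have h4 : p * q ≤ k := Nat.mul_div_le k p
    rw [← hn] at h3
    have h5 : p * (2 * q) = 2 * (p * q) := by ring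
    omega
  have hkdm := Nat.div_add_mod k p
  have halt := Nat.mod_lt k hp.pos
  rcases Nat.lt_or_ge p r with hlt | hge
  · -- `p < r`
    set X : ℤ := ((r - 1 : ℕ) : ℤ) * ((k % p : ℕ) : ℤ) - ((p : ℤ) - 1) * ((q : ℕ) : ℤ) with hXdef
    by_cases hX : X = 0
    · rw [hX, mul_zero] at hF
      have hr1 : ((r - 1 : ℕ) : ℤ) ≠ 0 := by
        have : r - 1 ≠ 0 := by omega
        exact_mod_cast this
      rcases mul_eq_zero.1 hF with h0 | h0
      · exact absurd h0 hr1
      · have : (Rr : ℤ) = (q : ℤ) := by linarith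
        exact_mod_cast this
    · exfalso
      -- `X` is even
      have hXe : 2 ≤ |X| := by
        obtain ⟨r', hr'⟩ : ∃ r', r = 2 * r' + 1 := ⟨r / 2, by omega⟩
        obtain ⟨p', hp'⟩ : ∃ p', p = 2 * p' + 1 := ⟨p / 2, by omega⟩
        have h3 : X = 2 * ((r' : ℤ) * ((k % p : ℕ) : ℤ) - (p' : ℤ) * (q : ℤ)) := by
          rw [hXdef]
          have e1 : ((r - 1 : ℕ) : ℤ) = 2 * r' := by
            have : r - 1 = 2 * r' := by omega
            exact_mod_cast this
          have e2 : (p : ℤ) = 2 * p' + 1 := by exact_mod_cast hp'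
          rw [e1, e2]
          ring
        rw [h3, abs_mul]
        have h4 : (r' : ℤ) * ((k % p : ℕ) : ℤ) - (p' : ℤ) * (q : ℤ) ≠ 0 := by
          intro h5
          apply hX
          rw [h3, h5, mul_zero]
        have h5 := Int.one_le_abs h4
        have h6 : |(2 : ℤ)| = 2 := by norm_num
        rw [h6]
        linarith
      have hrz : ((r - 1 : ℕ) : ℤ) = (r : ℤ) - 1 := by
        push_cast [Nat.cast_sub (by omega : 1 ≤ r)]; ring
      have hRz : (Rr : ℤ) < r := by exact_mod_cast hRlt
      have hR0 : (0 : ℤ) ≤ Rr := Int.natCast_nonneg _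
      have hqz : 2 * (q : ℤ) < r := by exact_mod_cast hq2
      have hq0 : (1 : ℤ) ≤ q := by exact_mod_cast hq1
      have hrz2 : (5 : ℤ) ≤ r := by
        have : 5 ≤ r := by omega
        exact_mod_cast this
      -- absolute values
      have habs : ((r : ℤ) - 1) * |(Rr : ℤ) - q| = (((r - 1).choose q : ℕ) : ℤ) * |X| := by
        have h3 : |((r - 1 : ℕ) : ℤ) * ((Rr : ℤ) - q)|
            = |(-1 : ℤ) ^ q * (((r - 1).choose q : ℕ) : ℤ) * X| := by rw [hF]
        rw [abs_mul, abs_mul, abs_mul, abs_pow, abs_neg, abs_one, one_pow, one_mul,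
          abs_of_nonneg (Int.natCast_nonneg ((r - 1).choose q)),
          abs_of_nonneg (Int.natCast_nonneg (r - 1)), hrz] at h3
        exact h3
      rcases Nat.lt_or_ge q 2 with hql | hqg
      · have hqe : q = 1 := by omega
        rw [← hq, hqe] at hkdm
        rw [hqe] at hF hXdef
        rw [hrz, pow_one, Nat.choose_one_right, hrz] at hF
        have h3 : (Rr : ℤ) - 1 = - X := by
          have h4 : (r : ℤ) - 1 ≠ 0 := by omega
          apply mul_left_cancel₀ h4
          push_cast at hF ⊢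
          linear_combination hF
        have h4 : r - p ≤ k % p := by omega
        have h5 : (r : ℤ) - p ≤ ((k % p : ℕ) : ℤ) := by
          have : r ≤ p + k % p := by omega
          have h6 : (r : ℤ) ≤ p + ((k % p : ℕ) : ℤ) := by exact_mod_cast this
          linarith
        have h7 : (p : ℤ) + 2 ≤ r := by
          have : p + 2 ≤ r := by omega
          exact_mod_cast this
        rw [hrz] at hXdef
        push_cast at hXdef
        nlinarith
      · rcases Nat.lt_or_ge q 3 with hql' | hqg'
        · have hqe : q = 2 := by omega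
          rw [hqe] at habs
          have h3 : (r - 1).choose 2 * 2 = (r - 1) * (r - 2) := by
            have := Nat.choose_succ_right_eq (r - 1) 1
            rw [Nat.choose_one_right] at this
            have e : r - 1 - 1 = r - 2 := by omega
            rw [e] at this
            exact this
          have h4 : (((r - 1).choose 2 : ℕ) : ℤ) * 2 = ((r : ℤ) - 1) * ((r : ℤ) - 2) := by
            have : (((r - 1).choose 2 * 2 : ℕ) : ℤ) = (((r - 1) * (r - 2) : ℕ) : ℤ) := by rw [h3]
            push_cast [Nat.cast_sub (by omega : 1 ≤ r), Nat.cast_sub (by omega : 2 ≤ r)] at this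
            exact this
          have h5 : |(Rr : ℤ) - (2 : ℕ)| ≤ (r : ℤ) - 3 := by
            rw [abs_le]; push_cast; constructor <;> linarith
          have h6 : 0 ≤ |(Rr : ℤ) - (2 : ℕ)| := abs_nonneg _
          nlinarith
        · have hc := choose_three_le (M := r - 1) hqg' (by omega)
          have h3 : (r - 1).choose 3 * 6 = (r - 1) * (r - 2) * (r - 3) := by
            have e1 := Nat.choose_succ_right_eq (r - 1) 1
            have e2 := Nat.choose_succ_right_eq (r - 1) 2
            rw [Nat.choose_one_right] at e1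
            have e3 : r - 1 - 1 = r - 2 := by omega
            have e4 : r - 1 - 2 = r - 3 := by omega
            rw [e3] at e1
            rw [e4] at e2
            calc (r - 1).choose 3 * 6 = ((r - 1).choose (2 + 1) * (2 + 1)) * 2 := by ring
              _ = ((r - 1).choose (1 + 1) * (1 + 1)) * (r - 3) := by rw [e2]; ring
              _ = _ := by rw [e1]
          have h4 : (((r - 1).choose 3 : ℕ) : ℤ) * 6
              = ((r : ℤ) - 1) * ((r : ℤ) - 2) * ((r : ℤ) - 3) := by
            have : (((r - 1).choose 3 * 6 : ℕ) : ℤ) = (((r - 1) * (r - 2) * (r - 3) : ℕ) : ℤ) := by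
              rw [h3]
            push_cast [Nat.cast_sub (by omega : 1 ≤ r), Nat.cast_sub (by omega : 2 ≤ r),
              Nat.cast_sub (by omega : 3 ≤ r)] at this
            exact this
          have h5 : (((r - 1).choose 3 : ℕ) : ℤ) ≤ (((r - 1).choose q : ℕ) : ℤ) := by
            exact_mod_cast hc
          have hq3 : (3 : ℤ) ≤ q := by exact_mod_cast hqg'
          have h6 : |(Rr : ℤ) - q| ≤ (r : ℤ) - 4 := by
            rw [abs_le]; constructor <;> linarith
          have h7 : 0 ≤ |(Rr : ℤ) - q| := abs_nonneg _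
          have h8 : (0 : ℤ) ≤ (((r - 1).choose q : ℕ) : ℤ) := Int.natCast_nonneg _
          have h9 : (((r - 1).choose q : ℕ) : ℤ) * 2 ≤ ((r : ℤ) - 1) * ((r : ℤ) - 4) := by
            calc (((r - 1).choose q : ℕ) : ℤ) * 2 ≤ (((r - 1).choose q : ℕ) : ℤ) * |X| :=
                  mul_le_mul_of_nonneg_left hXe h8
              _ = ((r : ℤ) - 1) * |(Rr : ℤ) - q| := habs.symm
              _ ≤ _ := mul_le_mul_of_nonneg_left h6 (by linarith)
          have h10 : ((r : ℤ) - 1) * ((r : ℤ) - 2) * ((r : ℤ) - 3)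
              ≤ ((r : ℤ) - 1) * (3 * ((r : ℤ) - 4)) := by linarith
          have h11 : ((r : ℤ) - 2) * ((r : ℤ) - 3) ≤ 3 * ((r : ℤ) - 4) := by
            have h12 : (0 : ℤ) < (r : ℤ) - 1 := by linarith
            have h13 : ((r : ℤ) - 1) * (((r : ℤ) - 2) * ((r : ℤ) - 3))
                ≤ ((r : ℤ) - 1) * (3 * ((r : ℤ) - 4)) := by linarith
            exact le_of_mul_le_mul_left h13 h12
          nlinarith
  · -- `p = r`
    have hpe : p = r := le_antisymm hpr hge
    subst hpe
    have hr1 : ((p - 1 : ℕ) : ℤ) ≠ 0 := by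
      have : p - 1 ≠ 0 := by omega
      exact_mod_cast this
    have hrz : ((p - 1 : ℕ) : ℤ) = (p : ℤ) - 1 := by
      push_cast [Nat.cast_sub (by omega : 1 ≤ p)]; ring
    have h3 : ((Rr : ℤ) - q) = (-1) ^ q * (((p - 1).choose q : ℕ) : ℤ) * ((Rr : ℤ) - q) := by
      apply mul_left_cancel₀ hr1
      rw [← hRr, ← hrz] at hF
      linear_combination hF
    have h4 : ((Rr : ℤ) - q) * ((-1) ^ q * (((p - 1).choose q : ℕ) : ℤ) - 1) = 0 := by
      linear_combination -h3
    rcases mul_eq_zero.1 h4 with h5 | h5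
    · have : (Rr : ℤ) = (q : ℤ) := by linarith
      exact_mod_cast this
    · exfalso
      have h6 : |(-1 : ℤ) ^ q * (((p - 1).choose q : ℕ) : ℤ)| = 1 := by
        have : (-1 : ℤ) ^ q * (((p - 1).choose q : ℕ) : ℤ) = 1 := by linarith
        rw [this]; norm_num
      rw [abs_mul, abs_pow, abs_neg, abs_one, one_pow, one_mul,
        abs_of_nonneg (Int.natCast_nonneg _)] at h6
      have h7 : (p - 1).choose q = 1 := by exact_mod_cast h6
      rw [Nat.choose_eq_one_iff] at h7
      omega

end Pool.Agent.H954.SD
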