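import Mathlib
import Pool.Agent.H954.SD.L

set_option autoImplicit false

open Finset

namespace Pool.Agent.H954.SD

variable {n : ℕ} [NeZero n]

/-- the main inequality for a second prime -/
lemma second_dvd {k p r M i : ℕ} (h : IsOneDesign n k 0) (hp : p.Prime) (hr : r.Prime)
    (hn : n = r * M) (hM : 2 ≤ M) (hk : k < n) (hi : (p - 1) * k = i * (n - 1))
    (hI : (M - 1) * p * (k / r + 1 + ∑ m ∈ M.divisors.erase 1, m * (M / m - 1).choose (k / r / m))
      ≤ (M - 1).choose (k / r)) :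
    n - 1 ∣ (r - 1) * k := by
  have hp2 := hp.two_le
  have hr2 := hr.two_le
  by_contra hcon
  set X : ℤ := ((M - 1 : ℕ) : ℤ) * ((k % r : ℕ) : ℤ) - ((r : ℤ) - 1) * ((k / r : ℕ) : ℤ) with hXdef
  have hX : X ≠ 0 := fun h0 => hcon (dvd_of_X hr hn (by omega) h0)
  have hn2 : 2 ≤ n := by rw [hn]; nlinarith
  -- `|X|` is large
  have hXl : (n : ℤ) - 1 ≤ ((p : ℤ) - 1) * |X| := by
    have hkm : (k : ℤ) = r * ((k / r : ℕ) : ℤ) + ((k % r : ℕ) : ℤ) := by
      exact_mod_cast (Nat.div_add_mod k r).symm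
    have hnz : (n : ℤ) = r * M := by exact_mod_cast hn
    have hMz : ((M - 1 : ℕ) : ℤ) = (M : ℤ) - 1 := by push_cast [Nat.cast_sub (by omega : 1 ≤ M)]; ring
    have hiz : ((p : ℤ) - 1) * k = i * ((n : ℤ) - 1) := by
      have : (((p - 1) * k : ℕ) : ℤ) = ((i * (n - 1) : ℕ) : ℤ) := by rw [hi]
      rw [Nat.cast_mul, Nat.cast_mul, Nat.cast_sub (by omega : 1 ≤ p),
        Nat.cast_sub (by omega : 1 ≤ n)] at this
      exact_mod_cast this
    have h1 : ((n : ℤ) - 1) * (((p : ℤ) - 1) * ((k % r : ℕ) : ℤ) - ((r : ℤ) - 1) * i)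
        = r * (((p : ℤ) - 1) * X) := by
      rw [hXdef, hMz]
      have e1 : r * (((M : ℤ) - 1) * ((k % r : ℕ) : ℤ) - ((r : ℤ) - 1) * ((k / r : ℕ) : ℤ))
          = ((n : ℤ) - 1) * ((k % r : ℕ) : ℤ) - ((r : ℤ) - 1) * k := by
        rw [hkm, hnz]; ring
      linear_combination ((r : ℤ) - 1) * hiz - ((p : ℤ) - 1) * e1
    have hdvd : (n : ℤ) - 1 ∣ r * (((p : ℤ) - 1) * X) := ⟨_, h1.symm⟩
    have hcop : IsCoprime ((n : ℤ) - 1) (r : ℤ) := ⟨-1, M, by rw [hnz]; ring⟩
    have h2 : (n : ℤ) - 1 ∣ ((p : ℤ) - 1) * X := hcop.dvd_of_dvd_mul_left hdvd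
    have h3 : ((p : ℤ) - 1) * X ≠ 0 := by
      have : (2 : ℤ) ≤ p := by exact_mod_cast hp2
      exact mul_ne_zero (by omega) hX
    have h4 := Int.le_of_dvd (abs_pos.2 h3) ((dvd_abs _ _).2 h2)
    rw [abs_mul, abs_of_nonneg (by have : (2 : ℤ) ≤ p := by exact_mod_cast hp2
                                   omega : (0 : ℤ) ≤ (p : ℤ) - 1)] at h4
    exact h4
  have h1 := condp h hr hn (by omega)
  have h1mem : (1 : ℕ) ∈ M.divisors := Nat.mem_divisors.2 ⟨one_dvd _, by omega⟩
  rw [← Finset.add_sum_erase _ _ h1mem, mul_one, Nat.totient_prime hr] at h1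
  set Sg := ∑ m ∈ M.divisors.erase 1, m * (M / m - 1).choose (k / r / m) with hSg
  set G1 := S n k r r with hG1
  set K := S n k n n with hK
  obtain ⟨hK0, hKk⟩ := S_top (n := n) hk.le
  have hr1 : (0 : ℤ) < (r : ℤ) - 1 := by
    have : (2 : ℤ) ≤ r := by exact_mod_cast hr2
    omega
  have hrest : |∑ m ∈ M.divisors.erase 1, ((r * m).totient : ℤ) * S n k (r * m) r|
      ≤ ((r : ℤ) - 1) * ((r : ℤ) * (Sg : ℤ)) := by
    refine (Finset.abs_sum_le_sum_abs _ _).trans ?_
    rw [hSg]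
    push_cast
    rw [Finset.mul_sum, Finset.mul_sum]
    refine Finset.sum_le_sum fun m hm => ?_
    have hmN := (Nat.mem_divisors.1 (Finset.mem_of_mem_erase hm)).1
    have hb := S_bound (k := k) hr hn hmN (by omega) hk
    have e1 : k / m / r = k / r / m := by
      rw [Nat.div_div_eq_div_mul, Nat.div_div_eq_div_mul, mul_comm]
    rw [e1] at hb
    rw [abs_mul, abs_of_nonneg (Int.natCast_nonneg _)]
    have hφ : ((r * m).totient : ℤ) ≤ (r : ℤ) * m := by
      have := Nat.totient_le (r * m)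
      exact_mod_cast this
    have hc0 : (0 : ℤ) ≤ ((M / m - 1).choose (k / r / m) : ℤ) := Int.natCast_nonneg _
    calc ((r * m).totient : ℤ) * |S n k (r * m) r|
        ≤ ((r : ℤ) * m) * (((r : ℤ) - 1) * ((M / m - 1).choose (k / r / m) : ℤ)) := by
          refine mul_le_mul hφ hb (abs_nonneg _) (by positivity)
      _ = _ := by ring
  have h2 : ((r : ℤ) - 1) * (K - G1) = ∑ m ∈ M.divisors.erase 1,
      ((r * m).totient : ℤ) * S n k (r * m) r := by
    push_cast [Nat.cast_sub (by omega : 1 ≤ r)] at h1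
    linear_combination h1
  have h3 : |K - G1| ≤ (r : ℤ) * (Sg : ℤ) := by
    rw [← h2, abs_mul, abs_of_pos hr1] at hrest
    exact le_of_mul_le_mul_left hrest hr1
  have h4 : |G1| ≤ (k : ℤ) + (r : ℤ) * (Sg : ℤ) := by
    have h5 : |G1| ≤ |K| + |K - G1| := by
      have : G1 = K - (K - G1) := by ring
      calc |G1| = |K - (K - G1)| := by rw [← this]
        _ ≤ |K| + |K - G1| := abs_sub _ _
    rw [abs_of_nonneg hK0] at h5
    linarith
  have h6 := S_formula (k := k) hr hn (one_dvd M) (by omega)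
  rw [mul_one, Nat.div_one, Nat.div_one, ← hG1, ← hXdef] at h6
  have hMp : (0 : ℤ) < ((M - 1 : ℕ) : ℤ) := by
    have : 0 < M - 1 := by omega
    exact_mod_cast this
  set C : ℤ := (((M - 1).choose (k / r) : ℕ) : ℤ) with hC
  have hC0 : 0 ≤ C := Int.natCast_nonneg _
  have h7 : C * |X| = ((M - 1 : ℕ) : ℤ) * |G1| := by
    have h8 : ((M - 1 : ℕ) : ℤ) * |G1| = |((M - 1 : ℕ) : ℤ) * G1| := by
      rw [abs_mul, abs_of_pos hMp]
    rw [h8, h6, abs_mul, abs_mul, abs_pow, abs_neg, abs_one, one_pow, one_mul, abs_of_nonneg hC0]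
  have h8 : (k : ℤ) < (r : ℤ) * (((k / r : ℕ) : ℤ) + 1) := by
    have := Nat.lt_mul_div_succ k hr.pos
    exact_mod_cast this
  have h9 : ((M - 1 : ℕ) : ℤ) * (p : ℤ) * (((k / r : ℕ) : ℤ) + 1 + (Sg : ℤ)) ≤ C := by
    rw [hC]
    exact_mod_cast hI
  set Y : ℤ := ((k / r : ℕ) : ℤ) + 1 + (Sg : ℤ) with hY
  have hY1 : 1 ≤ Y := by
    have e1 : (0 : ℤ) ≤ ((k / r : ℕ) : ℤ) := Int.natCast_nonneg _
    have e2 : (0 : ℤ) ≤ (Sg : ℤ) := Int.natCast_nonneg _
    linarith
  have h10 : |G1| < (r : ℤ) * Y := by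
    rw [hY]; linarith
  have hpz : (2 : ℤ) ≤ p := by exact_mod_cast hp2
  have hCpos : 0 < C := by
    have : (0 : ℤ) < ((M - 1 : ℕ) : ℤ) * (p : ℤ) * Y := by positivity
    linarith
  -- `C |X| < (M-1) r Y`, `(M-1) p Y ≤ C`
  have h11 : C * |X| < ((M - 1 : ℕ) : ℤ) * ((r : ℤ) * Y) := by
    rw [h7]
    exact mul_lt_mul_of_pos_left h10 hMp
  have h12 : (p : ℤ) * (C * |X|) < (r : ℤ) * C := by
    calc (p : ℤ) * (C * |X|) < (p : ℤ) * (((M - 1 : ℕ) : ℤ) * ((r : ℤ) * Y)) :=
          mul_lt_mul_of_pos_left h11 (by linarith)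
      _ = (r : ℤ) * (((M - 1 : ℕ) : ℤ) * (p : ℤ) * Y) := by ring
      _ ≤ (r : ℤ) * C := mul_le_mul_of_nonneg_left h9 (by positivity)
  have h13 : (p : ℤ) * |X| < r := by
    have : C * ((p : ℤ) * |X|) < C * r := by linarith
    exact lt_of_mul_lt_mul_left this hCpos.le
  have hnz : (n : ℤ) = r * M := by exact_mod_cast hn
  have hM2 : (2 : ℤ) ≤ M := by exact_mod_cast hM
  have hXpos : 0 ≤ |X| := abs_nonneg _
  have hrz : (2 : ℤ) ≤ r := by exact_mod_cast hr2
  nlinarith

omit [NeZero n] in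
lemma even_of_odd_prime {p : ℕ} (hn : n % 2 = 1) (hpn : p ∣ n) : p % 2 = 1 := by
  obtain ⟨m, hm⟩ := hpn
  rcases Nat.mod_two_eq_zero_or_one p with h0 | h0
  · rw [hm, Nat.mul_mod, h0] at hn; simp at hn
  · exact h0

/-- necessity at `p`, for `2 k < n` -/
lemma nec_half {k : ℕ} (hodd : n % 2 = 1) (h : IsOneDesign n k 0) (hpk : n.minFac ≤ k)
    (h2k : 2 * k < n) : n - 1 ∣ (n.minFac - 1) * k := by
  have hn1 : n ≠ 1 := by rintro rfl; simp at hpk; omega
  have hp : n.minFac.Prime := Nat.minFac_prime hn1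
  obtain ⟨N, hN⟩ := Nat.minFac_dvd n
  set p := n.minFac with hpdef
  have hp2 := hp.two_le
  have hpo : p % 2 = 1 := even_of_odd_prime hodd (Nat.minFac_dvd n)
  have hN0 : 0 < N := by
    rcases Nat.eq_zero_or_pos N with h0 | h0
    · rw [h0, mul_zero] at hN; omega
    · exact h0
  have hNn : N ∣ n := Dvd.intro_left p hN.symm
  have hNo : N % 2 = 1 := even_of_odd_prime hodd hNn
  have hkN : N ≤ k := by
    by_contra hcon
    exact regionA h hp hN hpk (by omega)
  have hN1 : N ≠ 1 := by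
    rintro rfl
    omega
  have hpN : p ≤ N.minFac := Nat.minFac_le_of_dvd (Nat.minFac_prime hN1).two_le
    ((Nat.minFac_dvd N).trans hNn)
  by_cases hNp : N.Prime
  · have hpN' : p ≤ N := hpN.trans (Nat.minFac_le hN0)
    have h1 := prime_case h hp hNp hN hodd hpN' hkN h2k
    have hG := G_prime h hp hNp hN (by omega)
    have hF := S_formula (k := k) hp hN (one_dvd N) hN0
    rw [mul_one, Nat.div_one, Nat.div_one, hG, h1, sub_self, mul_zero] at hF
    refine dvd_of_X hp hN hN0 ?_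
    have hq2 : k / p ≤ N - 1 := by
      have : k / p < N := by
        rw [Nat.div_lt_iff_lt_mul hp.pos, mul_comm, ← hN]; omega
      omega
    have hC : (((N - 1).choose (k / p) : ℕ) : ℤ) ≠ 0 := by
      exact_mod_cast (Nat.choose_pos hq2).ne'
    have hs : ((-1 : ℤ)) ^ (k / p) ≠ 0 := pow_ne_zero _ (by norm_num)
    rcases mul_eq_zero.1 hF.symm with h2 | h2
    · rcases mul_eq_zero.1 h2 with h3 | h3
      · exact absurd h3 hs
      · exact absurd h3 hC
    · exact h2
  · set f := N.minFac with hf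
    have hff : f * f ≤ N := by
      have := Nat.minFac_sq_le_self hN0 hNp
      rw [sq] at this
      exact this
    have hfN : f ∣ N := Nat.minFac_dvd N
    have hf2 := (Nat.minFac_prime hN1).two_le
    have hf3 : 3 ≤ f := by
      rcases Nat.eq_or_lt_of_le hf2 with h0 | h0
      · obtain ⟨c, hc⟩ := hfN
        have h00 : f = 2 := h0.symm
        rw [h00] at hc
        omega
      · exact h0
    have hqf : N / f ≤ k / p := by
      calc N / f ≤ N / p := Nat.div_le_div_left hpN hp.pos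
        _ ≤ k / p := Nat.div_le_div_right hkN
    have hq2 : 2 * (k / p) < N := by
      by_contra hcon
      have h3 : p * N ≤ p * (2 * (k / p)) := Nat.mul_le_mul_left _ (by omega)
      have h4 : p * (k / p) ≤ k := Nat.mul_div_le k p
      rw [← hN] at h3
      have h5 : p * (2 * (k / p)) = 2 * (p * (k / p)) := by ring
      omega
    rcases Nat.lt_or_ge N 15 with hsmall | hbig
    · -- `N = 9`
      have hN9 : N = 9 := by
        have hN9' : 9 ≤ N := by nlinarith
        have h3 : N ≠ 11 := by intro h0; exact hNp (by rw [h0]; norm_num)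
        have h4 : N ≠ 13 := by intro h0; exact hNp (by rw [h0]; norm_num)
        omega
      have hp3 : p = 3 := by
        have : f ≤ 3 := by
          have : f * f ≤ 9 := by omega
          nlinarith
        omega
      have hn27 : n = 27 := by rw [hN, hN9, hp3]
      have hc := condp h hp hN hN0
      rw [hp3, hN9, hn27] at hc
      rw [hp3, hn27]
      rw [hN9] at hkN
      rw [hn27] at h2k
      have hk13 : k ≤ 13 := by omega
      interval_cases k
      · exact absurd hc (by decide +kernel)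
      · exact absurd hc (by decide +kernel)
      · exact absurd hc (by decide +kernel)
      · exact absurd hc (by decide +kernel)
      · decide
    · refine main_dvd h hp hN (by omega) (by omega) ?_
      refine le_trans ?_ (ineq hbig hNo hfN hff hf3 hqf hq2)
      exact Nat.mul_le_mul_right _ (Nat.mul_le_mul_left _ hpN)

end Pool.Agent.H954.SD
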