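import Mathlib
import Pool.Agent.H954.SD.M

set_option autoImplicit false

open Finset

namespace Pool.Agent.H954.SD

variable {n : ℕ} [NeZero n]

lemma sum_zero_of_odd (hodd : n % 2 = 1) : ∑ a : ZMod n, a = 0 := by
  rw [Pool.Agent.X147.Ssd.sum_univ, ZMod.natCast_eq_zero_iff]
  obtain ⟨m, hm⟩ : ∃ m, n = 2 * m + 1 := ⟨n / 2, by omega⟩
  rw [hm]
  have : (2 * m + 1) * (2 * m + 1 - 1) / 2 = (2 * m + 1) * m := by
    rw [Nat.add_sub_cancel]
    rw [show (2 * m + 1) * (2 * m) = 2 * ((2 * m + 1) * m) by ring]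
    exact Nat.mul_div_cancel_left _ (by norm_num)
  rw [this]
  exact Dvd.intro m rfl

/-- necessity at all primes, for `2 k < n` -/
lemma nec_all_half {k : ℕ} (hodd : n % 2 = 1) (h : IsOneDesign n k 0) (hpk : n.minFac ≤ k)
    (h2k : 2 * k < n) : ∀ r : ℕ, r.Prime → r ∣ n → n - 1 ∣ (r - 1) * k := by
  intro r hr hrn
  have hn1 : n ≠ 1 := by rintro rfl; simp at hpk; omega
  have hp : n.minFac.Prime := Nat.minFac_prime hn1
  have hmain := nec_half hodd h hpk h2k
  obtain ⟨N, hN⟩ := Nat.minFac_dvd n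
  set p := n.minFac with hpdef
  have hp2 := hp.two_le
  have hr2 := hr.two_le
  have hpo : p % 2 = 1 := even_of_odd_prime hodd (Nat.minFac_dvd n)
  have hro : r % 2 = 1 := even_of_odd_prime hodd hrn
  obtain ⟨i, hi⟩ := hmain
  have hi' : (p - 1) * k = i * (n - 1) := by rw [hi]; ring
  by_cases hrp : r = p
  · rw [hrp]; exact ⟨i, hi⟩
  by_cases hp3 : p = 3
  · -- `n - 1 ∣ 2 k`
    rw [hp3] at hi
    obtain ⟨r', hr'⟩ : ∃ r', r - 1 = 2 * r' := ⟨(r - 1) / 2, by omega⟩
    rw [hr']
    refine ⟨i * r', ?_⟩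
    calc 2 * r' * k = ((3 - 1) * k) * r' := by ring
      _ = (n - 1) * (i * r') := by rw [hi]; ring
  have hp5 : 5 ≤ p := by
    have h4 : p ≠ 4 := by rintro h0; omega
    omega
  obtain ⟨M, hM⟩ := hrn
  have hM0 : 0 < M := by
    rcases Nat.eq_zero_or_pos M with h0 | h0
    · rw [h0, mul_zero] at hM
      have := npos (n := n)
      omega
    · exact h0
  have hMn : M ∣ n := Dvd.intro_left r hM.symm
  have hMo : M % 2 = 1 := even_of_odd_prime hodd hMn
  have hpM : p ∣ M := by
    have h1 : p ∣ r * M := by rw [← hM]; exact Nat.minFac_dvd n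
    rcases hp.dvd_mul.1 h1 with h2 | h2
    · exact absurd ((Nat.prime_dvd_prime_iff_eq hp hr).1 h2).symm hrp
    · exact h2
  have hpr : p ≤ r := Nat.minFac_le_of_dvd hr2 ⟨M, hM⟩
  by_cases hMp : M.Prime
  · -- `n = p r`
    have hMe : M = p := ((Nat.prime_dvd_prime_iff_eq hp hMp).1 hpM).symm
    have hn : n = p * r := by rw [hM, hMe, mul_comm]
    have hrk : r ≤ k := by
      by_contra hcon
      exact regionA h hp hn hpk (by omega)
    have h1 := prime_case h hp hr hn hodd hpr hrk h2k
    have hG := G_prime h hp hr hn (by omega)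
    have hF := S_formula (k := k) hp hn (one_dvd r) hr.pos
    rw [mul_one, Nat.div_one, Nat.div_one, hG, h1, sub_self, mul_zero] at hF
    have hq2 : k / p ≤ r - 1 := by
      have : k / p < r := by
        rw [Nat.div_lt_iff_lt_mul hp.pos, mul_comm, ← hn]; omega
      omega
    have hC : (((r - 1).choose (k / p) : ℕ) : ℤ) ≠ 0 := by
      exact_mod_cast (Nat.choose_pos hq2).ne'
    have hs : ((-1 : ℤ)) ^ (k / p) ≠ 0 := pow_ne_zero _ (by norm_num)
    have hX : ((r - 1 : ℕ) : ℤ) * ((k % p : ℕ) : ℤ) - ((p : ℤ) - 1) * ((k / p : ℕ) : ℤ) = 0 := by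
      rcases mul_eq_zero.1 hF.symm with h2 | h2
      · rcases mul_eq_zero.1 h2 with h3 | h3
        · exact absurd h3 hs
        · exact absurd h3 hC
      · exact h2
    refine ⟨k / p, ?_⟩
    have h3 := Nat.div_add_mod k p
    have h4 : (r - 1) * (k % p) = (p - 1) * (k / p) := by
      have : (((r - 1) * (k % p) : ℕ) : ℤ) = (((p - 1) * (k / p) : ℕ) : ℤ) := by
        push_cast [Nat.cast_sub (by omega : 1 ≤ p)] at hX ⊢
        linarith
      exact_mod_cast this
    calc (r - 1) * k = (r - 1) * (p * (k / p) + k % p) := by rw [h3]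
      _ = (r - 1) * (p * (k / p)) + (r - 1) * (k % p) := by ring
      _ = (r - 1) * (p * (k / p)) + (p - 1) * (k / p) := by rw [h4]
      _ = ((r - 1) * p + (p - 1)) * (k / p) := by ring
      _ = (n - 1) * (k / p) := by
          congr 1
          rw [hn]
          obtain ⟨a, ha⟩ : ∃ a, p = a + 1 := ⟨p - 1, by omega⟩
          obtain ⟨b, hb⟩ : ∃ b, r = b + 1 := ⟨r - 1, by omega⟩
          rw [ha, hb, Nat.add_sub_cancel, Nat.add_sub_cancel]
          have : (a + 1) * (b + 1) = b * (a + 1) + a + 1 := by ring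
          omega
  · -- `M` composite
    obtain ⟨c, hc⟩ := hpM
    have hc0 : 0 < c := by
      rcases Nat.eq_zero_or_pos c with h0 | h0
      · rw [h0, mul_zero] at hc; omega
      · exact h0
    have hc1 : c ≠ 1 := by
      rintro rfl
      rw [mul_one] at hc
      exact hMp (by rw [hc]; exact hp)
    have hpc : p ≤ c := Nat.minFac_le_of_dvd (by omega) ((Dvd.intro_left p hc.symm).trans hMn)
    have hppM : p * p ≤ M := by
      rw [hc]; exact Nat.mul_le_mul_left _ hpc
    have hM25 : 25 ≤ M := by nlinarith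
    have hMk : M / p ≤ k / r := by
      have hcM : M / p = c := by rw [hc]; exact Nat.mul_div_cancel_left _ hp.pos
      rw [hcM, Nat.le_div_iff_mul_le hr.pos]
      -- `c r ≤ k`
      have hi1 : 1 ≤ i := by
        rcases Nat.eq_zero_or_pos i with h0 | h0
        · exfalso
          rw [h0, mul_zero] at hi
          rcases Nat.mul_eq_zero.1 hi with h1 | h1
          · omega
          · omega
        · exact h0
      have hle : n - 1 ≤ (p - 1) * k := by
        rw [hi]
        calc n - 1 = (n - 1) * 1 := by ring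
          _ ≤ (n - 1) * i := Nat.mul_le_mul_left _ hi1
      have hnc : n = p * (c * r) := by rw [hM, hc]; ring
      by_contra hcon
      have h1 : k + 1 ≤ c * r := by omega
      have h2 : p * (k + 1) ≤ n := by rw [hnc]; exact Nat.mul_le_mul_left _ h1
      have h3 : p * (k + 1) = (p - 1) * k + k + p := by
        obtain ⟨a, ha⟩ : ∃ a, p = a + 1 := ⟨p - 1, by omega⟩
        rw [ha, Nat.add_sub_cancel]; ring
      omega
    have hq2 : 2 * (k / r) < M := by
      by_contra hcon
      have h3 : r * M ≤ r * (2 * (k / r)) := Nat.mul_le_mul_left _ (by omega)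
      have h4 : r * (k / r) ≤ k := Nat.mul_div_le k r
      rw [← hM] at h3
      have h5 : r * (2 * (k / r)) = 2 * (r * (k / r)) := by ring
      omega
    exact second_dvd h hp hr hM (by omega) (by omega) hi'
      (ineq (by omega) hMo ⟨c, hc⟩ hppM (by omega) hMk hq2)

lemma nec_all {k : ℕ} (hodd : n % 2 = 1) (h : IsOneDesign n k 0) (hpk : n.minFac ≤ k)
    (hpk' : n.minFac ≤ n - 1 - k) (hkn : k ≤ n - 1) :
    ∀ r : ℕ, r.Prime → r ∣ n → n - 1 ∣ (r - 1) * k := by
  rcases Nat.lt_or_ge (2 * k) n with h1 | h1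
  · exact nec_all_half hodd h hpk h1
  · intro r hr hrn
    have h2 := (compl_iff hkn).1 h
    rw [sum_zero_of_odd hodd, sub_zero] at h2
    have h3 := nec_all_half hodd h2 hpk' (by omega) r hr hrn
    have h4 : (r - 1) * (n - 1) = (r - 1) * (n - 1 - k) + (r - 1) * k := by
      rw [← Nat.mul_add]
      congr 1
      omega
    have h5 : n - 1 ∣ (r - 1) * (n - 1) := Dvd.intro_left _ rfl
    rw [h4] at h5
    exact (Nat.dvd_add_right h3).1 h5

/-- the complete classification for `x = 0` and odd `n` -/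
theorem zero_iff {k : ℕ} (hodd : n % 2 = 1) (hn : 3 ≤ n) (hk1 : 1 ≤ k) (hk : k ≤ n - 1) :
    IsOneDesign n k 0 ↔ k = n - 1 ∨ (2 ≤ k ∧ k + 3 ≤ n ∧ (k < n.minFac ∨ n - 1 - k < n.minFac ∨
      ∀ r : ℕ, r.Prime → r ∣ n → n - 1 ∣ (r - 1) * k)) := by
  constructor
  · intro h
    rcases Nat.lt_or_ge k (n - 1) with h1 | h1
    · right
      have h2 : 2 ≤ k := by
        by_contra hcon
        have : k = 1 := by omega
        subst this
        exact one_not (by omega) h
      have h3 : k + 3 ≤ n := by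
        by_contra hcon
        have h3 := (compl_iff hk).1 h
        have h4 : n - 1 - k = 1 := by omega
        rw [h4] at h3
        exact one_not (by omega) h3
      refine ⟨h2, h3, ?_⟩
      by_cases h4 : k < n.minFac
      · exact Or.inl h4
      · by_cases h5 : n - 1 - k < n.minFac
        · exact Or.inr (Or.inl h5)
        · exact Or.inr (Or.inr (nec_all hodd h (by omega) (by omega) hk))
    · left; omega
  · rintro (h | ⟨h2, h3, h4⟩)
    · rw [h, top_iff (by omega), sum_zero_of_odd hodd]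
    · rcases h4 with h4 | h4 | h4
      · exact (edge_iff hk1 (by omega) (Or.inl h4)).2 ⟨rfl, h2, h3⟩
      · exact (edge_iff hk1 (by omega) (Or.inr h4)).2 ⟨rfl, h2, h3⟩
      · exact suff h2 h3 h4

end Pool.Agent.H954.SD
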