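import Mathlib
import Pool.Agent.H954.SD.N

set_option autoImplicit false

open Finset

namespace Pool.Agent.H954.SD

open Pool.Agent.X147.Ssd

variable {n : ℕ} [NeZero n]

lemma cs_sum {f : ℕ} (hf : f ∣ n) (x : ZMod n) :
    ∑ e ∈ f.divisors, cs x e = if f ∣ x.val then (f : ℂ) else 0 := by
  have h1 := ker_partition hf (fun v => ee n (-(v * x)))
  have h2 := ker_val hf (-x) 1
  unfold cs
  rw [← h1]
  have h3 : ∑ v ∈ (univ : Finset (ZMod n)).filter (fun v => (f : ZMod n) * v = 0), ee n (-(v * x))
      = ∑ v ∈ (univ : Finset (ZMod n)).filter (fun v => (f : ZMod n) * v = 0),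
        ee n (v * (-x)) ^ 1 := by
    refine Finset.sum_congr rfl fun v _ => ?_
    rw [pow_one, mul_neg]
  rw [h3, h2, mul_one]
  have h4 : f ∣ (-x).val ↔ f ∣ x.val := by
    rw [ZMod.neg_val]
    split_ifs with h0
    · rw [h0, ZMod.val_zero]
    · have h5 := (ZMod.val_lt x).le
      constructor
      · intro h6
        have h7 := Nat.dvd_sub hf h6
        have h8 : n - (n - x.val) = x.val := by omega
        rwa [h8] at h7
      · intro h6
        exact Nat.dvd_sub hf h6
  simp only [h4]

lemma cs_one (x : ZMod n) : cs x 1 = 1 := by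
  have h := cs_sum (one_dvd n) x
  rw [Nat.divisors_one, Finset.sum_singleton, if_pos (one_dvd _), Nat.cast_one] at h
  exact h

lemma cs_prime {p : ℕ} (hp : p.Prime) (hpn : p ∣ n) (x : ZMod n) :
    cs x p = (if p ∣ x.val then (p : ℂ) else 0) - 1 := by
  have h := cs_sum hpn x
  rw [hp.divisors, Finset.sum_pair hp.one_lt.ne, cs_one] at h
  linear_combination h

/-- multiplicativity -/
lemma cs_mul {p : ℕ} (hp : p.Prime) (x : ZMod n) :
    ∀ m : ℕ, p * m ∣ n → ¬ p ∣ m → cs x (p * m) = cs x p * cs x m := by
  intro m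
  induction m using Nat.strong_induction_on with
  | _ m ih =>
    intro hpm hpm'
    have hn0 : 0 < n := npos
    have hm0 : 0 < m := by
      rcases Nat.eq_zero_or_pos m with h | h
      · rw [h] at hpm'; exact absurd (dvd_zero p) hpm'
      · exact h
    have hmn : m ∣ n := (Dvd.intro_left p rfl).trans hpm
    have hpn : p ∣ n := (Dvd.intro m rfl).trans hpm
    have hcop : Nat.Coprime p m := (Nat.Prime.coprime_iff_not_dvd hp).2 hpm'
    -- divisors of `p m`
    have hsplit : ∑ e ∈ (p * m).divisors, cs x e
        = ∑ e ∈ m.divisors, cs x e + ∑ e ∈ m.divisors, cs x (p * e) := by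
      have h1 : (p * m).divisors = m.divisors ∪ m.divisors.image (fun e => p * e) := by
        ext e
        rw [Finset.mem_union, Nat.mem_divisors, Nat.mem_divisors, Finset.mem_image]
        constructor
        · rintro ⟨h2, h3⟩
          by_cases h4 : p ∣ e
          · right
            obtain ⟨t, rfl⟩ := h4
            exact ⟨t, Nat.mem_divisors.2 ⟨Nat.dvd_of_mul_dvd_mul_left hp.pos h2, hm0.ne'⟩, rfl⟩
          · left
            refine ⟨?_, hm0.ne'⟩
            have h5 : Nat.Coprime e p := ((Nat.Prime.coprime_iff_not_dvd hp).2 h4).symm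
            exact h5.dvd_of_dvd_mul_left h2
        · rintro (⟨h2, _⟩ | ⟨t, h2, rfl⟩)
          · exact ⟨h2.mul_left _, (Nat.mul_pos hp.pos hm0).ne'⟩
          · exact ⟨Nat.mul_dvd_mul_left _ (Nat.mem_divisors.1 h2).1, (Nat.mul_pos hp.pos hm0).ne'⟩
      have hdis : Disjoint m.divisors (m.divisors.image (fun e => p * e)) := by
        rw [Finset.disjoint_left]
        intro e he he'
        obtain ⟨t, _, rfl⟩ := Finset.mem_image.1 he'
        exact hpm' ((Dvd.intro t rfl).trans (Nat.mem_divisors.1 he).1)
      rw [h1, Finset.sum_union hdis, Finset.sum_image]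
      intro a _ b _ hab
      exact Nat.eq_of_mul_eq_mul_left hp.pos hab
    have htot : ∑ e ∈ m.divisors, cs x (p * e) = cs x p * ∑ e ∈ m.divisors, cs x e := by
      have h2 := cs_sum hpm x
      rw [hsplit] at h2
      have h3 := cs_sum hmn x
      have h4 := cs_prime hp hpn x
      have h5 : p * m ∣ x.val ↔ p ∣ x.val ∧ m ∣ x.val :=
        ⟨fun h => ⟨(Dvd.intro m rfl).trans h, (Dvd.intro_left p rfl).trans h⟩,
          fun h => hcop.mul_dvd_of_dvd_of_dvd h.1 h.2⟩
      rw [h4, h3]
      rw [h3] at h2
      by_cases h6 : p ∣ x.val <;> by_cases h7 : m ∣ x.val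
      · rw [if_pos h7, if_pos (h5.2 ⟨h6, h7⟩)] at h2
        rw [if_pos h6, if_pos h7]
        push_cast at h2
        linear_combination h2
      · rw [if_neg h7, if_neg (fun h => h7 (h5.1 h).2)] at h2
        rw [if_neg h7]
        linear_combination h2
      · rw [if_pos h7, if_neg (fun h => h6 (h5.1 h).1)] at h2
        rw [if_neg h6, if_pos h7]
        linear_combination h2
      · rw [if_neg h7, if_neg (fun h => h7 (h5.1 h).2)] at h2
        rw [if_neg h7]
        linear_combination h2
    rw [← Nat.insert_self_properDivisors hm0.ne', Finset.sum_insert Nat.self_notMem_properDivisors,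
      Finset.sum_insert Nat.self_notMem_properDivisors] at htot
    have hrest : ∑ e ∈ m.properDivisors, cs x (p * e) = cs x p * ∑ e ∈ m.properDivisors, cs x e := by
      rw [Finset.mul_sum]
      refine Finset.sum_congr rfl fun e he => ?_
      rw [Nat.mem_properDivisors] at he
      exact ih e he.2 ((Nat.mul_dvd_mul_left _ he.1).trans hpm) (fun h => hpm' (h.trans he.1))
    linear_combination htot - hrest

lemma cs_ne {x : ZMod n} : ∀ m : ℕ, m ∣ n → Squarefree m → cs x m ≠ 0 := by
  intro m
  induction m using Nat.strong_induction_on with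
  | _ m ih =>
    intro hm hsq
    have hm0 : 0 < m := Nat.pos_of_dvd_of_pos hm npos
    by_cases h1 : m = 1
    · rw [h1, cs_one]; exact one_ne_zero
    · have hp := Nat.minFac_prime h1
      obtain ⟨t, ht⟩ := Nat.minFac_dvd m
      set p := m.minFac with hpdef
      have hpt : ¬ p ∣ t := by
        intro h
        obtain ⟨c, hc⟩ := h
        have h2 : p * p ∣ m := ⟨c, by rw [ht, hc]; ring⟩
        have h3 := hsq p h2
        exact hp.one_lt.ne' (Nat.isUnit_iff.1 h3)
      have ht0 : 0 < t := by
        rcases Nat.eq_zero_or_pos t with h | h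
        · rw [h, mul_zero] at ht; omega
        · exact h
      have htm : t ∣ m := Dvd.intro_left p ht.symm
      have htlt : t < m := by
        rw [ht]
        have := hp.two_le
        nlinarith
      rw [ht, cs_mul hp x t (by rw [← ht]; exact hm) hpt]
      refine mul_ne_zero ?_ (ih t htlt (htm.trans hm) (hsq.squarefree_of_dvd htm))
      rw [cs_prime hp ((Dvd.intro t ht.symm).trans hm)]
      split_ifs
      · intro h0
        have h4 : (p : ℂ) = 1 := by linear_combination h0
        have h5 : p = 1 := by exact_mod_cast h4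
        exact hp.one_lt.ne' h5
      · norm_num

/-- a squarefree modulus: no designs for `p ≤ k < n / p`, whatever `x` is -/
lemma regionA_sqfree {k p N : ℕ} {x : ZMod n} (h : IsOneDesign n k x) (hp : p.Prime)
    (hn : n = p * N) (hsq : Squarefree n) (hpk : p ≤ k) (hkN : k < N) : False := by
  have hp2 := hp.two_le
  have hN0 : 0 < N := by omega
  have hNn : N ≠ n := by rw [hn]; nlinarith
  have hn2 : 2 ≤ n := by rw [hn]; nlinarith
  have hNd : N ∣ n := Dvd.intro_left p hn.symm
  have hpN : ¬ p ∣ N := by
    rintro ⟨c, hc⟩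
    have h2 : p * p ∣ n := ⟨c, by rw [hn, hc]; ring⟩
    have h3 := hsq p h2
    exact hp.one_lt.ne' (Nat.isUnit_iff.1 h3)
  have h1 : (1 : ZMod n) ≠ 0 := by
    intro h
    have h4 : ((1 : ℕ) : ZMod n) = 0 := by exact_mod_cast h
    rw [ZMod.natCast_eq_zero_iff] at h4
    have := Nat.le_of_dvd (by omega) h4
    omega
  have hcN := avg h h1 hNd (by omega)
  have hcn := avg h h1 (dvd_refl n) (by omega)
  have e1 : ∑ s ∈ n.divisors, cs x s * (S n k s n : ℂ) = cs x n * (S n k n n : ℂ) := by
    refine Finset.sum_eq_single_of_mem n (Nat.mem_divisors.2 ⟨dvd_rfl, by omega⟩) ?_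
    intro s hs hsn
    rw [S_eq_zero]
    · simp
    intro h6
    exact hsn (Nat.dvd_antisymm (Nat.mem_divisors.1 hs).1 h6)
  have e2 : ∑ s ∈ n.divisors, cs x s * (S n k s N : ℂ)
      = cs x N * (S n k N N : ℂ) + cs x n * (S n k n N : ℂ) := by
    have hsub : ({N, n} : Finset ℕ) ⊆ n.divisors := by
      intro s hs
      rw [Finset.mem_insert, Finset.mem_singleton] at hs
      rw [Nat.mem_divisors]
      rcases hs with rfl | rfl
      · exact ⟨hNd, by omega⟩
      · exact ⟨dvd_rfl, by omega⟩
    rw [← Finset.sum_subset hsub, Finset.sum_pair hNn]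
    intro s hs hs'
    rw [S_eq_zero]
    · simp
    rintro ⟨t, rfl⟩
    apply hs'
    rw [Finset.mem_insert, Finset.mem_singleton]
    have h2 := (Nat.mem_divisors.1 hs).1
    have h3 : N * t ∣ N * p := by rw [mul_comm N p, ← hn]; exact h2
    have h4 := Nat.dvd_of_mul_dvd_mul_left hN0 h3
    rcases (Nat.dvd_prime hp).1 h4 with rfl | rfl
    · left; rw [mul_one]
    · right; rw [hn, mul_comm]
  rw [e1] at hcn
  rw [e2] at hcN
  have hkn : k < n := lt_trans hkN (by rw [hn]; nlinarith)
  have hNN : S n k N N = (((range k).filter (fun i => N / N.gcd (i + 1) = N)).card : ℤ) := by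
    unfold S
    rw [Finset.card_eq_sum_ones]
    push_cast
    refine Finset.sum_congr rfl fun i hi => ?_
    have hi' := Finset.mem_range.1 (Finset.mem_filter.1 hi).1
    unfold a
    rw [Nat.div_eq_of_lt (by omega : k - 1 - i < N)]
    simp
  have hnall : ∀ d, S n k n d = (((range k).filter (fun i => n / n.gcd (i + 1) = d)).card : ℤ) := by
    intro d
    unfold S
    rw [Finset.card_eq_sum_ones]
    push_cast
    refine Finset.sum_congr rfl fun i hi => ?_
    have hi' := Finset.mem_range.1 (Finset.mem_filter.1 hi).1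
    unfold a
    rw [Nat.div_eq_of_lt (by omega : k - 1 - i < n)]
    simp
  -- `S N N = S n n + S n N`
  have hadd : S n k N N = S n k n n + S n k n N := by
    rw [hNN, hnall, hnall]
    have hgcd : ∀ j : ℕ, 0 < j → ∀ s : ℕ, 0 < s → (s / s.gcd j = s ↔ s.gcd j = 1) := by
      intro j hj s hs
      constructor
      · intro h2
        have h3 := Nat.div_mul_cancel (Nat.gcd_dvd_left s j)
        rw [h2] at h3
        have h4 : s * s.gcd j = s * 1 := by rw [h3, mul_one]
        exact Nat.eq_of_mul_eq_mul_left hs h4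
      · intro h2
        rw [h2, Nat.div_one]
    have hset : (range k).filter (fun i => N / N.gcd (i + 1) = N)
        = (range k).filter (fun i => n / n.gcd (i + 1) = n) ∪
          (range k).filter (fun i => n / n.gcd (i + 1) = N) := by
      ext i
      rw [Finset.mem_union, Finset.mem_filter, Finset.mem_filter, Finset.mem_filter,
        hgcd _ (by omega) _ hN0, hgcd _ (by omega) _ npos]
      have hfac : n.gcd (i + 1) = p.gcd (i + 1) * N.gcd (i + 1) := by
        have h9 := Nat.Coprime.gcd_mul (i + 1) ((Nat.Prime.coprime_iff_not_dvd hp).2 hpN)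
        rw [← hn] at h9
        rw [Nat.gcd_comm n, h9, Nat.gcd_comm (i + 1) p, Nat.gcd_comm (i + 1) N]
      have hpg : p.gcd (i + 1) = 1 ∨ p.gcd (i + 1) = p :=
        (Nat.dvd_prime hp).1 (Nat.gcd_dvd_left _ _)
      have hnN : n / n.gcd (i + 1) = N ↔ n.gcd (i + 1) = p := by
        constructor
        · intro h2
          have h3 := Nat.mul_div_cancel' (Nat.gcd_dvd_left n (i + 1))
          rw [h2] at h3
          have h4 : n.gcd (i + 1) * N = p * N := by rw [h3, ← hn]
          exact Nat.eq_of_mul_eq_mul_right hN0 h4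
        · intro h2
          rw [h2, hn, Nat.mul_div_cancel_left _ hp.pos]
      rw [hnN]
      constructor
      · rintro ⟨h2, h3⟩
        rw [h3, mul_one] at hfac
        rcases hpg with h4 | h4
        · left; exact ⟨h2, by rw [hfac, h4]⟩
        · right; exact ⟨h2, by rw [hfac, h4]⟩
      · rintro (⟨h2, h3⟩ | ⟨h2, h3⟩)
        · refine ⟨h2, ?_⟩
          rw [h3] at hfac
          exact Nat.eq_one_of_mul_eq_one_left hfac.symm
        · refine ⟨h2, ?_⟩
          rw [h3] at hfac
          rcases hpg with h4 | h4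
          · rw [h4, one_mul] at hfac
            exact absurd (by rw [hfac]; exact Nat.gcd_dvd_left _ _) hpN
          · rw [h4] at hfac
            have h5 : p * N.gcd (i + 1) = p * 1 := by rw [← hfac, mul_one]
            exact Nat.eq_of_mul_eq_mul_left hp.pos h5
    rw [hset, Finset.card_union_of_disjoint]
    · push_cast; ring
    · rw [Finset.disjoint_left]
      intro i hi hi'
      rw [Finset.mem_filter] at hi hi'
      have h2 := hi.2
      rw [hi'.2] at h2
      exact hNn h2
  have hposN : 1 ≤ S n k n N := by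
    rw [hnall]
    have : p - 1 ∈ (range k).filter (fun i => n / n.gcd (i + 1) = N) := by
      rw [Finset.mem_filter, Finset.mem_range]
      refine ⟨by omega, ?_⟩
      have h2 : p - 1 + 1 = p := by omega
      rw [h2, hn, Nat.gcd_comm, Nat.gcd_mul_right_right, Nat.mul_div_cancel_left _ hp.pos]
    have h3 : 0 < ((range k).filter (fun i => n / n.gcd (i + 1) = N)).card :=
      Finset.card_pos.2 ⟨_, this⟩
    exact_mod_cast h3
  have hposn : 1 ≤ S n k n n := by
    rw [hnall]
    have : 0 ∈ (range k).filter (fun i => n / n.gcd (i + 1) = n) := by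
      rw [Finset.mem_filter, Finset.mem_range]
      refine ⟨by omega, ?_⟩
      rw [zero_add, Nat.gcd_one_right, Nat.div_one]
    have h3 : 0 < ((range k).filter (fun i => n / n.gcd (i + 1) = n)).card :=
      Finset.card_pos.2 ⟨_, this⟩
    exact_mod_cast h3
  have hcsn : cs x n = cs x p * cs x N := by
    have h2 := cs_mul hp x N (by rw [← hn]) hpN
    rw [← hn] at h2
    exact h2
  have hφ : (n.totient : ℂ) = ((p : ℂ) - 1) * N.totient := by
    rw [hn, Nat.totient_mul ((Nat.Prime.coprime_iff_not_dvd hp).2 hpN), Nat.totient_prime hp]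
    push_cast [Nat.cast_sub hp.one_lt.le]
    ring
  have hcN0 : cs x N ≠ 0 := cs_ne N hNd (hsq.squarefree_of_dvd hNd)
  rw [hadd] at hcN
  rw [hcsn] at hcn hcN
  rw [hφ] at hcn
  push_cast at hcN
  have key : ((p : ℂ) - 1) * ((S n k n n : ℂ) + S n k n N + cs x p * S n k n N)
      = cs x p * S n k n n := by
    apply mul_left_cancel₀ hcN0
    linear_combination hcn - ((p : ℂ) - 1) * hcN
  have hpz : (p : ℂ) ≠ 0 := Nat.cast_ne_zero.2 hp.pos.ne'
  rw [cs_prime hp (Dvd.intro N hn.symm)] at key
  by_cases hpx : p ∣ x.val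
  · rw [if_pos hpx] at key
    have hp1 : (p : ℂ) - 1 ≠ 0 := by
      intro h0
      have h4 : (p : ℂ) = 1 := by linear_combination h0
      have h5 : p = 1 := by exact_mod_cast h4
      exact hp.one_lt.ne' h5
    have h2 : (p : ℂ) * (S n k n N : ℂ) = (p : ℂ) * 0 := by
      apply mul_left_cancel₀ hp1
      linear_combination key
    have h3 : (S n k n N : ℂ) = 0 := mul_left_cancel₀ hpz h2
    have h4 : S n k n N = 0 := by exact_mod_cast h3
    omega
  · rw [if_neg hpx] at key
    have h2 : (p : ℂ) * (S n k n n : ℂ) = (p : ℂ) * 0 := by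
      linear_combination key
    have h3 : (S n k n n : ℂ) = 0 := mul_left_cancel₀ hpz h2
    have h4 : S n k n n = 0 := by exact_mod_cast h3
    omega

/-- even squarefree `n` -/
theorem even_sqfree {k : ℕ} {x : ZMod n} (hev : n % 2 = 0) (hsq : Squarefree n) (hk1 : 1 ≤ k)
    (hk : k + 2 ≤ n) : ¬ IsOneDesign n k x := by
  intro h
  obtain ⟨N, hN⟩ : ∃ N, n = 2 * N := ⟨n / 2, by omega⟩
  have h1 : k ≠ 1 := by rintro rfl; exact one_not (by omega) h
  have h2 := (compl_iff (by omega)).1 h
  have h3 : n - 1 - k ≠ 1 := by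
    intro h4
    rw [h4] at h2
    exact one_not (by omega) h2
  rcases Nat.lt_or_ge k N with h4 | h4
  · exact regionA_sqfree h Nat.prime_two hN hsq (by omega) h4
  · exact regionA_sqfree h2 Nat.prime_two hN hsq (by omega) (by omega)

end Pool.Agent.H954.SD
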