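import Mathlib
import Pool.Agent.H954.SD.P

set_option autoImplicit false

open Finset

namespace Pool.Agent.H954.SD

open Pool.Agent.X147.Ssd

variable {n : ℕ} [NeZero n]

lemma val_zero_dvd_iff {r : ℕ} (hr : r ∣ n) (z : ZMod n) (w : ℕ) (hw : z = (w : ZMod n)) :
    r ∣ z.val ↔ r ∣ w := by
  rw [hw, ZMod.val_natCast]
  exact (Nat.dvd_mod_iff hr)

/-- the sum over the characters killed by `r` -/
noncomputable def Hf (r k : ℕ) (x c : ZMod n) : ℂ :=
  ∑ i ∈ range k, ∑ s ∈ n.divisors, if s ∣ r * (i + 1) then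
    (a n s (k - 1 - i) : ℂ) * cs (x - ((i + 1 : ℕ) : ZMod n) * c) s else 0

lemma Hf_eq {r k : ℕ} (x c : ZMod n) :
    ∑ u ∈ (univ : Finset (ZMod n)).filter (fun u => (r : ZMod n) * u = 0),
      ee n (u * c) * F k x u = Hf r k x c := by
  unfold F Hf
  have h1 : ∀ u ∈ (univ : Finset (ZMod n)).filter (fun u => (r : ZMod n) * u = 0),
      ee n (u * c) * ∑ i ∈ range k, ∑ v ∈ (univ : Finset (ZMod n)).filter
        (fun v => ((i + 1 : ℕ) : ZMod n) * v = u), ee n (-(v * x)) * A v (k - 1 - i)
      = ∑ i ∈ range k, ∑ v : ZMod n, if ((i + 1 : ℕ) : ZMod n) * v = u then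
        ee n (u * c) * (ee n (-(v * x)) * A v (k - 1 - i)) else 0 := by
    intro u _
    rw [Finset.mul_sum]
    refine Finset.sum_congr rfl fun i _ => ?_
    rw [Finset.mul_sum, Finset.sum_filter]
  rw [Finset.sum_congr rfl h1, Finset.sum_comm]
  refine Finset.sum_congr rfl fun i _ => ?_
  rw [Finset.sum_comm, all_partition]
  refine Finset.sum_congr rfl fun s hs => ?_
  have h2 : ∀ v ∈ ord n s, ∑ u ∈ (univ : Finset (ZMod n)).filter (fun u => (r : ZMod n) * u = 0),
      (if ((i + 1 : ℕ) : ZMod n) * v = u then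
        ee n (u * c) * (ee n (-(v * x)) * A v (k - 1 - i)) else 0)
      = if s ∣ r * (i + 1) then
        (a n s (k - 1 - i) : ℂ) * ee n (-(v * (x - ((i + 1 : ℕ) : ZMod n) * c))) else 0 := by
    intro v hv
    have hvs := (Finset.mem_filter.1 hv).2
    rw [Finset.sum_ite_eq]
    have h3 : ((i + 1 : ℕ) : ZMod n) * v ∈ (univ : Finset (ZMod n)).filter
        (fun u => (r : ZMod n) * u = 0) ↔ s ∣ r * (i + 1) := by
      rw [Finset.mem_filter]
      simp only [Finset.mem_univ, true_and]
      have h4 : (r : ZMod n) * (((i + 1 : ℕ) : ZMod n) * v) = ((r * (i + 1) : ℕ) : ZMod n) * v := by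
        push_cast; ring
      rw [h4, nat_mul_eq_zero_iff, hvs]
    by_cases h5 : s ∣ r * (i + 1)
    · rw [if_pos h5, if_pos (h3.2 h5), A_a hv, ← mul_assoc, ← AddChar.map_add_eq_mul, mul_comm]
      congr 2
      ring
    · rw [if_neg h5, if_neg (fun h => h5 (h3.1 h))]
  rw [Finset.sum_congr rfl h2]
  by_cases h5 : s ∣ r * (i + 1)
  · simp only [if_pos h5]
    unfold cs
    rw [Finset.mul_sum]
  · simp only [if_neg h5, Finset.sum_const_zero]

lemma Hf_const {r k : ℕ} {x : ZMod n} (h : IsOneDesign n k x) (hr : r ∣ n) (hr1 : r ≠ 1)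
    {c c' : ZMod n} (hc : ¬ r ∣ c.val) (hc' : ¬ r ∣ c'.val) : Hf r k x c = Hf r k x c' := by
  have key : ∀ d : ZMod n, ¬ r ∣ d.val → Hf r k x d = F k x 0 - F k x d := by
    intro d hd
    have hd0 : d ≠ 0 := by
      rintro rfl
      exact hd (by rw [ZMod.val_zero]; exact dvd_zero _)
    rw [← Hf_eq]
    have h0 : (0 : ZMod n) ∈ (univ : Finset (ZMod n)).filter (fun u => (r : ZMod n) * u = 0) := by
      simp
    rw [← Finset.add_sum_erase _ _ h0, zero_mul, AddChar.map_zero_eq_one, one_mul]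
    have h1 : ∀ u ∈ ((univ : Finset (ZMod n)).filter (fun u => (r : ZMod n) * u = 0)).erase 0,
        ee n (u * d) * F k x u = ee n (u * d) * F k x d := by
      intro u hu
      rw [F_const h (Finset.ne_of_mem_erase hu) hd0]
    rw [Finset.sum_congr rfl h1, ← Finset.sum_mul]
    have h2 := ker_val hr d 1
    rw [mul_one, if_neg hd] at h2
    simp only [pow_one] at h2
    rw [← Finset.add_sum_erase _ _ h0, zero_mul, AddChar.map_zero_eq_one] at h2
    linear_combination (F k x d) * h2
  have hc0 : c ≠ 0 := by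
    rintro rfl
    exact hc (by rw [ZMod.val_zero]; exact dvd_zero _)
  have hc0' : c' ≠ 0 := by
    rintro rfl
    exact hc' (by rw [ZMod.val_zero]; exact dvd_zero _)
  rw [key c hc, key c' hc', F_const h hc0 hc0']

lemma cs_shift {m : ℕ} (x z : ZMod n) (t : ℕ) (hm : m ∣ t) :
    cs (x - (t : ZMod n) * z) m = cs x m := by
  unfold cs
  refine Finset.sum_congr rfl fun v hv => ?_
  congr 1
  have h1 : (t : ZMod n) * v = 0 := (nat_mul_eq_zero_iff v t).2 (by
    rw [(Finset.mem_filter.1 hv).2]; exact hm)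
  linear_combination z * h1

/-- the difference of the sums at `x` and `- x` -/
lemma Hf_diff {r k M : ℕ} {x : ZMod n} (h : IsOneDesign n k x) (hr : r.Prime) (hn : n = r * M)
    (hrM : ¬ r ∣ M) (hr3 : 3 ≤ r) (hx : ¬ r ∣ x.val) :
    ∑ m ∈ M.divisors, cs x m * ((∑ i ∈ (range k).filter (fun i => m ∣ i + 1),
      a n (r * m) (k - 1 - i) * ((if r ∣ i then 1 else 0) - (if r ∣ i + 2 then 1 else 0)) : ℤ) : ℂ)
      = 0 := by
  have hrn : r ∣ n := Dvd.intro M hn.symm
  have hM0 : 0 < M := by
    rcases Nat.eq_zero_or_pos M with h0 | h0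
    · rw [h0] at hrM; exact absurd (dvd_zero r) hrM
    · exact h0
  have hnx : ¬ r ∣ (-x).val := by
    rw [ZMod.neg_val]
    split_ifs with h0
    · exact absurd (by rw [h0, ZMod.val_zero]; exact dvd_zero _) hx
    · intro h6
      have h5 := (ZMod.val_lt x).le
      have h7 := Nat.dvd_sub hrn h6
      have h8 : n - (n - x.val) = x.val := by omega
      rw [h8] at h7
      exact hx h7
  have hconst := Hf_const h hrn hr.one_lt.ne' hx hnx
  have hdiff : Hf r k x x - Hf r k x (-x) = 0 := by rw [hconst, sub_self]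
  unfold Hf at hdiff
  rw [← Finset.sum_sub_distrib] at hdiff
  -- the value for a single index
  have hxr : ∀ t : ℕ, (r ∣ (x - ((t + 1 : ℕ) : ZMod n) * x).val ↔ r ∣ t) ∧
      (r ∣ (x - ((t + 1 : ℕ) : ZMod n) * (-x)).val ↔ r ∣ t + 2) := by
    intro t
    have hneg : ∀ z : ZMod n, r ∣ (-z).val ↔ r ∣ z.val := by
      intro z
      rw [ZMod.neg_val]
      split_ifs with h0
      · rw [h0, ZMod.val_zero]
      · have h5 := (ZMod.val_lt z).le
        constructor
        · intro h6
          have h7 := Nat.dvd_sub hrn h6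
          have h8 : n - (n - z.val) = z.val := by omega
          rwa [h8] at h7
        · intro h6
          exact Nat.dvd_sub hrn h6
    constructor
    · have e1 : x - ((t + 1 : ℕ) : ZMod n) * x = -((t * x.val : ℕ) : ZMod n) := by
        push_cast [ZMod.natCast_zmod_val]
        ring
      rw [e1, hneg, val_zero_dvd_iff hrn _ _ rfl]
      constructor
      · intro h1
        rcases hr.dvd_mul.1 h1 with h2 | h2
        · exact h2
        · exact absurd h2 hx
      · intro h1
        exact h1.mul_right _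
    · have e1 : x - ((t + 1 : ℕ) : ZMod n) * (-x) = (((t + 2) * x.val : ℕ) : ZMod n) := by
        push_cast [ZMod.natCast_zmod_val]
        ring
      rw [e1, val_zero_dvd_iff hrn _ _ rfl]
      constructor
      · intro h1
        rcases hr.dvd_mul.1 h1 with h2 | h2
        · exact h2
        · exact absurd h2 hx
      · intro h1
        exact h1.mul_right _
  have hone : ∀ i ∈ range k,
      (∑ s ∈ n.divisors, if s ∣ r * (i + 1) then
        (a n s (k - 1 - i) : ℂ) * cs (x - ((i + 1 : ℕ) : ZMod n) * x) s else 0) -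
      (∑ s ∈ n.divisors, if s ∣ r * (i + 1) then
        (a n s (k - 1 - i) : ℂ) * cs (x - ((i + 1 : ℕ) : ZMod n) * (-x)) s else 0)
      = ∑ m ∈ M.divisors, if m ∣ i + 1 then (r : ℂ) * cs x m * ((a n (r * m) (k - 1 - i) : ℂ) *
        ((if r ∣ i then 1 else 0) - (if r ∣ i + 2 then 1 else 0))) else 0 := by
    intro i _
    rw [← Finset.sum_sub_distrib]
    have hinj : Set.InjOn (fun m => r * m) (M.divisors : Set ℕ) := by
      intro x _ y _ hxy
      exact Nat.eq_of_mul_eq_mul_left hr.pos hxy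
    have hsub : (M.divisors.image (fun m => r * m)) ⊆ n.divisors := by
      intro s hs
      obtain ⟨m, hm, rfl⟩ := Finset.mem_image.1 hs
      rw [Nat.mem_divisors] at hm ⊢
      refine ⟨?_, npos.ne'⟩
      rw [hn]
      exact Nat.mul_dvd_mul_left _ hm.1
    rw [← Finset.sum_subset hsub, Finset.sum_image hinj]
    · refine Finset.sum_congr rfl fun m hm => ?_
      have hmM := (Nat.mem_divisors.1 hm).1
      have hrm : ¬ r ∣ m := fun h1 => hrM (h1.trans hmM)
      have hrmn : r * m ∣ n := by rw [hn]; exact Nat.mul_dvd_mul_left _ hmM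
      have h1 : r * m ∣ r * (i + 1) ↔ m ∣ i + 1 :=
        ⟨fun h1 => Nat.dvd_of_mul_dvd_mul_left hr.pos h1, fun h1 => Nat.mul_dvd_mul_left _ h1⟩
      by_cases h2 : m ∣ i + 1
      · rw [if_pos (h1.2 h2), if_pos (h1.2 h2), if_pos h2, cs_mul hr _ m hrmn hrm,
          cs_mul hr _ m hrmn hrm, cs_shift x x (i + 1) h2, cs_shift x (-x) (i + 1) h2,
          cs_prime hr hrn, cs_prime hr hrn]
        have e1 : (if r ∣ (x - ((i + 1 : ℕ) : ZMod n) * x).val then (r : ℂ) else 0)
            = r * (if r ∣ i then 1 else 0) := by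
          by_cases h3 : r ∣ i
          · rw [if_pos ((hxr i).1.2 h3), if_pos h3, mul_one]
          · rw [if_neg (fun h4 => h3 ((hxr i).1.1 h4)), if_neg h3, mul_zero]
        have e2 : (if r ∣ (x - ((i + 1 : ℕ) : ZMod n) * (-x)).val then (r : ℂ) else 0)
            = r * (if r ∣ i + 2 then 1 else 0) := by
          by_cases h3 : r ∣ i + 2
          · rw [if_pos ((hxr i).2.2 h3), if_pos h3, mul_one]
          · rw [if_neg (fun h4 => h3 ((hxr i).2.1 h4)), if_neg h3, mul_zero]
        rw [e1, e2]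
        ring
      · rw [if_neg (fun h3 => h2 (h1.1 h3)), if_neg (fun h3 => h2 (h1.1 h3)), if_neg h2, sub_zero]
    · intro s hs hs'
      by_cases h1 : s ∣ r * (i + 1)
      · have h2 : ¬ r ∣ s := by
          intro h3
          apply hs'
          obtain ⟨m, rfl⟩ := h3
          rw [Finset.mem_image]
          refine ⟨m, ?_, rfl⟩
          rw [Nat.mem_divisors] at hs ⊢
          refine ⟨?_, hM0.ne'⟩
          have h4 := hs.1
          rw [hn] at h4
          exact Nat.dvd_of_mul_dvd_mul_left hr.pos h4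
        have h3 : s ∣ i + 1 := by
          have h4 : Nat.Coprime s r := ((Nat.Prime.coprime_iff_not_dvd hr).2 h2).symm
          exact h4.dvd_of_dvd_mul_left h1
        rw [if_pos h1, if_pos h1, cs_shift x x (i + 1) h3, cs_shift x (-x) (i + 1) h3, sub_self]
      · rw [if_neg h1, if_neg h1, sub_self]
  rw [Finset.sum_congr rfl hone, Finset.sum_comm] at hdiff
  have hrz : (r : ℂ) ≠ 0 := Nat.cast_ne_zero.2 hr.pos.ne'
  apply mul_left_cancel₀ hrz
  rw [mul_zero, ← hdiff, Finset.mul_sum]
  refine Finset.sum_congr rfl fun m _ => ?_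
  rw [← Finset.sum_filter]
  push_cast
  rw [Finset.mul_sum, Finset.mul_sum]
  refine Finset.sum_congr rfl fun i _ => ?_
  ring

end Pool.Agent.H954.SD
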