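import Mathlib
import Pool.Agent.H954.SD.Q

set_option autoImplicit false

open Finset

namespace Pool.Agent.H954.SD

lemma blkeq (r c0 : ℕ) (h : c0 < r) (g : ℕ → ℤ) (q R : ℕ) (hR : R ≤ r) :
    ∑ t ∈ range (r * q + R), (if t % r = c0 then g (t / r) else 0)
      = ∑ b ∈ range q, g b + (if c0 < R then g q else 0) := by
  rw [Finset.sum_range_add]
  congr 1
  · induction q with
    | zero => simp
    | succ q ih =>
      rw [Nat.mul_succ, Finset.sum_range_add, ih, Finset.sum_range_succ]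
      congr 1
      have h1 : ∀ c ∈ range r, (if (r * q + c) % r = c0 then g ((r * q + c) / r) else 0)
          = (if c = c0 then g q else 0) := by
        intro c hc
        have hc' := Finset.mem_range.1 hc
        rw [Nat.mul_add_mod, Nat.mod_eq_of_lt hc', Nat.mul_add_div (by omega),
          Nat.div_eq_of_lt hc', add_zero]
      rw [Finset.sum_congr rfl h1, Finset.sum_ite_eq' (range r) c0,
        if_pos (Finset.mem_range.2 h)]
  · have h1 : ∀ c ∈ range R, (if (r * q + c) % r = c0 then g ((r * q + c) / r) else 0)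
        = (if c = c0 then g q else 0) := by
      intro c hc
      have hc' := Finset.mem_range.1 hc
      rw [Nat.mul_add_mod, Nat.mod_eq_of_lt (by omega), Nat.mul_add_div (by omega),
        Nat.div_eq_of_lt (by omega), add_zero]
    rw [Finset.sum_congr rfl h1, Finset.sum_ite_eq' (range R) c0]
    simp only [Finset.mem_range]

lemma L1 (r : ℕ) (g : ℕ → ℤ) (q R : ℕ) (hR : R < r) (hR1 : 1 ≤ R) :
    ∑ i ∈ range (r * q + R), (if r ∣ i then g ((r * q + R - 1 - i) / r) else 0)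
      = ∑ b ∈ range (q + 1), g b := by
  rw [← Finset.sum_range_reflect]
  have h := blkeq r (R - 1) (by omega) g q R hR.le
  rw [if_pos (by omega)] at h
  rw [Finset.sum_range_succ, ← h]
  refine Finset.sum_congr rfl fun t ht => ?_
  have ht' := Finset.mem_range.1 ht
  have e1 : r * q + R - 1 - (r * q + R - 1 - t) = t := by omega
  rw [e1]
  have e2 : r ∣ r * q + R - 1 - t ↔ t % r = R - 1 := by
    rw [← Nat.modEq_iff_dvd' (by omega : t ≤ r * q + R - 1)]
    have e3 : (r * q + R - 1) % r = R - 1 := by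
      have : r * q + R - 1 = r * q + (R - 1) := by omega
      rw [this, Nat.mul_add_mod, Nat.mod_eq_of_lt (by omega)]
    unfold Nat.ModEq
    rw [e3]
  simp only [e2]

lemma L2 (r : ℕ) (g : ℕ → ℤ) (q R : ℕ) (hR : R + 2 ≤ r) (hR1 : 1 ≤ R) :
    ∑ i ∈ range (r * q + R), (if r ∣ i + 2 then g ((r * q + R - 1 - i) / r) else 0)
      = ∑ b ∈ range q, g b := by
  rw [← Finset.sum_range_reflect]
  have h := blkeq r (R + 1) (by omega) g q R (by omega)
  rw [if_neg (by omega), add_zero] at h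
  rw [← h]
  refine Finset.sum_congr rfl fun t ht => ?_
  have ht' := Finset.mem_range.1 ht
  have e1 : r * q + R - 1 - (r * q + R - 1 - t) = t := by omega
  rw [e1]
  have e2 : r ∣ r * q + R - 1 - t + 2 ↔ t % r = R + 1 := by
    have e0 : r * q + R - 1 - t + 2 = r * q + (R + 1) - t := by omega
    rw [e0, ← Nat.modEq_iff_dvd' (by omega : t ≤ r * q + (R + 1))]
    have e3 : (r * q + (R + 1)) % r = R + 1 := by
      rw [Nat.mul_add_mod, Nat.mod_eq_of_lt (by omega)]
    unfold Nat.ModEq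
    rw [e3]
  simp only [e2]

lemma choose_mono_half {M b q : ℕ} (hbq : b ≤ q) (hq : 2 * q ≤ M) : M.choose b ≤ M.choose q := by
  induction q, hbq using Nat.le_induction with
  | base => exact le_rfl
  | succ q _ ih =>
    exact (ih (by omega)).trans (Nat.choose_le_succ_of_lt_half_left (by omega))

open Pool.Agent.X147.Ssd

variable {n : ℕ} [NeZero n]

lemma cs_norm {m : ℕ} (hm : m ∣ n) (x : ZMod n) : ‖cs x m‖ ≤ (m : ℝ) := by
  unfold cs
  refine (norm_sum_le _ _).trans ?_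
  have h1 : ∀ v ∈ ord n m, ‖ee n (-(v * x))‖ = 1 := by
    intro v _
    exact AddChar.norm_apply _ _
  rw [Finset.sum_congr rfl h1, Finset.sum_const, card_ord hm, nsmul_eq_mul, mul_one]
  exact_mod_cast Nat.totient_le m

lemma norm_int (z : ℤ) : ‖(z : ℂ)‖ = ((|z| : ℤ) : ℝ) := by
  rw [Complex.norm_intCast, Int.cast_abs]

/-- middle residues are impossible -/
lemma mid {r k M f : ℕ} {x : ZMod n} (h : IsOneDesign n k x) (hr : r.Prime) (hn : n = r * M)
    (hrM : ¬ r ∣ M) (hx : ¬ r ∣ x.val) (hM : 3 ≤ M) (hMo : M % 2 = 1) (hf : 3 ≤ f)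
    (hq2 : 2 * (k / r) < M) (hR1 : 1 ≤ k % r) (hR2 : k % r + 2 ≤ r)
    (hI : (M - 1) * f * (k / r + 1 + ∑ m ∈ M.divisors.erase 1, m * (M / m - 1).choose (k / r / m))
      ≤ (M - 1).choose (k / r)) : False := by
  have hr3 : 3 ≤ r := by omega
  have hd := Hf_diff h hr hn hrM hr3 hx
  have hM0 : 0 < M := by omega
  have h1mem : (1 : ℕ) ∈ M.divisors := Nat.mem_divisors.2 ⟨one_dvd _, by omega⟩
  rw [← Finset.add_sum_erase _ _ h1mem, cs_one, one_mul, mul_one] at hd
  set Q := k / r with hQ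
  set R := k % r with hR
  have hk : k = r * Q + R := (Nat.div_add_mod k r).symm
  have hnr : n / r = M := by rw [hn]; exact Nat.mul_div_cancel_left _ hr.pos
  -- the main term
  have hmain : ∑ i ∈ (range k).filter (fun i => 1 ∣ i + 1),
      a n r (k - 1 - i) * ((if r ∣ i then 1 else 0) - (if r ∣ i + 2 then 1 else 0))
      = (-1) ^ Q * ((M - 1).choose Q : ℤ) := by
    rw [Finset.filter_true_of_mem (fun i _ => one_dvd _)]
    have e1 := L1 r (fun b => (-1) ^ b * ((M - 1).choose b : ℤ)) Q R (by omega) hR1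
    have e2 := L2 r (fun b => (-1) ^ b * ((M - 1).choose b : ℤ)) Q R hR2 hR1
    rw [← hk] at e1 e2
    have e3 : ∀ i ∈ range k, a n r (k - 1 - i) * ((if r ∣ i then 1 else 0) - (if r ∣ i + 2 then 1 else 0))
        = (if r ∣ i then (-1) ^ ((k - 1 - i) / r) * ((M - 1).choose ((k - 1 - i) / r) : ℤ) else 0)
        - (if r ∣ i + 2 then (-1) ^ ((k - 1 - i) / r) * ((M - 1).choose ((k - 1 - i) / r) : ℤ) else 0) := by
      intro i _
      unfold a
      rw [hnr]
      split_ifs <;> ring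
    rw [Finset.sum_congr rfl e3, Finset.sum_sub_distrib, e1, e2, Finset.sum_range_succ]
    ring
  rw [hmain] at hd
  -- the other terms
  have hoth : ∀ m ∈ M.divisors.erase 1, ‖cs x m * ((∑ i ∈ (range k).filter (fun i => m ∣ i + 1),
      a n (r * m) (k - 1 - i) * ((if r ∣ i then 1 else 0) - (if r ∣ i + 2 then 1 else 0)) : ℤ) : ℂ)‖
      ≤ (2 * Q + 1 : ℕ) * ((m * (M / m - 1).choose (Q / m) : ℕ) : ℝ) := by
    intro m hm
    have hmM := (Nat.mem_divisors.1 (Finset.mem_of_mem_erase hm)).1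
    have hmn : m ∣ n := hmM.trans (Dvd.intro_left r hn.symm)
    have hm0 : 0 < m := Nat.pos_of_dvd_of_pos hmM hM0
    have hnrm : n / (r * m) = M / m := by rw [hn]; exact Nat.mul_div_mul_left _ _ hr.pos
    have hhalf : 2 * (Q / m) ≤ M / m - 1 := by
      obtain ⟨c, hc⟩ := hmM
      have hMm : M / m = c := by rw [hc]; exact Nat.mul_div_cancel_left _ hm0
      rw [hMm]
      have h1 : m * (Q / m) ≤ Q := Nat.mul_div_le Q m
      have h2 : 2 * (Q / m) < c := by
        by_contra hcon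
        have h3 : m * c ≤ m * (2 * (Q / m)) := Nat.mul_le_mul_left _ (by omega)
        have h4 : m * (2 * (Q / m)) = 2 * (m * (Q / m)) := by ring
        rw [← hc] at h3
        omega
      omega
    rw [norm_mul, norm_int]
    have hb : |∑ i ∈ (range k).filter (fun i => m ∣ i + 1),
        a n (r * m) (k - 1 - i) * ((if r ∣ i then 1 else 0) - (if r ∣ i + 2 then 1 else 0))|
        ≤ ((2 * Q + 1 : ℕ) : ℤ) * (((M / m - 1).choose (Q / m) : ℕ) : ℤ) := by
      refine (Finset.abs_sum_le_sum_abs _ _).trans ?_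
      have h1 : ∀ i ∈ (range k).filter (fun i => m ∣ i + 1),
          |a n (r * m) (k - 1 - i) * ((if r ∣ i then 1 else 0) - (if r ∣ i + 2 then 1 else 0))|
          ≤ (((M / m - 1).choose (Q / m) : ℕ) : ℤ) *
            ((if r ∣ i then 1 else 0) + (if r ∣ i + 2 then 1 else 0)) := by
        intro i _
        unfold a
        rw [hnrm, abs_mul, abs_mul, abs_pow, abs_neg, abs_one, one_pow, one_mul,
          abs_of_nonneg (Int.natCast_nonneg _)]
        have h2 : ((M / m - 1).choose ((k - 1 - i) / (r * m)) : ℤ)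
            ≤ ((M / m - 1).choose (Q / m) : ℤ) := by
          have h3 : (k - 1 - i) / (r * m) ≤ Q / m := by
            rw [hQ, Nat.div_div_eq_div_mul]
            exact Nat.div_le_div_right (by omega)
          exact_mod_cast choose_mono_half h3 hhalf
        refine mul_le_mul h2 ?_ (abs_nonneg _) (Int.natCast_nonneg _)
        split_ifs <;> norm_num
      refine (Finset.sum_le_sum h1).trans ?_
      rw [← Finset.mul_sum, mul_comm]
      refine mul_le_mul_of_nonneg_right ?_ (Int.natCast_nonneg _)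
      have h2 : ∑ i ∈ (range k).filter (fun i => m ∣ i + 1),
          (((if r ∣ i then 1 else 0) + (if r ∣ i + 2 then 1 else 0) : ℤ))
          ≤ ∑ i ∈ range k, (((if r ∣ i then 1 else 0) + (if r ∣ i + 2 then 1 else 0) : ℤ)) := by
        refine Finset.sum_le_sum_of_subset_of_nonneg (Finset.filter_subset _ _) ?_
        intro i _ _
        split_ifs <;> norm_num
      refine h2.trans ?_
      rw [Finset.sum_add_distrib]
      have e1 := L1 r (fun _ => 1) Q R (by omega) hR1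
      have e2 := L2 r (fun _ => 1) Q R hR2 hR1
      rw [← hk] at e1 e2
      rw [e1, e2]
      simp only [Finset.sum_const, Finset.card_range, nsmul_eq_mul, mul_one]
      push_cast
      linarith
    have hb' : ((|∑ i ∈ (range k).filter (fun i => m ∣ i + 1),
        a n (r * m) (k - 1 - i) * ((if r ∣ i then 1 else 0) - (if r ∣ i + 2 then 1 else 0))| : ℤ) : ℝ)
        ≤ ((2 * Q + 1 : ℕ) : ℝ) * (((M / m - 1).choose (Q / m) : ℕ) : ℝ) := by
      exact_mod_cast hb
    calc ‖cs x m‖ * _ ≤ (m : ℝ) * (((2 * Q + 1 : ℕ) : ℝ) * (((M / m - 1).choose (Q / m) : ℕ) : ℝ)) :=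
          mul_le_mul (cs_norm hmn x) hb' (by positivity) (by positivity)
      _ = _ := by push_cast; ring
  have hC : (((M - 1).choose Q : ℕ) : ℝ) ≤ ((2 * Q + 1 : ℕ) : ℝ) *
      ((∑ m ∈ M.divisors.erase 1, m * (M / m - 1).choose (Q / m) : ℕ) : ℝ) := by
    have h1 : ((((-1) ^ Q * ((M - 1).choose Q : ℤ) : ℤ)) : ℂ)
        = - ∑ m ∈ M.divisors.erase 1, cs x m * ((∑ i ∈ (range k).filter (fun i => m ∣ i + 1),
      a n (r * m) (k - 1 - i) * ((if r ∣ i then 1 else 0) - (if r ∣ i + 2 then 1 else 0)) : ℤ) : ℂ) := by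
      linear_combination hd
    have h2 : ‖((((-1) ^ Q * ((M - 1).choose Q : ℤ) : ℤ)) : ℂ)‖ = (((M - 1).choose Q : ℕ) : ℝ) := by
      rw [norm_int, abs_mul, abs_pow, abs_neg, abs_one, one_pow, one_mul,
        abs_of_nonneg (Int.natCast_nonneg _)]
      push_cast
      rfl
    rw [← h2, h1, norm_neg]
    refine (norm_sum_le _ _).trans ?_
    refine (Finset.sum_le_sum hoth).trans ?_
    rw [← Finset.mul_sum]
    push_cast
    exact le_rfl
  have hC' : (M - 1).choose Q ≤ (2 * Q + 1) * ∑ m ∈ M.divisors.erase 1,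
      m * (M / m - 1).choose (Q / m) := by exact_mod_cast hC
  set Sg := ∑ m ∈ M.divisors.erase 1, m * (M / m - 1).choose (Q / m) with hSg
  have h3 : (M - 1) * 3 * (Q + 1 + Sg) ≤ (2 * Q + 1) * Sg := by
    refine le_trans ?_ (hI.trans hC')
    exact Nat.mul_le_mul_right _ (Nat.mul_le_mul_left _ hf)
  have h4 : (2 * Q + 1) * Sg ≤ (M - 1) * 3 * Sg := Nat.mul_le_mul_right _ (by omega)
  have h5 : (M - 1) * 3 * (Q + 1 + Sg) = (M - 1) * 3 * (Q + 1) + (M - 1) * 3 * Sg := by ring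
  have h6 : 0 < (M - 1) * 3 * (Q + 1) := by
    have : 0 < M - 1 := by omega
    positivity
  omega

/-- extreme residues are impossible -/
lemma ext {r k M f : ℕ} {x : ZMod n} (h : IsOneDesign n k x) (hr : r.Prime) (hn : n = r * M)
    (hrM : ¬ r ∣ M) (hx : ¬ r ∣ x.val) (hM : 3 ≤ M) (hf : 3 ≤ f) (hkn : k < n) (hr3 : 3 ≤ r)
    (hq1 : 1 ≤ k / r) (hq2 : 2 * (k / r) < M) (hR : k % r = 0 ∨ k % r = r - 1)
    (hI : (M - 1) * f * (k / r + 1 + ∑ m ∈ M.divisors.erase 1, m * (M / m - 1).choose (k / r / m))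
      ≤ (M - 1).choose (k / r)) : False := by
  have hM0 : 0 < M := by omega
  have hrn : r ∣ n := Dvd.intro M hn.symm
  have hMn : M ∣ n := Dvd.intro_left r hn.symm
  have hn2 : 2 ≤ n := by rw [hn]; nlinarith
  have h1mem : (1 : ℕ) ∈ M.divisors := Nat.mem_divisors.2 ⟨one_dvd _, by omega⟩
  have h1 : (1 : ZMod n) ≠ 0 := by
    intro h
    have h4 : ((1 : ℕ) : ZMod n) = 0 := by exact_mod_cast h
    rw [ZMod.natCast_eq_zero_iff] at h4
    have := Nat.le_of_dvd (by omega) h4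
    omega
  have hcr := avg h h1 hrn hr.one_lt.ne'
  have hcn := avg h h1 (dvd_refl n) (by omega)
  have e1 : ∑ s ∈ n.divisors, cs x s * (S n k s n : ℂ) = cs x n * (S n k n n : ℂ) := by
    refine Finset.sum_eq_single_of_mem n (Nat.mem_divisors.2 ⟨dvd_rfl, by omega⟩) ?_
    intro s hs hsn
    rw [S_eq_zero]
    · simp
    intro h6
    exact hsn (Nat.dvd_antisymm (Nat.mem_divisors.1 hs).1 h6)
  have hcsr : cs x r = -1 := by rw [cs_prime hr hrn, if_neg hx]; ring
  have e2 : ∑ s ∈ n.divisors, cs x s * (S n k s r : ℂ)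
      = - ∑ m ∈ M.divisors, cs x m * (S n k (r * m) r : ℂ) := by
    have hinj : Set.InjOn (fun m => r * m) (M.divisors : Set ℕ) := by
      intro x _ y _ hxy
      exact Nat.eq_of_mul_eq_mul_left hr.pos hxy
    have e3 : ∀ m ∈ M.divisors, cs x (r * m) * (S n k (r * m) r : ℂ)
        = - (cs x m * (S n k (r * m) r : ℂ)) := by
      intro m hm
      have hmM := (Nat.mem_divisors.1 hm).1
      rw [cs_mul hr x m (by rw [hn]; exact Nat.mul_dvd_mul_left _ hmM)
        (fun h1 => hrM (h1.trans hmM)), hcsr]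
      ring
    rw [← Finset.sum_neg_distrib, ← Finset.sum_congr rfl e3,
      ← Finset.sum_image (f := fun s => cs x s * (S n k s r : ℂ)) hinj]
    symm
    refine Finset.sum_subset ?_ ?_
    · intro s hs
      obtain ⟨m, hm, rfl⟩ := Finset.mem_image.1 hs
      rw [Nat.mem_divisors] at hm ⊢
      refine ⟨?_, by omega⟩
      rw [hn]
      exact Nat.mul_dvd_mul_left _ hm.1
    · intro s hs hs'
      rw [S_eq_zero]
      · simp
      rintro ⟨m, rfl⟩
      apply hs'
      rw [Finset.mem_image]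
      refine ⟨m, ?_, rfl⟩
      rw [Nat.mem_divisors] at hs ⊢
      refine ⟨?_, by omega⟩
      have h2 := hs.1
      rw [hn] at h2
      exact Nat.dvd_of_mul_dvd_mul_left hr.pos h2
  rw [e1] at hcn
  rw [e2, Nat.totient_prime hr] at hcr
  have hcsn : cs x n = - cs x M := by
    have h2 := cs_mul hr x M (by rw [← hn]) hrM
    rw [← hn, hcsr] at h2
    rw [h2]; ring
  have hφ : (n.totient : ℂ) = ((r - 1 : ℕ) : ℂ) * M.totient := by
    rw [hn, Nat.totient_mul ((Nat.Prime.coprime_iff_not_dvd hr).2 hrM), Nat.totient_prime hr]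
    push_cast
    ring
  rw [hcsn, hφ] at hcn
  -- the basic relation
  have hrel : (M.totient : ℂ) * ∑ m ∈ M.divisors, cs x m * (S n k (r * m) r : ℂ)
      = cs x M * (S n k n n : ℂ) := by
    linear_combination (M.totient : ℂ) * hcr - hcn
  rw [← Finset.add_sum_erase _ _ h1mem, cs_one, one_mul, mul_one] at hrel
  set Q := k / r with hQ
  set G1 := S n k r r with hG1
  set Sg := ∑ m ∈ M.divisors.erase 1, m * (M / m - 1).choose (Q / m) with hSg
  obtain ⟨hK0, hKk⟩ := S_top (n := n) hkn.le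
  have hφM : (0 : ℝ) < M.totient := by exact_mod_cast Nat.totient_pos.2 hM0
  have hφMc : (M.totient : ℂ) ≠ 0 := by exact_mod_cast (Nat.totient_pos.2 hM0).ne'
  have hcsM : ‖cs x M‖ ≤ (M.totient : ℝ) := by
    unfold cs
    refine (norm_sum_le _ _).trans ?_
    have h1 : ∀ v ∈ ord n M, ‖ee n (-(v * x))‖ = 1 := by
      intro v _
      exact AddChar.norm_apply _ _
    rw [Finset.sum_congr rfl h1, Finset.sum_const, card_ord hMn, nsmul_eq_mul, mul_one]
  have hrest : ‖∑ m ∈ M.divisors.erase 1, cs x m * (S n k (r * m) r : ℂ)‖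
      ≤ ((r - 1 : ℕ) : ℝ) * (Sg : ℝ) := by
    refine (norm_sum_le _ _).trans ?_
    rw [hSg]
    push_cast
    rw [Finset.mul_sum]
    refine Finset.sum_le_sum fun m hm => ?_
    have hmM := (Nat.mem_divisors.1 (Finset.mem_of_mem_erase hm)).1
    have hb := S_bound (k := k) hr hn hmM hM0 hkn
    have e3 : k / m / r = Q / m := by
      rw [hQ, Nat.div_div_eq_div_mul, Nat.div_div_eq_div_mul, mul_comm]
    rw [e3] at hb
    rw [norm_mul, norm_int]
    have hb' : ((|S n k (r * m) r| : ℤ) : ℝ)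
        ≤ ((r - 1 : ℕ) : ℝ) * (((M / m - 1).choose (Q / m) : ℕ) : ℝ) := by
      have h5 : ((r - 1 : ℕ) : ℤ) = (r : ℤ) - 1 := by
        push_cast [Nat.cast_sub (by omega : 1 ≤ r)]; ring
      rw [← h5] at hb
      exact_mod_cast hb
    calc ‖cs x m‖ * _ ≤ (m : ℝ) * (((r - 1 : ℕ) : ℝ) * (((M / m - 1).choose (Q / m) : ℕ) : ℝ)) :=
          mul_le_mul (cs_norm (hmM.trans hMn) x) hb' (by positivity) (by positivity)
      _ = _ := by ring
  have hG : ((|G1| : ℤ) : ℝ) ≤ (k : ℝ) + ((r - 1 : ℕ) : ℝ) * (Sg : ℝ) := by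
    have h5 : (G1 : ℂ) = (cs x M / (M.totient : ℂ)) * (S n k n n : ℂ)
        - ∑ m ∈ M.divisors.erase 1, cs x m * (S n k (r * m) r : ℂ) := by
      field_simp
      linear_combination hrel
    rw [← norm_int, h5]
    refine (norm_sub_le _ _).trans (add_le_add ?_ hrest)
    rw [norm_mul, norm_div, norm_int, abs_of_nonneg hK0]
    have h6 : ‖(M.totient : ℂ)‖ = (M.totient : ℝ) := by
      rw [Complex.norm_natCast]
    rw [h6]
    have h7 : ‖cs x M‖ / (M.totient : ℝ) ≤ 1 := by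
      rw [div_le_one hφM]; exact hcsM
    have h8 : ((S n k n n : ℤ) : ℝ) ≤ k := by exact_mod_cast hKk
    have h9 : (0 : ℝ) ≤ ((S n k n n : ℤ) : ℝ) := by exact_mod_cast hK0
    calc ‖cs x M‖ / (M.totient : ℝ) * ((S n k n n : ℤ) : ℝ)
        ≤ 1 * ((S n k n n : ℤ) : ℝ) := mul_le_mul_of_nonneg_right h7 h9
      _ ≤ k := by rw [one_mul]; exact h8
  have hG' : |G1| ≤ (k : ℤ) + ((r - 1 : ℕ) : ℤ) * (Sg : ℤ) := by exact_mod_cast hG
  have h6 := S_formula (k := k) hr hn (one_dvd M) hM0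
  rw [mul_one, Nat.div_one, Nat.div_one, ← hG1, ← hQ] at h6
  set X : ℤ := ((M - 1 : ℕ) : ℤ) * ((k % r : ℕ) : ℤ) - ((r : ℤ) - 1) * (Q : ℤ) with hXdef
  have hMz : ((M - 1 : ℕ) : ℤ) = (M : ℤ) - 1 := by push_cast [Nat.cast_sub (by omega : 1 ≤ M)]; ring
  have hrz : ((r - 1 : ℕ) : ℤ) = (r : ℤ) - 1 := by push_cast [Nat.cast_sub (by omega : 1 ≤ r)]; ring
  have hr3z : (3 : ℤ) ≤ r := by exact_mod_cast hr3
  have hM3z : (3 : ℤ) ≤ M := by exact_mod_cast hM
  have hq1z : (1 : ℤ) ≤ Q := by exact_mod_cast hq1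
  have hq2z : 2 * (Q : ℤ) < M := by exact_mod_cast hq2
  have hXl : (r : ℤ) - 1 ≤ |X| := by
    rcases hR with h0 | h0
    · rw [hXdef, h0]
      push_cast
      rw [mul_zero, zero_sub, abs_neg, abs_of_nonneg (by nlinarith)]
      nlinarith
    · rw [hXdef, h0, hMz, hrz]
      have e5 : ((M : ℤ) - 1) * ((r : ℤ) - 1) - ((r : ℤ) - 1) * (Q : ℤ)
          = ((r : ℤ) - 1) * ((M : ℤ) - 1 - Q) := by ring
      rw [e5, abs_of_nonneg (by nlinarith)]
      nlinarith
  set C : ℤ := (((M - 1).choose Q : ℕ) : ℤ) with hC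
  have hC0 : 0 ≤ C := Int.natCast_nonneg _
  have h7 : C * |X| = ((M : ℤ) - 1) * |G1| := by
    have h8 : ((M : ℤ) - 1) * |G1| = |((M - 1 : ℕ) : ℤ) * G1| := by
      rw [abs_mul, abs_of_nonneg (Int.natCast_nonneg _), hMz]
    rw [h8, h6, abs_mul, abs_mul, abs_pow, abs_neg, abs_one, one_pow, one_mul, abs_of_nonneg hC0]
  have h8 : (k : ℤ) < (r : ℤ) * ((Q : ℤ) + 1) := by
    have := Nat.lt_mul_div_succ k hr.pos
    exact_mod_cast this
  have h9 : ((M : ℤ) - 1) * 3 * ((Q : ℤ) + 1 + (Sg : ℤ)) ≤ C := by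
    have h10 : (M - 1) * 3 * (Q + 1 + Sg) ≤ (M - 1).choose Q :=
      le_trans (Nat.mul_le_mul_right _ (Nat.mul_le_mul_left _ hf)) hI
    have h11 : (((M - 1) * 3 * (Q + 1 + Sg) : ℕ) : ℤ) ≤ C := by rw [hC]; exact_mod_cast h10
    rw [Nat.cast_mul, Nat.cast_mul, hMz] at h11
    push_cast at h11
    exact h11
  have hSg0 : (0 : ℤ) ≤ (Sg : ℤ) := Int.natCast_nonneg _
  rw [hrz] at hG'
  -- `C (r-1) ≤ C |X| = (M-1) |G1| < (M-1) (r-1) (2 (Q+1) + Sg)`
  have h10 : |G1| < ((r : ℤ) - 1) * (2 * ((Q : ℤ) + 1) + Sg) := by nlinarith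
  have h11 : C * ((r : ℤ) - 1) < ((M : ℤ) - 1) * (((r : ℤ) - 1) * (2 * ((Q : ℤ) + 1) + Sg)) := by
    calc C * ((r : ℤ) - 1) ≤ C * |X| := mul_le_mul_of_nonneg_left hXl hC0
      _ = ((M : ℤ) - 1) * |G1| := h7
      _ < _ := mul_lt_mul_of_pos_left h10 (by linarith)
  have h12 : C < ((M : ℤ) - 1) * (2 * ((Q : ℤ) + 1) + Sg) := by
    have h13 : ((r : ℤ) - 1) * C < ((r : ℤ) - 1) * (((M : ℤ) - 1) * (2 * ((Q : ℤ) + 1) + Sg)) := by
      linarith
    exact lt_of_mul_lt_mul_left h13 (by linarith)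
  nlinarith

end Pool.Agent.H954.SD
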