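import Mathlib
import Pool.Agent.H954.SD.R

set_option autoImplicit false

open Finset

namespace Pool.Agent.H954.SD

open Pool.Agent.X147.Ssd

variable {n : ℕ} [NeZero n]

/-- the region handled by the inequality -/
lemma mid_ext {r k M f M' : ℕ} {x : ZMod n} (h : IsOneDesign n k x) (hr : r.Prime)
    (hn : n = r * M) (hodd : n % 2 = 1)
    (hrM : ¬ r ∣ M) (hx : ¬ r ∣ x.val) (hM : M = f * M') (hf : 3 ≤ f) (hfM : f < M')
    (hk2 : 2 * k < n) (hk : r * M' ≤ k) : False := by
  have hMo : M % 2 = 1 := by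
    rcases Nat.even_or_odd M with h1 | h1
    · exfalso
      obtain ⟨c, hc⟩ := h1
      have : n = 2 * (r * c) := by rw [hn, hc]; ring
      omega
    · exact Nat.odd_iff.1 h1
  have hM'o : M' % 2 = 1 := by
    rcases Nat.even_or_odd M' with h1 | h1
    · exfalso
      obtain ⟨c, hc⟩ := h1
      have : M = 2 * (f * c) := by rw [hM, hc]; ring
      omega
    · exact Nat.odd_iff.1 h1
  have hfo : f % 2 = 1 := by
    rcases Nat.even_or_odd f with h1 | h1
    · exfalso
      obtain ⟨c, hc⟩ := h1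
      have : M = 2 * (c * M') := by rw [hM, hc]; ring
      omega
    · exact Nat.odd_iff.1 h1
  have hro : r % 2 = 1 := by
    rcases Nat.even_or_odd r with h1 | h1
    · exfalso
      obtain ⟨c, hc⟩ := h1
      have : n = 2 * (c * M) := by rw [hn, hc]; ring
      omega
    · exact Nat.odd_iff.1 h1
  have hr3 : 3 ≤ r := by
    have := hr.two_le
    omega
  have hM15 : 15 ≤ M := by
    have h5 : 5 ≤ M' := by omega
    rw [hM]; nlinarith
  have hff : f * f ≤ M := by rw [hM]; exact Nat.mul_le_mul_left _ hfM.le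
  have hfd : f ∣ M := Dvd.intro _ hM.symm
  have hMf : M / f = M' := by rw [hM]; exact Nat.mul_div_cancel_left _ (by omega)
  have hq : M / f ≤ k / r := by
    rw [hMf, Nat.le_div_iff_mul_le hr.pos, mul_comm]
    exact hk
  have hq2 : 2 * (k / r) < M := by
    have h1 : r * (k / r) ≤ k := Nat.mul_div_le k r
    by_contra hcon
    have h3 : r * M ≤ r * (2 * (k / r)) := Nat.mul_le_mul_left _ (by omega)
    have h4 : r * (2 * (k / r)) = 2 * (r * (k / r)) := by ring
    rw [← hn] at h3
    omega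
  have hI := ineq hM15 hMo hfd hff hf hq hq2
  have hRr : k % r < r := Nat.mod_lt _ hr.pos
  rcases Nat.eq_zero_or_pos (k % r) with h0 | h0
  · exact ext h hr hn hrM hx (by omega) hf (by omega) hr3 (by rw [hMf] at hq; omega) hq2 (Or.inl h0) hI
  · rcases Nat.lt_or_ge (k % r + 1) r with h1 | h1
    · exact mid h hr hn hrM hx (by omega) hMo hf hq2 h0 (by omega) hI
    · exact ext h hr hn hrM hx (by omega) hf (by omega) hr3 (by rw [hMf] at hq; omega) hq2
        (Or.inr (by omega)) hI

lemma exists_prime_not_dvd (hsq : Squarefree n) {x : ZMod n} (hx : x ≠ 0) :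
    ∃ r : ℕ, r.Prime ∧ r ∣ n ∧ ¬ r ∣ x.val := by
  by_contra hcon
  push Not at hcon
  have h1 : ∏ p ∈ n.primeFactors, p ∣ x.val := by
    refine Finset.prod_primes_dvd _ ?_ ?_
    · intro a ha
      exact (Nat.prime_of_mem_primeFactors ha).prime
    · intro a ha
      exact hcon a (Nat.prime_of_mem_primeFactors ha) (Nat.dvd_of_mem_primeFactors ha)
  rw [Nat.prod_primeFactors_of_squarefree hsq] at h1
  have h2 : x.val = 0 := Nat.eq_zero_of_dvd_of_lt h1 (ZMod.val_lt x)
  exact hx ((ZMod.val_eq_zero x).1 h2)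

lemma not_dvd_of_sqfree {r M : ℕ} (hr : r.Prime) (hn : n = r * M) (hsq : Squarefree n) :
    ¬ r ∣ M := by
  rintro ⟨c, hc⟩
  have h1 : r * r ∣ n := ⟨c, by rw [hn, hc]; ring⟩
  have h2 := hsq r h1
  rw [Nat.isUnit_iff] at h2
  exact hr.one_lt.ne' h2

lemma core3 {k : ℕ} {x : ZMod n} (h : IsOneDesign n k x) (hodd : n % 2 = 1)
    (hsq : Squarefree n) (h3 : 3 ≤ n.primeFactors.card) (hx : x ≠ 0) (hk1 : 1 ≤ k)
    (hk2 : 2 * k < n) : False := by
  have hn0 : 0 < n := by omega
  have hn1 : n ≠ 1 := by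
    rintro rfl
    simp at h3
  have hn3 : 3 ≤ n := by omega
  have hp := Nat.minFac_prime hn1
  obtain ⟨N, hN⟩ := Nat.minFac_dvd n
  set p := n.minFac with hpdef
  rcases Nat.lt_or_ge k p with h1 | h1
  · exact hx ((edge_iff hk1 (by omega) (Or.inl h1)).1 h).1
  rcases Nat.lt_or_ge k N with h2 | h2
  · exact regionA_sqfree h hp hN hsq h1 h2
  obtain ⟨r, hr, ⟨M, hM⟩, hrx⟩ := exists_prime_not_dvd hsq hx
  have hrM := not_dvd_of_sqfree hr hM hsq
  have hM0 : 0 < M := by
    rcases Nat.eq_zero_or_pos M with h4 | h4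
    · rw [h4] at hM; omega
    · exact h4
  have hMn : M ∣ n := Dvd.intro_left r hM.symm
  have hcard : 2 ≤ M.primeFactors.card := by
    have h4 : n.primeFactors = insert r M.primeFactors := by
      rw [hM, Nat.primeFactors_mul hr.ne_zero hM0.ne', hr.primeFactors]
      rfl
    have h5 := Finset.card_insert_le r M.primeFactors
    rw [← h4] at h5
    omega
  have hMsq : Squarefree M := hsq.squarefree_of_dvd hMn
  have hMne1 : M ≠ 1 := by
    rintro rfl
    simp at hcard
  have hMnp : ¬ M.Prime := by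
    intro h4
    rw [h4.primeFactors] at hcard
    simp at hcard
  have hbig : ∀ f : ℕ, f.Prime → f ∣ M → (∀ d : ℕ, 1 < d → d ∣ M → f ≤ d) → 3 ≤ f →
      ∃ M', M = f * M' ∧ f < M' := by
    intro f hf hfM hmin hf3
    obtain ⟨M', hM'⟩ := hfM
    refine ⟨M', hM', ?_⟩
    have h4 : 1 < M' := by
      rcases Nat.lt_or_ge 1 M' with h5 | h5
      · exact h5
      · exfalso
        rcases Nat.eq_zero_or_pos M' with h6 | h6
        · rw [h6] at hM'; omega
        · have h7 : M' = 1 := by omega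
          rw [h7, mul_one] at hM'
          rw [hM'] at hMnp
          exact hMnp hf
    have h5 := hmin M' h4 (Dvd.intro_left f hM'.symm)
    rcases Nat.lt_or_ge f M' with h6 | h6
    · exact h6
    · exfalso
      have h7 : M' = f := by omega
      rw [h7] at hM'
      have h8 := hMsq f ⟨1, by rw [hM', mul_one]⟩
      rw [Nat.isUnit_iff] at h8
      omega
  have hodd3 : ∀ f : ℕ, f.Prime → f ∣ n → 3 ≤ f := by
    intro f hf hfn
    have h4 := hf.two_le
    rcases Nat.lt_or_ge 2 f with h5 | h5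
    · exact h5
    · exfalso
      have h6 : f = 2 := by omega
      rw [h6] at hfn
      omega
  by_cases hrp : r = p
  · -- `f = M.minFac`
    have hf := Nat.minFac_prime hMne1
    have hfM := Nat.minFac_dvd M
    have hf3 := hodd3 _ hf (hfM.trans hMn)
    obtain ⟨M', hM', hfM'⟩ := hbig _ hf hfM (fun d hd1 hd2 => Nat.minFac_le_of_dvd hd1 hd2) hf3
    have hNM : N = M := by
      have h4 : p * N = p * M := by rw [← hN, ← hrp]; exact hM
      exact Nat.eq_of_mul_eq_mul_left hp.pos h4
    have hle : r ≤ M.minFac := by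
      rw [hrp]
      exact Nat.minFac_le_of_dvd hf.two_le (hfM.trans hMn)
    refine mid_ext h hr hM hodd hrM hrx hM' hf3 hfM' hk2 ?_
    calc r * M' ≤ M.minFac * M' := Nat.mul_le_mul_right _ hle
      _ = M := hM'.symm
      _ = N := hNM.symm
      _ ≤ k := h2
  · have hpM : p ∣ M := by
      have h4 : p ∣ r * M := by rw [← hM]; exact Dvd.intro N hN.symm
      rcases (Nat.Prime.dvd_mul hp).1 h4 with h5 | h5
      · exact absurd ((Nat.prime_dvd_prime_iff_eq hp hr).1 h5).symm hrp
      · exact h5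
    have hp3 := hodd3 _ hp (Dvd.intro N hN.symm)
    obtain ⟨M', hM', hfM'⟩ := hbig _ hp hpM
      (fun d hd1 hd2 => Nat.minFac_le_of_dvd hd1 (hd2.trans hMn)) hp3
    refine mid_ext h hr hM hodd hrM hrx hM' hp3 hfM' hk2 ?_
    have h4 : p * (r * M') = p * N := by
      rw [← hN, hM, hM']; ring
    have h5 := Nat.eq_of_mul_eq_mul_left hp.pos h4
    omega

/-- odd squarefree `n` with at least three prime factors: only `x = 0` -/
theorem odd_sqfree3 {k : ℕ} {x : ZMod n} (hodd : n % 2 = 1)
    (hsq : Squarefree n) (h3 : 3 ≤ n.primeFactors.card) (hx : x ≠ 0) (hk1 : 1 ≤ k)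
    (hk : k + 2 ≤ n) : ¬ IsOneDesign n k x := by
  intro h
  rcases Nat.lt_or_ge (2 * k) n with h1 | h1
  · exact core3 h hodd hsq h3 hx hk1 h1
  · have h2 := (compl_iff (by omega)).1 h
    rw [sum_zero_of_odd hodd, zero_sub] at h2
    exact core3 h2 hodd hsq h3 (neg_ne_zero.2 hx) (by omega) (by omega)

end Pool.Agent.H954.SD
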