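import Mathlib
import Pool.Agent.H954.SD.T

set_option autoImplicit false

open Finset

namespace Pool.Agent.H954.SD

open Pool.Agent.X147.Ssd

variable {n : ℕ} [NeZero n]

lemma a_top {m : ℕ} (hm : m < n) : a n n m = 1 := by
  unfold a
  rw [Nat.div_eq_of_lt hm, Nat.div_self (by omega)]
  simp

lemma mem_ord_mul {j : ℕ} {v : ZMod n} :
    ((j : ZMod n) * v) ∈ ord n n ↔ v ∈ ord n n ∧ Nat.Coprime n j := by
  unfold ord
  simp only [Finset.mem_filter, Finset.mem_univ, true_and]
  rw [← nsmul_eq_mul, addOrderOf_nsmul]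
  have hn0 : 0 < n := npos
  have hd : addOrderOf v ∣ n := ord_dvd v
  have hpos : 0 < addOrderOf v := ord_pos v
  constructor
  · intro h
    have h1 : addOrderOf v = n := by
      refine Nat.dvd_antisymm hd ?_
      have h2 := Nat.div_dvd_of_dvd (Nat.gcd_dvd_left (addOrderOf v) j)
      rwa [h] at h2
    refine ⟨h1, ?_⟩
    rw [h1] at h
    have h2 : n / n.gcd j * n.gcd j = n := Nat.div_mul_cancel (Nat.gcd_dvd_left _ _)
    rw [h] at h2
    have h3 : n.gcd j = 1 := by
      have : n * n.gcd j = n * 1 := by omega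
      exact Nat.eq_of_mul_eq_mul_left hn0 this
    exact h3
  · rintro ⟨h1, h2⟩
    have h3 : n.gcd j = 1 := h2
    rw [h1, h3, Nat.div_one]

/-- the identity at the characters of order `n` -/
lemma unit_id {k : ℕ} {x : ZMod n} (h : IsOneDesign n k x) (hn : 2 ≤ n) (hk : k ≤ n)
    (c : ZMod n) :
    ∑ i ∈ (range k).filter (fun i => Nat.Coprime n (i + 1)),
      cs (x + ((i + 1 : ℕ) : ZMod n) * c) n = F k x 1 * cs c n := by
  have h1z : (1 : ZMod n) ≠ 0 := by
    intro h
    have h4 : ((1 : ℕ) : ZMod n) = 0 := by exact_mod_cast h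
    rw [ZMod.natCast_eq_zero_iff] at h4
    have := Nat.le_of_dvd (by omega) h4
    omega
  have h1 : ∑ w ∈ ord n n, ee n (-(w * c)) * F k x w = F k x 1 * cs c n := by
    unfold cs
    rw [Finset.mul_sum]
    refine Finset.sum_congr rfl fun w hw => ?_
    rw [mul_comm]
    congr 1
    refine F_const h ?_ h1z
    intro h0
    have := (Finset.mem_filter.1 hw).2
    rw [h0, addOrderOf_zero] at this
    omega
  rw [← h1]
  unfold F
  have h2 : ∀ w ∈ ord n n, ee n (-(w * c)) * ∑ i ∈ range k,
      ∑ v ∈ (univ : Finset (ZMod n)).filter (fun v => ((i + 1 : ℕ) : ZMod n) * v = w),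
        ee n (-(v * x)) * A v (k - 1 - i)
      = ∑ i ∈ range k, ∑ v : ZMod n, if ((i + 1 : ℕ) : ZMod n) * v = w then
          ee n (-(w * c)) * (ee n (-(v * x)) * A v (k - 1 - i)) else 0 := by
    intro w _
    rw [Finset.mul_sum]
    refine Finset.sum_congr rfl fun i _ => ?_
    rw [Finset.mul_sum, Finset.sum_filter]
  rw [Finset.sum_congr rfl h2, Finset.sum_comm, Finset.sum_filter]
  refine Finset.sum_congr rfl fun i hi => ?_
  rw [Finset.sum_comm]
  have h3 : ∀ v : ZMod n, (∑ w ∈ ord n n, if ((i + 1 : ℕ) : ZMod n) * v = w then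
      ee n (-(w * c)) * (ee n (-(v * x)) * A v (k - 1 - i)) else 0)
      = if v ∈ ord n n then (if Nat.Coprime n (i + 1) then
          ee n (-(v * (x + ((i + 1 : ℕ) : ZMod n) * c))) else 0) else 0 := by
    intro v
    rw [Finset.sum_ite_eq]
    by_cases h5 : v ∈ ord n n
    · by_cases h6 : Nat.Coprime n (i + 1)
      · rw [if_pos (mem_ord_mul.2 ⟨h5, h6⟩), if_pos h5, if_pos h6, A_a h5, a_top, Int.cast_one,
          mul_one, ← AddChar.map_add_eq_mul]
        · congr 1
          ring
        · have := Finset.mem_range.1 hi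
          omega
      · rw [if_neg (fun h => h6 (mem_ord_mul.1 h).2), if_pos h5, if_neg h6]
    · rw [if_neg (fun h => h5 (mem_ord_mul.1 h).1), if_neg h5]
  rw [Finset.sum_congr rfl (fun v _ => h3 v), ← Finset.sum_filter]
  have h4 : (univ : Finset (ZMod n)).filter (fun v => v ∈ ord n n) = ord n n := by
    ext v; simp
  rw [h4]
  by_cases h6 : Nat.Coprime n (i + 1)
  · simp only [if_pos h6]
    rfl
  · simp only [if_neg h6, Finset.sum_const_zero]

end Pool.Agent.H954.SD
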