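import Mathlib
import Pool.Agent.H954.SD.U

set_option autoImplicit false

open Finset

namespace Pool.Agent.H954.SD

open Pool.Agent.X147.Ssd

variable {n : ℕ} [NeZero n]

lemma cast_eq_zero_iff {r : ℕ} (hr : r ∣ n) (z : ZMod n) :
    r ∣ z.val ↔ ZMod.castHom hr (ZMod r) z = 0 := by
  have h1 : ZMod.castHom hr (ZMod r) z = ((z.val : ℕ) : ZMod r) := by
    conv_lhs => rw [← ZMod.natCast_zmod_val z]
    rw [map_natCast]
  rw [h1, ZMod.natCast_eq_zero_iff]

lemma cs_pq {p q : ℕ} (hp : p.Prime) (hn : n = p * q) (hpq : ¬ p ∣ q) (z : ZMod n) :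
    cs z n = cs z p * cs z q := by
  have h := cs_mul hp z q (by rw [← hn]) hpq
  rw [← hn] at h
  exact h

/-- the index set -/
def Ix (n k : ℕ) : Finset ℕ := (range k).filter (fun i => Nat.Coprime n (i + 1))

/-- Case A: the number of `i` with `x + (i+1) c = 0` -/
lemma countA {p q k : ℕ} {x : ZMod n} (h : IsOneDesign n k x) (hp : p.Prime) (hq : q.Prime)
    (hn : n = p * q) (hpq : p ≠ q) (hk : k ≤ n) (hxp : ¬ p ∣ x.val) (hxq : ¬ q ∣ x.val)
    (c : ZMod n) (hcp : ¬ p ∣ c.val) (hcq : ¬ q ∣ c.val) :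
    (((Ix n k).filter (fun i => p ∣ (x + ((i + 1 : ℕ) : ZMod n) * c).val ∧
      q ∣ (x + ((i + 1 : ℕ) : ZMod n) * c).val)).card : ℂ) = F k x 1 := by
  have hpn : p ∣ n := Dvd.intro q hn.symm
  have hqn : q ∣ n := Dvd.intro_left p hn.symm
  have hpq' : ¬ p ∣ q := fun h => hpq ((Nat.prime_dvd_prime_iff_eq hp hq).1 h)
  have hn2 : 2 ≤ n := by rw [hn]; have := hp.two_le; have := hq.two_le; nlinarith
  have hco : Nat.Coprime p q := (Nat.Prime.coprime_iff_not_dvd hp).2 hpq'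
  -- idempotent
  obtain ⟨e, he1, he2⟩ : ∃ e : ZMod n, ZMod.castHom hpn (ZMod p) e = 1 ∧
      ZMod.castHom hqn (ZMod q) e = 0 := by
    obtain ⟨w, hw1, hw2⟩ := Nat.chineseRemainder hco 1 0
    refine ⟨(w : ZMod n), ?_, ?_⟩
    · rw [map_natCast]
      have := (ZMod.natCast_eq_natCast_iff w 1 p).2 hw1
      rw [this, Nat.cast_one]
    · rw [map_natCast]
      have := (ZMod.natCast_eq_natCast_iff w 0 q).2 hw2
      rw [this, Nat.cast_zero]
  set φ := ZMod.castHom hpn (ZMod p) with hφ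
  set ψ := ZMod.castHom hqn (ZMod q) with hψ
  have hP : ∀ z : ZMod n, cs z p = (if φ z = 0 then (p : ℂ) else 0) - 1 := by
    intro z
    rw [cs_prime hp hpn]
    simp only [cast_eq_zero_iff hpn, hφ]
  have hQ : ∀ z : ZMod n, cs z q = (if ψ z = 0 then (q : ℂ) else 0) - 1 := by
    intro z
    rw [cs_prime hq hqn]
    simp only [cast_eq_zero_iff hqn, hψ]
  have hxp' : φ x ≠ 0 := fun h0 => hxp ((cast_eq_zero_iff hpn x).2 h0)
  have hxq' : ψ x ≠ 0 := fun h0 => hxq ((cast_eq_zero_iff hqn x).2 h0)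
  have hcp' : φ c ≠ 0 := fun h0 => hcp ((cast_eq_zero_iff hpn c).2 h0)
  have hcq' : ψ c ≠ 0 := fun h0 => hcq ((cast_eq_zero_iff hqn c).2 h0)
  have i0 := unit_id h hn2 hk c
  have i1 := unit_id h hn2 hk (c * e)
  have i2 := unit_id h hn2 hk (c * (1 - e))
  have i3 := unit_id h hn2 hk 0
  simp only [cs_pq hp hn hpq'] at i0 i1 i2 i3
  change ∑ i ∈ Ix n k, _ = _ at i0 i1 i2 i3
  set E := F k x 1 with hE
  have e1 : ∀ i ∈ Ix n k, cs (x + ((i + 1 : ℕ) : ZMod n) * (c * e)) p *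
      cs (x + ((i + 1 : ℕ) : ZMod n) * (c * e)) q
      = - cs (x + ((i + 1 : ℕ) : ZMod n) * c) p := by
    intro i _
    rw [hP, hQ, hP]
    simp only [map_add, map_mul, he1, he2, mul_one, mul_zero, add_zero, if_neg hxq']
    ring
  have e2 : ∀ i ∈ Ix n k, cs (x + ((i + 1 : ℕ) : ZMod n) * (c * (1 - e))) p *
      cs (x + ((i + 1 : ℕ) : ZMod n) * (c * (1 - e))) q
      = - cs (x + ((i + 1 : ℕ) : ZMod n) * c) q := by
    intro i _
    rw [hP, hQ, hQ]
    simp only [map_add, map_mul, map_sub, map_one, he1, he2, mul_one, mul_zero, add_zero,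
      sub_self, sub_zero, if_neg hxp']
    ring
  have e3 : ∀ i ∈ Ix n k, cs (x + ((i + 1 : ℕ) : ZMod n) * 0) p *
      cs (x + ((i + 1 : ℕ) : ZMod n) * 0) q = 1 := by
    intro i _
    rw [mul_zero, add_zero, hP, hQ, if_neg hxp', if_neg hxq']
    ring
  rw [Finset.sum_congr rfl e1] at i1
  rw [Finset.sum_congr rfl e2] at i2
  rw [Finset.sum_congr rfl e3] at i3
  have r0 : cs c p * cs c q = 1 := by rw [hP, hQ, if_neg hcp', if_neg hcq']; ring
  have r1 : cs (c * e) p * cs (c * e) q = 1 - (q : ℂ) := by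
    rw [hP, hQ]
    simp only [map_mul, he1, he2, mul_one, mul_zero, if_true, if_neg hcp']
    ring
  have r2 : cs (c * (1 - e)) p * cs (c * (1 - e)) q = 1 - (p : ℂ) := by
    rw [hP, hQ]
    simp only [map_mul, map_sub, map_one, he1, he2, mul_one, mul_zero, sub_self, sub_zero, if_true,
      if_neg hcq']
    ring
  have r3 : cs (0 : ZMod n) p * cs (0 : ZMod n) q = ((p : ℂ) - 1) * ((q : ℂ) - 1) := by
    rw [hP, hQ]
    simp only [map_zero, if_true]
  rw [r0] at i0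
  rw [r1] at i1
  rw [r2] at i2
  rw [r3] at i3
  have key : ∑ i ∈ Ix n k, (cs (x + ((i + 1 : ℕ) : ZMod n) * c) p + 1) *
      (cs (x + ((i + 1 : ℕ) : ZMod n) * c) q + 1) = E * ((p : ℂ) * q) := by
    have h1 : ∑ i ∈ Ix n k, (cs (x + ((i + 1 : ℕ) : ZMod n) * c) p + 1) *
      (cs (x + ((i + 1 : ℕ) : ZMod n) * c) q + 1)
      = ∑ i ∈ Ix n k, cs (x + ((i + 1 : ℕ) : ZMod n) * c) p * cs (x + ((i + 1 : ℕ) : ZMod n) * c) q
        - ∑ i ∈ Ix n k, (- cs (x + ((i + 1 : ℕ) : ZMod n) * c) p)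
        - ∑ i ∈ Ix n k, (- cs (x + ((i + 1 : ℕ) : ZMod n) * c) q) + ∑ i ∈ Ix n k, (1 : ℂ) := by
      rw [← Finset.sum_sub_distrib, ← Finset.sum_sub_distrib, ← Finset.sum_add_distrib]
      refine Finset.sum_congr rfl fun i _ => ?_
      ring
    rw [h1, i0, i1, i2, i3]
    ring
  have h2 : ∑ i ∈ Ix n k, (cs (x + ((i + 1 : ℕ) : ZMod n) * c) p + 1) *
      (cs (x + ((i + 1 : ℕ) : ZMod n) * c) q + 1)
      = ((Ix n k).filter (fun i => p ∣ (x + ((i + 1 : ℕ) : ZMod n) * c).val ∧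
      q ∣ (x + ((i + 1 : ℕ) : ZMod n) * c).val)).card * ((p : ℂ) * q) := by
    rw [← nsmul_eq_mul, ← Finset.sum_const, Finset.sum_filter]
    refine Finset.sum_congr rfl fun i _ => ?_
    rw [cs_prime hp hpn, cs_prime hq hqn]
    by_cases h3 : p ∣ (x + ((i + 1 : ℕ) : ZMod n) * c).val
    · by_cases h4 : q ∣ (x + ((i + 1 : ℕ) : ZMod n) * c).val
      · rw [if_pos h3, if_pos h4, if_pos ⟨h3, h4⟩]; ring
      · rw [if_pos h3, if_neg h4, if_neg (fun h => h4 h.2)]; ring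
    · by_cases h4 : q ∣ (x + ((i + 1 : ℕ) : ZMod n) * c).val
      · rw [if_neg h3, if_pos h4, if_neg (fun h => h3 h.1)]; ring
      · rw [if_neg h3, if_neg h4, if_neg (fun h => h3 h.1)]; ring
  have hpq0 : ((p : ℂ) * q) ≠ 0 :=
    mul_ne_zero (by exact_mod_cast hp.ne_zero) (by exact_mod_cast hq.ne_zero)
  exact mul_right_cancel₀ hpq0 (h2.symm.trans key)

/-- Case A -/
lemma caseA {p q k : ℕ} {x : ZMod n} (h : IsOneDesign n k x) (hp : p.Prime) (hq : q.Prime)
    (hn : n = p * q) (hpq : p ≠ q) (hk1 : 1 ≤ k) (hk : k + 2 ≤ n) (hxp : ¬ p ∣ x.val)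
    (hxq : ¬ q ∣ x.val) : False := by
  have hpn : p ∣ n := Dvd.intro q hn.symm
  have hqn : q ∣ n := Dvd.intro_left p hn.symm
  have hpq' : ¬ p ∣ q := fun h => hpq ((Nat.prime_dvd_prime_iff_eq hp hq).1 h)
  have hco : Nat.Coprime p q := (Nat.Prime.coprime_iff_not_dvd hp).2 hpq'
  have hneg : ∀ r : ℕ, r ∣ n → ¬ r ∣ x.val → ¬ r ∣ (-x).val := by
    intro r hr hx h0
    rw [cast_eq_zero_iff hr] at h0
    apply hx
    rw [cast_eq_zero_iff hr]
    rw [map_neg] at h0
    exact neg_eq_zero.1 h0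
  have h1 := countA h hp hq hn hpq (by omega) hxp hxq (-x) (hneg p hpn hxp) (hneg q hqn hxq)
  have h2 := countA h hp hq hn hpq (by omega) hxp hxq x hxp hxq
  have h3 : 0 < ((Ix n k).filter (fun i => p ∣ (x + ((i + 1 : ℕ) : ZMod n) * (-x)).val ∧
      q ∣ (x + ((i + 1 : ℕ) : ZMod n) * (-x)).val)).card := by
    rw [Finset.card_pos]
    refine ⟨0, ?_⟩
    unfold Ix
    rw [Finset.mem_filter, Finset.mem_filter, Finset.mem_range]
    refine ⟨⟨by omega, by simp⟩, ?_, ?_⟩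
    · have : x + ((0 + 1 : ℕ) : ZMod n) * (-x) = 0 := by push_cast; ring
      rw [this, ZMod.val_zero]; exact dvd_zero _
    · have : x + ((0 + 1 : ℕ) : ZMod n) * (-x) = 0 := by push_cast; ring
      rw [this, ZMod.val_zero]; exact dvd_zero _
  have h4 : ((Ix n k).filter (fun i => p ∣ (x + ((i + 1 : ℕ) : ZMod n) * x).val ∧
      q ∣ (x + ((i + 1 : ℕ) : ZMod n) * x).val)).card = 0 := by
    rw [Finset.card_eq_zero, Finset.filter_eq_empty_iff]
    rintro i hi ⟨h5, h6⟩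
    have hik : i < k := by
      unfold Ix at hi
      exact Finset.mem_range.1 (Finset.mem_filter.1 hi).1
    have key : ∀ r : ℕ, r.Prime → r ∣ n → ¬ r ∣ x.val →
        r ∣ (x + ((i + 1 : ℕ) : ZMod n) * x).val → r ∣ i + 2 := by
      intro r hr hrn hxr h7
      haveI : Fact r.Prime := ⟨hr⟩
      rw [cast_eq_zero_iff hrn, map_add, map_mul, map_natCast] at h7
      have h8 : ((i + 2 : ℕ) : ZMod r) * ZMod.castHom hrn (ZMod r) x = 0 := by
        push_cast at h7 ⊢
        linear_combination h7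
      rcases mul_eq_zero.1 h8 with h9 | h9
      · exact (ZMod.natCast_eq_zero_iff _ _).1 h9
      · exact absurd ((cast_eq_zero_iff hrn x).2 h9) hxr
    have h10 := hco.mul_dvd_of_dvd_of_dvd (key p hp hpn hxp h5) (key q hq hqn hxq h6)
    rw [← hn] at h10
    have := Nat.le_of_dvd (by omega) h10
    omega
  rw [← h2, h4] at h1
  have h11 : ((Ix n k).filter (fun i => p ∣ (x + ((i + 1 : ℕ) : ZMod n) * (-x)).val ∧
      q ∣ (x + ((i + 1 : ℕ) : ZMod n) * (-x)).val)).card = 0 := by exact_mod_cast h1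
  omega

/-- the number of `i` with `i + 1 ≡ t` -/
def Nt (n k q t : ℕ) : Finset ℕ := (Ix n k).filter (fun i => i + 1 ≡ t [MOD q])

/-- Cases B and C -/
lemma countB {p q k : ℕ} {x : ZMod n} (h : IsOneDesign n k x) (hp : p.Prime) (hq : q.Prime)
    (hn : n = p * q) (hpq : p ≠ q) (hk : k ≤ n) (hxp : p ∣ x.val) (hxq : ¬ q ∣ x.val)
    {t t' : ℕ} (ht : ¬ q ∣ t) (ht' : ¬ q ∣ t') : (Nt n k q t).card = (Nt n k q t').card := by
  have hpn : p ∣ n := Dvd.intro q hn.symm
  have hqn : q ∣ n := Dvd.intro_left p hn.symm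
  have hpq' : ¬ p ∣ q := fun h => hpq ((Nat.prime_dvd_prime_iff_eq hp hq).1 h)
  have hn2 : 2 ≤ n := by rw [hn]; have := hp.two_le; have := hq.two_le; nlinarith
  haveI : Fact q.Prime := ⟨hq⟩
  have key : ∀ t : ℕ, ¬ q ∣ t →
      ((Nt n k q t).card : ℂ) * q = (Ix n k).card - F k x 1 := by
    intro t ht
    have ht0 : (t : ZMod q) ≠ 0 := fun h0 => ht ((ZMod.natCast_eq_zero_iff _ _).1 h0)
    obtain ⟨s, hs⟩ : ∃ s : ℕ, (s : ZMod q) = - (t : ZMod q)⁻¹ := ⟨_, ZMod.natCast_zmod_val _⟩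
    have i0 := unit_id h hn2 hk (x * (s : ZMod n))
    simp only [cs_pq hp hn hpq'] at i0
    change ∑ i ∈ Ix n k, _ = _ at i0
    have hxp' : ZMod.castHom hpn (ZMod p) x = 0 := (cast_eq_zero_iff hpn x).1 hxp
    have hxq' : ZMod.castHom hqn (ZMod q) x ≠ 0 := fun h0 => hxq ((cast_eq_zero_iff hqn x).2 h0)
    have hs0 : (s : ZMod q) ≠ 0 := by rw [hs]; exact neg_ne_zero.2 (inv_ne_zero ht0)
    have e1 : ∀ i ∈ Ix n k, cs (x + ((i + 1 : ℕ) : ZMod n) * (x * (s : ZMod n))) p *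
        cs (x + ((i + 1 : ℕ) : ZMod n) * (x * (s : ZMod n))) q
        = ((p : ℂ) - 1) * ((if i + 1 ≡ t [MOD q] then (q : ℂ) else 0) - 1) := by
      intro i _
      rw [cs_prime hp hpn, cs_prime hq hqn, if_pos]
      · congr 2
        have h1 : q ∣ (x + ((i + 1 : ℕ) : ZMod n) * (x * (s : ZMod n))).val ↔ i + 1 ≡ t [MOD q] := by
          rw [cast_eq_zero_iff hqn, map_add, map_mul, map_mul, map_natCast, map_natCast,
            ← ZMod.natCast_eq_natCast_iff, hs]
          constructor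
          · intro h2
            have h3 : ZMod.castHom hqn (ZMod q) x * (1 + ((i + 1 : ℕ) : ZMod q) * (-(t : ZMod q)⁻¹)) = 0 := by
              linear_combination h2
            rcases mul_eq_zero.1 h3 with h4 | h4
            · exact absurd h4 hxq'
            · field_simp at h4
              linear_combination -h4
          · intro h2
            rw [h2]
            field_simp
            ring
        simp only [h1]
      · rw [cast_eq_zero_iff hpn, map_add, map_mul, map_mul, hxp']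
        ring
    rw [Finset.sum_congr rfl e1, ← Finset.mul_sum] at i0
    have e2 : cs (x * (s : ZMod n)) p = (p : ℂ) - 1 := by
      rw [cs_prime hp hpn, if_pos]
      rw [cast_eq_zero_iff hpn, map_mul, hxp', zero_mul]
    have e3 : cs (x * (s : ZMod n)) q = -1 := by
      rw [cs_prime hq hqn, if_neg]
      · ring
      rw [cast_eq_zero_iff hqn, map_mul, map_natCast]
      exact mul_ne_zero hxq' hs0
    rw [e2, e3] at i0
    have hp1 : (p : ℂ) - 1 ≠ 0 := by
      intro h0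
      have h4 : (p : ℂ) = 1 := by linear_combination h0
      have h5 : p = 1 := by exact_mod_cast h4
      exact hp.one_lt.ne' h5
    have e4 : ∑ i ∈ Ix n k, ((if i + 1 ≡ t [MOD q] then (q : ℂ) else 0) - 1)
        = ((Nt n k q t).card : ℂ) * q - (Ix n k).card := by
      rw [Finset.sum_sub_distrib, ← Finset.sum_filter, Finset.sum_const, Finset.sum_const,
        nsmul_eq_mul, nsmul_eq_mul, mul_one]
      rfl
    rw [e4] at i0
    have e5 : ((Nt n k q t).card : ℂ) * q - (Ix n k).card = - F k x 1 := by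
      refine mul_left_cancel₀ hp1 ?_
      linear_combination i0
    linear_combination e5
  have h1 := (key t ht).trans (key t' ht').symm
  have hq0 : (q : ℂ) ≠ 0 := by exact_mod_cast hq.ne_zero
  exact_mod_cast mul_right_cancel₀ hq0 h1

end Pool.Agent.H954.SD
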