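import Mathlib
import Pool.Agent.H954.SD.V

set_option autoImplicit false

open Finset

namespace Pool.Agent.H954.SD

open Pool.Agent.X147.Ssd

variable {n : ℕ} [NeZero n]

omit [NeZero n] in
lemma mem_Nt {k q t i : ℕ} : i ∈ Nt n k q t ↔ (i < k ∧ Nat.Coprime n (i + 1)) ∧ i + 1 ≡ t [MOD q] := by
  unfold Nt Ix
  rw [Finset.mem_filter, Finset.mem_filter, Finset.mem_range]

omit [NeZero n] in
lemma cop_iff {p q : ℕ} (hp : p.Prime) (hq : q.Prime) (hn : n = p * q) (j : ℕ) :
    Nat.Coprime n j ↔ ¬ p ∣ j ∧ ¬ q ∣ j := by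
  rw [hn, Nat.coprime_mul_iff_left, Nat.Prime.coprime_iff_not_dvd hp,
    Nat.Prime.coprime_iff_not_dvd hq]

/-- Case B -/
lemma caseB {p q k : ℕ} {x : ZMod n} (h : IsOneDesign n k x) (hp : p.Prime) (hq : q.Prime)
    (hn : n = p * q) (hpq : p < q) (hqk : q ≤ k) (hk2 : 2 * k < n) (hxp : p ∣ x.val)
    (hxq : ¬ q ∣ x.val) : False := by
  have hp0 := hp.pos
  have hp2 := hp.two_le
  have hco : Nat.Coprime p q := (Nat.coprime_primes hp hq).2 hpq.ne
  obtain ⟨A', hA⟩ : ∃ A', A' = (k - p) / q + 1 := ⟨_, rfl⟩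
  have hApos : 0 < A' := by rw [hA]; exact Nat.succ_pos _
  have hA1 : q * (A' - 1) ≤ k - p := by
    rw [hA, Nat.add_sub_cancel]
    exact Nat.mul_div_le _ _
  have hAp : A' < p := by
    by_contra hcon
    have h1 : q * (p - 1) ≤ q * (A' - 1) := Nat.mul_le_mul_left _ (by omega)
    obtain ⟨w, rfl⟩ : ∃ w, p = w + 2 := ⟨p - 2, by omega⟩
    have h2 : q * (w + 2 - 1) = q * w + q := by
      have : w + 2 - 1 = w + 1 := by omega
      rw [this]; ring
    have h3 : (w + 2) * q = q * w + 2 * q := by ring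
    rw [hn, h3] at hk2
    rw [h2] at h1
    omega
  have hnd : ∀ l : ℕ, l < A' → ¬ p ∣ (A' - l) * q := by
    intro l hl h1
    have h2 := hco.dvd_of_dvd_mul_right h1
    have := Nat.le_of_dvd (by omega) h2
    omega
  have hr0 : (A' * q) % p ≠ 0 := by
    intro h1
    have := hnd 0 (by omega)
    rw [Nat.sub_zero] at this
    exact this (Nat.dvd_of_mod_eq_zero h1)
  have hrlt := Nat.mod_lt (A' * q) hp0
  have hdm := Nat.div_add_mod (A' * q) p
  obtain ⟨t, ht⟩ : ∃ t, t = p - (A' * q) % p := ⟨_, rfl⟩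
  have htA : t + A' * q = p * ((A' * q) / p + 1) := by
    have : p * ((A' * q) / p + 1) = p * ((A' * q) / p) + p := by ring
    omega
  have ht1 : 1 ≤ t := by omega
  have htp : t < p := by omega
  -- good elements
  have hgood : ∀ l : ℕ, l < A' → t + l * q ≤ k → Nat.Coprime n (t + l * q) := by
    intro l hl _
    rw [cop_iff hp hq hn]
    constructor
    · intro h1
      have h2 : p ∣ t + A' * q := ⟨_, htA⟩
      have h3 := Nat.dvd_sub h2 h1
      have h4 : t + A' * q - (t + l * q) = (A' - l) * q := by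
        rw [Nat.sub_mul]; omega
      rw [h4] at h3
      exact hnd l hl h3
    · intro h1
      have h2 : q ∣ t := (Nat.dvd_add_left (Dvd.intro_left l rfl)).1 h1
      have := Nat.le_of_dvd ht1 h2
      omega
  have hcard := countB h hp hq hn hpq.ne (by omega) hxp hxq (t := p) (t' := t)
    (fun h1 => by have := Nat.le_of_dvd hp0 h1; omega)
    (fun h1 => by have := Nat.le_of_dvd ht1 h1; omega)
  have hmem : t - 1 ∈ Nt n k q t := by
    rw [mem_Nt]
    have h1 : t - 1 + 1 = t := by omega
    rw [h1]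
    refine ⟨⟨by omega, ?_⟩, Nat.ModEq.refl _⟩
    have := hgood 0 (by omega) (by omega)
    rwa [zero_mul, add_zero] at this
  have hle : (Nt n k q p).card ≤ ((Nt n k q t).erase (t - 1)).card := by
    have hrep : ∀ i ∈ Nt n k q p, ∃ l : ℕ, 1 ≤ l ∧ l < A' ∧ i + 1 = p + l * q := by
      intro i hi
      rw [mem_Nt] at hi
      obtain ⟨⟨h1, h2⟩, h3⟩ := hi
      have h4 : (i + 1) % q = p := by
        have : (i + 1) % q = p % q := h3
        rw [this, Nat.mod_eq_of_lt hpq]
      have h5 := Nat.div_add_mod (i + 1) q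
      rw [h4] at h5
      refine ⟨(i + 1) / q, ?_, ?_, by rw [mul_comm]; omega⟩
      · rcases Nat.eq_zero_or_pos ((i + 1) / q) with h6 | h6
        · exfalso
          rw [h6, mul_zero, zero_add] at h5
          rw [← h5, cop_iff hp hq hn] at h2
          exact h2.1 dvd_rfl
        · exact h6
      · rw [hA, Nat.lt_succ_iff, Nat.le_div_iff_mul_le hq.pos, mul_comm]
        omega
    refine Finset.card_le_card_of_injOn (fun i => i + t - p) ?_ ?_
    · intro i hi
      obtain ⟨l, hl1, hlA, hl⟩ := hrep i (by exact_mod_cast hi)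
      have h1 : i < k := (mem_Nt.1 (by exact_mod_cast hi)).1.1
      have hlq : q ≤ l * q := Nat.le_mul_of_pos_left q hl1
      have h2 : i + t - p + 1 = t + l * q := by omega
      rw [Finset.mem_coe, Finset.mem_erase, mem_Nt]
      show i + t - p ≠ t - 1 ∧ (i + t - p < k ∧ Nat.Coprime n (i + t - p + 1)) ∧
        i + t - p + 1 ≡ t [MOD q]
      rw [h2]
      refine ⟨by omega, ⟨by omega, hgood l hlA (by omega)⟩, ?_⟩
      show (t + l * q) % q = t % q
      rw [Nat.add_mul_mod_self_right]
    · intro i hi i' hi' hii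
      obtain ⟨l, hl1, _, hl⟩ := hrep i (by exact_mod_cast hi)
      obtain ⟨l', hl1', _, hl'⟩ := hrep i' (by exact_mod_cast hi')
      have hlq : q ≤ l * q := Nat.le_mul_of_pos_left q hl1
      have hlq' : q ≤ l' * q := Nat.le_mul_of_pos_left q hl1'
      have hii' : i + t - p = i' + t - p := hii
      omega
  have h1 := Finset.card_erase_lt_of_mem hmem
  omega

/-- Case C, extreme residues -/
lemma caseC_ext {p q k : ℕ} {x : ZMod n} (h : IsOneDesign n k x) (hp : p.Prime) (hq : q.Prime)
    (hn : n = p * q) (hpq : p < q) (hp3 : 3 ≤ p) (hqk : q ≤ k) (hk2 : 2 * k < n)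
    (hxq : q ∣ x.val) (hxp : ¬ p ∣ x.val) (hR : k % p = 0 ∨ k % p = p - 1) : False := by
  have hp0 := hp.pos
  have hco : Nat.Coprime p q := (Nat.coprime_primes hp hq).2 hpq.ne
  obtain ⟨c, hc⟩ : ∃ c, c = k / q := ⟨_, rfl⟩
  have hcq : q * c ≤ k := by rw [hc]; exact Nat.mul_div_le _ _
  have hcp : c + 1 < p := by
    by_contra hcon
    have h1 : q * (p - 1) ≤ q * c := Nat.mul_le_mul_left _ (by omega)
    obtain ⟨w, rfl⟩ : ∃ w, p = w + 2 := ⟨p - 2, by omega⟩
    have h2 : q * (w + 2 - 1) = q * w + q := by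
      have : w + 2 - 1 = w + 1 := by omega
      rw [this]; ring
    have h3 : (w + 2) * q = q * w + 2 * q := by ring
    rw [hn, h3] at hk2
    rw [h2] at h1
    omega
  have hpq' : ¬ p ∣ q := (Nat.Prime.coprime_iff_not_dvd hp).1 hco
  obtain ⟨t1, ht1⟩ : ∃ t1, t1 = q % p := ⟨_, rfl⟩
  obtain ⟨t', ht'⟩ : ∃ t', t' = ((c + 1) * q) % p := ⟨_, rfl⟩
  have hnd : ∀ m : ℕ, m ≤ c → ¬ p ∣ (c + 1 - m) * q := by
    intro m hm h1
    have h2 := hco.dvd_of_dvd_mul_right h1
    have := Nat.le_of_dvd (by omega) h2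
    omega
  have ht10 : 1 ≤ t1 := by
    rcases Nat.eq_zero_or_pos t1 with h1 | h1
    · exact absurd (Nat.dvd_of_mod_eq_zero (ht1.symm.trans h1)) hpq'
    · exact h1
  have ht'0 : 1 ≤ t' := by
    rcases Nat.eq_zero_or_pos t' with h1 | h1
    · have h2 := hnd 0 (by omega)
      rw [Nat.sub_zero] at h2
      exact absurd (Nat.dvd_of_mod_eq_zero (ht'.symm.trans h1)) h2
    · exact h1
  have ht1p : t1 < p := by rw [ht1]; exact Nat.mod_lt _ hp0
  have ht'p : t' < p := by rw [ht']; exact Nat.mod_lt _ hp0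
  have hgood : ∀ l : ℕ, t1 + l * p ≤ k → t' + l * p ≤ k ∧ Nat.Coprime n (t' + l * p) := by
    intro l hl
    have hle : t' + l * p ≤ k := by
      have hdm := Nat.div_add_mod k p
      rcases hR with h0 | h0
      · rw [h0, add_zero] at hdm
        have h1 : l < k / p := by
          by_contra hcon
          have : p * (k / p) ≤ p * l := Nat.mul_le_mul_left _ (by omega)
          have h2 : p * l = l * p := mul_comm _ _
          omega
        have h2 : p * (l + 1) ≤ p * (k / p) := Nat.mul_le_mul_left _ h1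
        have h3 : p * (l + 1) = l * p + p := by ring
        omega
      · rw [h0] at hdm
        have h1 : l ≤ k / p := by
          by_contra hcon
          have : p * (k / p + 1) ≤ p * l := Nat.mul_le_mul_left _ (by omega)
          have h2 : p * l = l * p := mul_comm _ _
          have h3 : p * (k / p + 1) = p * (k / p) + p := by ring
          omega
        have h2 : p * l ≤ p * (k / p) := Nat.mul_le_mul_left _ h1
        have h3 : p * l = l * p := mul_comm _ _
        omega
    refine ⟨hle, ?_⟩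
    rw [cop_iff hp hq hn]
    constructor
    · intro h1
      have h2 : p ∣ t' := (Nat.dvd_add_left (Dvd.intro_left l rfl)).1 h1
      have := Nat.le_of_dvd ht'0 h2
      omega
    · rintro ⟨m, hm⟩
      have hmc : m ≤ c := by
        rw [hc, Nat.le_div_iff_mul_le hq.pos, mul_comm]
        omega
      apply hnd m hmc
      have h1 : (c + 1) * q ≡ m * q [MOD p] := by
        have h2 : (t' + l * p) % p = t' % p := Nat.add_mul_mod_self_right _ _ _
        have h3 : t' % p = ((c + 1) * q) % p := by rw [ht', Nat.mod_mod]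
        show ((c + 1) * q) % p = (m * q) % p
        rw [← h3, ← h2, hm, mul_comm]
      have h2 := (Nat.modEq_iff_dvd' (Nat.mul_le_mul_right q (by omega : m ≤ c + 1))).1 h1.symm
      rwa [← Nat.sub_mul] at h2
  have hcard := countB h hq hp (by rw [hn, mul_comm]) hpq.ne' (by omega) hxq hxp (t := t1) (t' := t')
    (fun h1 => by have := Nat.le_of_dvd ht10 h1; omega)
    (fun h1 => by have := Nat.le_of_dvd ht'0 h1; omega)
  have hqr : q = t1 + (q / p) * p := by
    have := Nat.div_add_mod q p
    rw [← ht1] at this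
    rw [mul_comm (q / p)]
    omega
  have hg0 := hgood (q / p) (by omega)
  have hmem : t' + (q / p) * p - 1 ∈ Nt n k p t' := by
    rw [mem_Nt]
    have h1 : t' + (q / p) * p - 1 + 1 = t' + (q / p) * p := by omega
    rw [h1]
    refine ⟨⟨by omega, hg0.2⟩, ?_⟩
    show (t' + (q / p) * p) % p = t' % p
    rw [Nat.add_mul_mod_self_right]
  have hle : (Nt n k p t1).card ≤ ((Nt n k p t').erase (t' + (q / p) * p - 1)).card := by
    have hrep : ∀ i ∈ Nt n k p t1, ∃ l : ℕ, l ≠ q / p ∧ i + 1 = t1 + l * p := by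
      intro i hi
      rw [mem_Nt] at hi
      obtain ⟨⟨h1, h2⟩, h3⟩ := hi
      have h4 : (i + 1) % p = t1 := by
        have : (i + 1) % p = t1 % p := h3
        rw [this, Nat.mod_eq_of_lt ht1p]
      have h5 := Nat.div_add_mod (i + 1) p
      rw [h4] at h5
      have h7 : i + 1 = t1 + (i + 1) / p * p := by rw [mul_comm]; omega
      refine ⟨(i + 1) / p, ?_, h7⟩
      intro h6
      rw [h6] at h7
      have h8 : i + 1 = q := by omega
      rw [h8, cop_iff hp hq hn] at h2
      exact h2.2 dvd_rfl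
    refine Finset.card_le_card_of_injOn (fun i => i + t' - t1) ?_ ?_
    · intro i hi
      obtain ⟨l, hl1, hl⟩ := hrep i (by exact_mod_cast hi)
      have h1 : i < k := (mem_Nt.1 (by exact_mod_cast hi)).1.1
      have hg := hgood l (by omega)
      have h2 : i + t' - t1 + 1 = t' + l * p := by omega
      rw [Finset.mem_coe, Finset.mem_erase, mem_Nt]
      show i + t' - t1 ≠ t' + (q / p) * p - 1 ∧ (i + t' - t1 < k ∧ Nat.Coprime n (i + t' - t1 + 1)) ∧
        i + t' - t1 + 1 ≡ t' [MOD p]
      rw [h2]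
      refine ⟨?_, ⟨by omega, hg.2⟩, ?_⟩
      · intro h3
        have h4 : l * p = (q / p) * p := by omega
        exact hl1 (Nat.eq_of_mul_eq_mul_right hp0 h4)
      · show (t' + l * p) % p = t' % p
        rw [Nat.add_mul_mod_self_right]
    · intro i hi i' hi' hii
      obtain ⟨l, hl1, hl⟩ := hrep i (by exact_mod_cast hi)
      obtain ⟨l', hl1', hl'⟩ := hrep i' (by exact_mod_cast hi')
      have hii' : i + t' - t1 = i' + t' - t1 := hii
      omega
  have h1 := Finset.card_erase_lt_of_mem hmem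
  omega

/-- Case C, `k < 2 p` -/
lemma caseC_small {p q k : ℕ} {x : ZMod n} (h : IsOneDesign n k x) (hp : p.Prime) (hq : q.Prime)
    (hn : n = p * q) (hpq : p + 2 ≤ q) (hp3 : 3 ≤ p) (hqk : q ≤ k) (hk2 : 2 * k < n)
    (hxq : q ∣ x.val) (hxp : ¬ p ∣ x.val) (hkp : k < 2 * p) : False := by
  have hp0 := hp.pos
  have hcard := countB h hq hp (by rw [hn, mul_comm]) (by omega) (by omega) hxq hxp (t := q)
    (t' := 1) (fun h1 => by
      have := (Nat.prime_dvd_prime_iff_eq hp hq).1 h1
      omega)
    (fun h1 => by have := Nat.le_of_dvd one_pos h1; omega)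
  have h1 : (Nt n k p q).card ≤ 1 := by
    rw [Finset.card_le_one]
    have key : ∀ i ∈ Nt n k p q, i + 1 + p = q := by
      intro i hi
      rw [mem_Nt] at hi
      obtain ⟨⟨h1, h2⟩, h3⟩ := hi
      rw [cop_iff hp hq hn] at h2
      rcases Nat.lt_or_ge (i + 1) q with h4 | h4
      · have h5 := (Nat.modEq_iff_dvd' h4.le).1 h3
        obtain ⟨m, hm⟩ := h5
        have hm1 : m = 1 := by
          rcases Nat.lt_trichotomy m 1 with h6 | h6 | h6
          · have : m = 0 := by omega
            rw [this] at hm; omega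
          · exact h6
          · exfalso
            have : p * 2 ≤ p * m := Nat.mul_le_mul_left _ h6
            omega
        rw [hm1] at hm
        omega
      · exfalso
        have h5 := (Nat.modEq_iff_dvd' h4).1 h3.symm
        have h6 : i + 1 - q < p := by omega
        have h7 := Nat.eq_zero_of_dvd_of_lt h5 h6
        have h8 : i + 1 = q := by omega
        exact h2.2 (by rw [h8])
    intro i hi i' hi'
    have := key i hi
    have := key i' hi'
    omega
  have h2 : ({0, p} : Finset ℕ) ⊆ Nt n k p 1 := by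
    intro i hi
    rw [Finset.mem_insert, Finset.mem_singleton] at hi
    rw [mem_Nt, cop_iff hp hq hn]
    rcases hi with rfl | rfl
    · refine ⟨⟨by omega, ?_, ?_⟩, Nat.ModEq.refl _⟩
      · intro h3; have := Nat.le_of_dvd (by omega) h3; omega
      · intro h3; have := Nat.le_of_dvd (by omega) h3; omega
    · refine ⟨⟨by omega, ?_, ?_⟩, ?_⟩
      · intro h3
        have h4 := (Nat.dvd_add_right dvd_rfl).1 h3
        have := Nat.le_of_dvd (by omega) h4
        omega
      · intro h3; have := Nat.le_of_dvd (by omega) h3; omega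
      · show (i + 1) % i = 1 % i
        rw [Nat.add_mod_left]
  have h3 := Finset.card_le_card h2
  rw [Finset.card_pair (by omega)] at h3
  omega

end Pool.Agent.H954.SD
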