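import Mathlib
import Pool.Agent.H954.SD.W

set_option autoImplicit false

open Finset

namespace Pool.Agent.H954.SD

open Pool.Agent.X147.Ssd

variable {n : ℕ} [NeZero n]

/-- Case C, middle residues -/
lemma caseC_mid {p q k : ℕ} {x : ZMod n} (h : IsOneDesign n k x) (hp : p.Prime) (hq : q.Prime)
    (hn : n = p * q) (hpq : p + 2 ≤ q) (hqo : q % 2 = 1) (hk2 : 2 * k < n)
    (hxq : q ∣ x.val) (hxp : ¬ p ∣ x.val) (hQ2 : 2 ≤ k / p) (hR1 : 1 ≤ k % p)
    (hR2 : k % p + 2 ≤ p) : False := by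
  have hp0 := hp.pos
  have hp3 : 3 ≤ p := by omega
  have hqn : q ∣ n := Dvd.intro_left p hn.symm
  have hpq' : ¬ p ∣ q := fun h1 => by
    have := (Nat.prime_dvd_prime_iff_eq hp hq).1 h1
    omega
  have hd := Hf_diff h hp hn hpq' hp3 hxp
  rw [hq.divisors, Finset.sum_pair hq.one_lt.ne, cs_one, one_mul, mul_one] at hd
  obtain ⟨Q, hQ⟩ : ∃ Q, Q = k / p := ⟨_, rfl⟩
  obtain ⟨R, hR⟩ : ∃ R, R = k % p := ⟨_, rfl⟩
  have hk : k = p * Q + R := by rw [hQ, hR]; exact (Nat.div_add_mod k p).symm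
  rw [← hQ] at hQ2
  rw [← hR] at hR1 hR2
  have hnr : n / p = q := by rw [hn]; exact Nat.mul_div_cancel_left _ hp.pos
  have hq2 : 2 * Q < q := by
    have h1 : p * Q ≤ k := by rw [hk]; exact Nat.le_add_right _ _
    by_contra hcon
    have h3 : p * q ≤ p * (2 * Q) := Nat.mul_le_mul_left _ (by omega)
    have h4 : p * (2 * Q) = 2 * (p * Q) := by ring
    rw [← hn] at h3
    omega
  have hmain : ∑ i ∈ (range k).filter (fun i => 1 ∣ i + 1),
      a n p (k - 1 - i) * ((if p ∣ i then 1 else 0) - (if p ∣ i + 2 then 1 else 0))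
      = (-1) ^ Q * ((q - 1).choose Q : ℤ) := by
    rw [Finset.filter_true_of_mem (fun i _ => one_dvd _)]
    have e1 := L1 p (fun b => (-1) ^ b * ((q - 1).choose b : ℤ)) Q R (by omega) hR1
    have e2 := L2 p (fun b => (-1) ^ b * ((q - 1).choose b : ℤ)) Q R hR2 hR1
    rw [← hk] at e1 e2
    have e3 : ∀ i ∈ range k, a n p (k - 1 - i) * ((if p ∣ i then 1 else 0) - (if p ∣ i + 2 then 1 else 0))
        = (if p ∣ i then (-1) ^ ((k - 1 - i) / p) * ((q - 1).choose ((k - 1 - i) / p) : ℤ) else 0)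
        - (if p ∣ i + 2 then (-1) ^ ((k - 1 - i) / p) * ((q - 1).choose ((k - 1 - i) / p) : ℤ) else 0) := by
      intro i _
      unfold a
      rw [hnr]
      split_ifs <;> ring
    rw [Finset.sum_congr rfl e3, Finset.sum_sub_distrib, e1, e2, Finset.sum_range_succ]
    ring
  rw [hmain] at hd
  obtain ⟨J, hJ⟩ : ∃ J : ℤ, J = ∑ i ∈ (range k).filter (fun i => q ∣ i + 1),
      a n (p * q) (k - 1 - i) * ((if p ∣ i then 1 else 0) - (if p ∣ i + 2 then 1 else 0)) := ⟨_, rfl⟩
  rw [← hJ] at hd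
  have hJb : |J| ≤ ((k / q : ℕ) : ℤ) := by
    rw [hJ]
    refine (Finset.abs_sum_le_sum_abs _ _).trans ?_
    have h1 : ∀ i ∈ (range k).filter (fun i => q ∣ i + 1),
        |a n (p * q) (k - 1 - i) * ((if p ∣ i then 1 else 0) - (if p ∣ i + 2 then 1 else 0))| ≤ 1 := by
      intro i _
      rw [← hn, a_top (by omega), one_mul]
      split_ifs <;> norm_num
    refine (Finset.sum_le_sum h1).trans ?_
    rw [Finset.sum_const, Nat.card_multiples, nsmul_eq_mul, mul_one]
  have hcsq : cs x q = (((q - 1 : ℕ) : ℤ) : ℂ) := by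
    rw [cs_prime hq hqn, if_pos hxq]
    push_cast [Nat.cast_sub hq.one_lt.le]
    ring
  rw [hcsq] at hd
  have hd' : (-1) ^ Q * ((q - 1).choose Q : ℤ) + ((q - 1 : ℕ) : ℤ) * J = 0 := by
    exact_mod_cast hd
  have h1 : (((q - 1).choose Q : ℕ) : ℤ) = ((q - 1 : ℕ) : ℤ) * |J| := by
    have h2 : |(-1) ^ Q * ((q - 1).choose Q : ℤ)| = (((q - 1).choose Q : ℕ) : ℤ) := by
      rw [abs_mul, abs_pow, abs_neg, abs_one, one_pow, one_mul, abs_of_nonneg (Int.natCast_nonneg _)]
    rw [← h2]
    have h3 : (-1) ^ Q * ((q - 1).choose Q : ℤ) = - (((q - 1 : ℕ) : ℤ) * J) := by linarith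
    rw [h3, abs_neg, abs_mul, abs_of_nonneg (Int.natCast_nonneg _)]
  have h2 : (q - 1).choose 2 ≤ (q - 1).choose Q := choose_mono_half hQ2 (by omega)
  obtain ⟨w, hw⟩ : ∃ w, q = 2 * w + 1 := ⟨q / 2, by omega⟩
  have h3 : (q - 1).choose 2 = w * (2 * w - 1) := by
    rw [Nat.choose_two_right, hw]
    have : (2 * w + 1 - 1) * (2 * w + 1 - 1 - 1) = 2 * (w * (2 * w - 1)) := by
      have e : 2 * w + 1 - 1 = 2 * w := by omega
      rw [e]; ring
    rw [this]
    omega
  have h4 : (q - 1).choose Q ≤ (q - 1) * (k / q) := by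
    have h5 : (((q - 1).choose Q : ℕ) : ℤ) ≤ ((q - 1 : ℕ) : ℤ) * ((k / q : ℕ) : ℤ) := by
      rw [h1]
      exact mul_le_mul_of_nonneg_left hJb (Int.natCast_nonneg _)
    exact_mod_cast h5
  have h5 : 2 * (k / q) < p := by
    have h6 : q * (k / q) ≤ k := Nat.mul_div_le _ _
    by_contra hcon
    have h7 : q * p ≤ q * (2 * (k / q)) := Nat.mul_le_mul_left _ (by omega)
    have h8 : q * (2 * (k / q)) = 2 * (q * (k / q)) := by ring
    have h9 : q * p = n := by rw [hn, mul_comm]
    omega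
  -- `w (2 w - 1) ≤ 2 w c` with `2 c ≤ p - 1 ≤ q - 3 = 2 w - 2`
  have h6 : w * (2 * w - 1) ≤ 2 * w * (k / q) := by
    have : q - 1 = 2 * w := by omega
    rw [this] at h4 h2 h3
    omega
  have hw0 : 0 < w := by omega
  have h7 : w * (2 * w - 1) ≤ w * (2 * (k / q)) := by
    have : 2 * w * (k / q) = w * (2 * (k / q)) := by ring
    omega
  have h8 := Nat.le_of_mul_le_mul_left h7 hw0
  omega

/-- `n = p q` with odd primes, `x ≠ 0`, lower half -/
lemma core2 {k : ℕ} {x : ZMod n} (h : IsOneDesign n k x) (hodd : n % 2 = 1)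
    (hsq : Squarefree n) {p q : ℕ} (hp : p.Prime) (hq : q.Prime) (hn : n = p * q) (hpq : p < q)
    (hx : x ≠ 0) (hk1 : 1 ≤ k) (hk2 : 2 * k < n) : False := by
  have hpn : p ∣ n := Dvd.intro q hn.symm
  have hqn : q ∣ n := Dvd.intro_left p hn.symm
  have hpo := even_of_odd_prime hodd hpn
  have hqo := even_of_odd_prime hodd hqn
  have hp3 : 3 ≤ p := by have := hp.two_le; omega
  have hco : Nat.Coprime p q := (Nat.coprime_primes hp hq).2 hpq.ne
  have hmin : n.minFac = p := by
    have h1 := Nat.minFac_prime (by omega : n ≠ 1)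
    have h2 := Nat.minFac_dvd n
    have h3 := Nat.minFac_le_of_dvd hp.two_le hpn
    rw [hn] at h2
    rcases (Nat.Prime.dvd_mul (by rw [hn] at h1; exact h1)).1 h2 with h4 | h4
    · rw [hn]
      exact (Nat.prime_dvd_prime_iff_eq (by rw [hn] at h1; exact h1) hp).1 h4
    · have h5 := (Nat.prime_dvd_prime_iff_eq (by rw [hn] at h1; exact h1) hq).1 h4
      rw [← hn] at h5
      omega
  rcases Nat.lt_or_ge k p with h1 | h1
  · exact hx ((edge_iff hk1 (by omega) (Or.inl (by rw [hmin]; exact h1))).1 h).1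
  rcases Nat.lt_or_ge k q with h2 | h2
  · exact regionA_sqfree h hp hn hsq h1 h2
  by_cases hxp : p ∣ x.val
  · by_cases hxq : q ∣ x.val
    · have h3 := hco.mul_dvd_of_dvd_of_dvd hxp hxq
      rw [← hn] at h3
      exact hx ((ZMod.val_eq_zero x).1 (Nat.eq_zero_of_dvd_of_lt h3 (ZMod.val_lt x)))
    · exact caseB h hp hq hn hpq h2 hk2 hxp hxq
  · by_cases hxq : q ∣ x.val
    · have hpl := Nat.mod_lt k hp.pos
      by_cases hR : k % p = 0 ∨ k % p = p - 1
      · exact caseC_ext h hp hq hn hpq hp3 h2 hk2 hxq hxp hR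
      · push Not at hR
        rcases Nat.lt_or_ge k (2 * p) with h3 | h3
        · exact caseC_small h hp hq hn (by omega) hp3 h2 hk2 hxq hxp h3
        · exact caseC_mid h hp hq hn (by omega) hqo hk2 hxq hxp
            ((Nat.le_div_iff_mul_le hp.pos).2 h3) (by omega) (by omega)
    · exact caseA h hp hq hn hpq.ne hk1 (by omega) hxp hxq

/-- odd squarefree `n`: only `x = 0` -/
theorem odd_sqfree {k : ℕ} {x : ZMod n} (hodd : n % 2 = 1)
    (hsq : Squarefree n) (hx : x ≠ 0) (hk1 : 1 ≤ k)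
    (hk : k + 2 ≤ n) : ¬ IsOneDesign n k x := by
  have hn1 : n ≠ 1 := by omega
  rcases Nat.lt_or_ge n.primeFactors.card 3 with h3 | h3
  · -- at most two primes
    have hp := Nat.minFac_prime hn1
    obtain ⟨N, hN⟩ := Nat.minFac_dvd n
    by_cases hN1 : N = 1
    · -- prime
      intro h
      rw [hN1, mul_one] at hN
      exact hx ((edge_iff hk1 hk (Or.inl (by omega))).1 h).1
    · have hpN := not_dvd_of_sqfree hp hN hsq
      have hN0 : N ≠ 0 := by
        rintro rfl
        exact hpN (dvd_zero _)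
      have hNn : N ∣ n := Dvd.intro_left _ hN.symm
      have hNp : N.Prime := by
        have hNsq := hsq.squarefree_of_dvd hNn
        have h4 : N.primeFactors.card = 1 := by
          have h5 : n.primeFactors = insert n.minFac N.primeFactors := by
            conv_lhs => rw [hN]
            rw [Nat.primeFactors_mul hp.ne_zero hN0, hp.primeFactors]
            rfl
          have h6 : n.minFac ∉ N.primeFactors := fun h => hpN (Nat.dvd_of_mem_primeFactors h)
          have h7 := Finset.card_insert_of_notMem h6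
          rw [← h5] at h7
          have h8 : 0 < N.primeFactors.card := by
            rw [Finset.card_pos, Nat.nonempty_primeFactors]
            omega
          omega
        obtain ⟨r, hr⟩ := Finset.card_eq_one.1 h4
        have h9 := Nat.prod_primeFactors_of_squarefree hNsq
        rw [hr, Finset.prod_singleton] at h9
        rw [← h9]
        exact Nat.prime_of_mem_primeFactors (by rw [hr]; exact Finset.mem_singleton_self r)
      have hlt : n.minFac < N := by
        have h4 := Nat.minFac_le_of_dvd hNp.two_le hNn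
        rcases Nat.lt_or_ge n.minFac N with h5 | h5
        · exact h5
        · exfalso
          have h6 : n.minFac = N := by omega
          exact hpN (by rw [h6])
      intro h
      rcases Nat.lt_or_ge (2 * k) n with h1 | h1
      · exact core2 h hodd hsq hp hNp hN hlt hx hk1 h1
      · have h2 := (compl_iff (by omega)).1 h
        rw [sum_zero_of_odd hodd, zero_sub] at h2
        exact core2 h2 hodd hsq hp hNp hN hlt (neg_ne_zero.2 hx) (by omega) (by omega)
  · exact odd_sqfree3 hodd hsq h3 hx hk1 hk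

end Pool.Agent.H954.SD
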