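import Mathlib
import Pool.Agent.H954.SD.Y

set_option autoImplicit false

open Finset

namespace Pool.Agent.H954.SD

variable {n : ℕ} [NeZero n]

/-- squarefree `n`: complete answer -/
theorem sqfree_iff {k : ℕ} {x : ZMod n} (hn : 2 ≤ n) (hsq : Squarefree n) (hk1 : 1 ≤ k)
    (hk : k ≤ n - 1) :
    IsOneDesign n k x ↔ (k = n - 1 ∧ x = ∑ a : ZMod n, a) ∨
      (n % 2 = 1 ∧ x = 0 ∧ 2 ≤ k ∧ k + 3 ≤ n ∧
        (k < n.minFac ∨ n - 1 - k < n.minFac ∨
          ∀ r : ℕ, r.Prime → r ∣ n → n - 1 ∣ (r - 1) * k)) := by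
  by_cases hk' : k = n - 1
  · rw [hk', top_iff hn]
    constructor
    · intro h
      exact Or.inl ⟨rfl, h⟩
    · rintro (h | h)
      · exact h.2
      · omega
  · rcases Nat.mod_two_eq_zero_or_one n with h0 | h1
    · constructor
      · intro h
        exact absurd h (even_sqfree h0 hsq hk1 (by omega))
      · rintro (h | h)
        · exact absurd h.1 hk'
        · omega
    · constructor
      · intro h
        right
        by_cases hx : x = 0
        · subst hx
          rcases (zero_iff h1 (by omega) hk1 hk).1 h with h2 | h2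
          · exact absurd h2 hk'
          · exact ⟨h1, rfl, h2⟩
        · exact absurd h (odd_sqfree h1 hsq hx hk1 (by omega))
      · rintro (h | ⟨_, rfl, h⟩)
        · exact absurd h.1 hk'
        · exact (zero_iff h1 (by omega) hk1 hk).2 (Or.inr h)

end Pool.Agent.H954.SD
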